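import Pool.Agent.Helper30K1.DS.Stm
import Pool.Agent.Helper30K1.GD.DET

set_option autoImplicit false

/-!
Project DS: the sum for parameters which are bad only finitely often (helper16).
-/

namespace Pool.Agent.Helper30K1.DS

open Complex Filter Topology MeasureTheory Set
open Pool.Agent.Y969.GP (ff)
open Pool.Agent.N879.GD (D0 dif NN gp)
open Pool.Agent.Helper30K1.GD.LDa (D0_bound cell cell_len NN_pos gp_ge gp_le tend2)

namespace DETa

/-- the number of points in an interval -/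
lemma card_le {ι : Type} {x : ι → ℝ} {S : Finset ι} {K a b : ℝ} (h : Few x S K) (hab : a ≤ b)
    (hS : ∀ i ∈ S, a < x i ∧ x i ≤ b) : (S.card : ℝ) ≤ K * (b - a + 1) := by
  classical
  have hK : 0 ≤ K := by
    have := h 0 ∅ (Finset.empty_subset _) (by simp)
    simpa using this
  have key : ∀ m : ℕ, ∀ S' : Finset ι, S' ⊆ S → (∀ i ∈ S', a < x i ∧ x i ≤ a + m) →
      (S'.card : ℝ) ≤ K * m := by
    intro m
    induction m with
    | zero =>
      intro S' _ h2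
      have : S' = ∅ := by
        rw [Finset.eq_empty_iff_forall_notMem]
        intro i hi
        have := h2 i hi
        simp only [Nat.cast_zero, add_zero] at this
        linarith [this.1, this.2]
      simp [this]
    | succ m ih =>
      intro S' h1 h2
      have e1 := ih (S'.filter (fun i => x i ≤ a + m)) ((Finset.filter_subset _ _).trans h1) (by
        intro i hi
        rw [Finset.mem_filter] at hi
        exact ⟨(h2 i hi.1).1, hi.2⟩)
      have e2 := h (a + m) (S'.filter (fun i => ¬ x i ≤ a + m)) ((Finset.filter_subset _ _).trans h1) (by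
        intro i hi
        rw [Finset.mem_filter] at hi
        have h3 := (h2 i hi.1).2
        push_cast at h3
        exact ⟨(not_le.1 hi.2).le, by linarith⟩)
      have e3 := Finset.card_filter_add_card_filter_not (s := S') (fun i => x i ≤ a + m)
      have e4 : ((S'.filter (fun i => x i ≤ a + m)).card : ℝ) +
          ((S'.filter (fun i => ¬ x i ≤ a + m)).card : ℝ) = (S'.card : ℝ) := by exact_mod_cast e3
      push_cast
      linarith
  have h1 := key ⌈b - a⌉₊ S Finset.Subset.rfl (fun i hi => ⟨(hS i hi).1, by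
    have := Nat.le_ceil (b - a)
    linarith [(hS i hi).2]⟩)
  have h2 : ((⌈b - a⌉₊ : ℕ) : ℝ) ≤ b - a + 1 := (Nat.ceil_lt_add_one (by linarith)).le
  exact h1.trans (mul_le_mul_of_nonneg_left h2 hK)

/-- one cell -/
lemma cell_sum {k : ℕ} {ι : Type} {x : ι → ℝ} {F : ι → ℂ} (hx : Sq x) {l : Fin k → ℝ} {a b t L : ℝ}
    (_hat : a ≤ t) (htb : t ≤ b) (hD : ∀ s ∈ Icc a b, ∀ j, 0 ≤ D0 (l j * s) ∧ D0 (l j * s) ≤ L) :
    ‖∑ i ∈ fs x a t, F i * ((dif l (x i) : ℝ) : ℂ)‖ ≤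
      JJ x (fun i => ((‖F i‖ : ℝ) : ℂ)) l a b + 2 * L ^ k * ∑ i ∈ fs x a b, ‖F i‖ := by
  have hp : ∀ s ∈ Icc a b, |dif l s| ≤ dif l s + 2 * L ^ k := by
    intro s hs
    have p1 : 0 ≤ ∏ j, ff (l j * s) := Finset.prod_nonneg fun j _ => by
      unfold ff
      positivity
    have p2 : 0 ≤ ∏ j, D0 (l j * s) := Finset.prod_nonneg fun j _ => (hD s hs j).1
    have p3 : ∏ j, D0 (l j * s) ≤ L ^ k := by
      calc ∏ j, D0 (l j * s) ≤ ∏ _j : Fin k, L :=
            Finset.prod_le_prod (fun j _ => (hD s hs j).1) fun j _ => (hD s hs j).2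
        _ = _ := by rw [Finset.prod_const, Finset.card_univ, Fintype.card_fin]
    unfold dif
    rw [abs_le]
    constructor <;> linarith
  calc ‖∑ i ∈ fs x a t, F i * ((dif l (x i) : ℝ) : ℂ)‖
      ≤ ∑ i ∈ fs x a t, ‖F i * ((dif l (x i) : ℝ) : ℂ)‖ := norm_sum_le _ _
    _ ≤ ∑ i ∈ fs x a b, ‖F i * ((dif l (x i) : ℝ) : ℂ)‖ := by
        refine Finset.sum_le_sum_of_subset_of_nonneg ?_ fun i _ _ => norm_nonneg _
        intro i hi
        rw [hx.mem] at hi ⊢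
        exact ⟨hi.1, hi.2.trans htb⟩
    _ ≤ ∑ i ∈ fs x a b, (‖F i‖ * dif l (x i) + 2 * L ^ k * ‖F i‖) := by
        refine Finset.sum_le_sum fun i hi => ?_
        rw [hx.mem] at hi
        rw [norm_mul, norm_real, Real.norm_eq_abs]
        have := mul_le_mul_of_nonneg_left (hp (x i) ⟨hi.1.le, hi.2⟩) (norm_nonneg (F i))
        linarith
    _ = (∑ i ∈ fs x a b, ‖F i‖ * dif l (x i)) + 2 * L ^ k * ∑ i ∈ fs x a b, ‖F i‖ := by
        rw [Finset.sum_add_distrib, Finset.mul_sum]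
    _ ≤ _ := by
        gcongr
        unfold JJ
        have e1 : (∑ i ∈ fs x a b, ((‖F i‖ : ℝ) : ℂ) * ((dif l (x i) : ℝ) : ℂ)) =
            ((∑ i ∈ fs x a b, ‖F i‖ * dif l (x i) : ℝ) : ℂ) := by
          push_cast
          rfl
        rw [e1, norm_real]
        exact le_abs_self _

/-- the absolute sum over a cell -/
lemma abs_sum {ι : Type} {x : ι → ℝ} {F : ι → ℂ} (hx : Sq x) (hF : Gr x F) {θ μ : ℝ} (hθ1 : θ ≤ 1)
    (hμ : 0 < μ) : ∃ C : ℝ, 0 < C ∧ ∀ T a b : ℝ, 1 ≤ T → a ≤ b → b ≤ 2 * T → b - a ≤ T ^ (1 - θ) →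
      ∑ i ∈ fs x a b, ‖F i‖ ≤ C * T ^ (1 - θ / 2 + μ / 2) := by
  have hμ2 : 0 < μ / 2 := by linarith
  obtain ⟨C1, hC1, h1⟩ := hx.few hμ2
  obtain ⟨C2, hC2, h2⟩ := hF (μ / 2) hμ2
  refine ⟨√(2 * C1 * (C2 * 2 ^ (1 + μ / 2))), by positivity, ?_⟩
  intro T a b hT hab hb hlen
  have hT0 : 0 < T := by linarith
  have hmem : ∀ i ∈ fs x a b, a < x i ∧ x i ≤ b := fun i hi => hx.mem.1 hi
  have c1 := card_le (h1 T hT (fs x a b) (fun i hi => (hmem i hi).2.trans hb)) hab hmem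
  have c2 : (1 : ℝ) ≤ T ^ (1 - θ) := Real.one_le_rpow hT (by linarith)
  have c3 : ((fs x a b).card : ℝ) ≤ 2 * C1 * T ^ (1 - θ + μ / 2) := by
    refine c1.trans ?_
    calc C1 * T ^ (μ / 2) * (b - a + 1) ≤ C1 * T ^ (μ / 2) * (T ^ (1 - θ) + T ^ (1 - θ)) := by
          gcongr
      _ = 2 * C1 * (T ^ (1 - θ) * T ^ (μ / 2)) := by ring
      _ = _ := by rw [← Real.rpow_add hT0]
  have s1 : sq F (fs x a b) ≤ C2 * 2 ^ (1 + μ / 2) * T ^ (1 + μ / 2) := by
    have := h2 (2 * T) (by linarith) (fs x a b) (fun i hi => (hmem i hi).2.trans hb)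
    rw [Real.mul_rpow (by norm_num) hT0.le] at this
    linarith
  have s2 : (∑ i ∈ fs x a b, ‖F i‖) ^ 2 ≤ ((fs x a b).card : ℝ) * sq F (fs x a b) := by
    have := sq_sum_le_card_mul_sum_sq (s := fs x a b) (f := fun i => ‖F i‖)
    exact this
  have s3 : (∑ i ∈ fs x a b, ‖F i‖) ^ 2 ≤
      (√(2 * C1 * (C2 * 2 ^ (1 + μ / 2))) * T ^ (1 - θ / 2 + μ / 2)) ^ 2 := by
    rw [mul_pow, Real.sq_sqrt (by positivity)]
    have e1 : (T ^ (1 - θ / 2 + μ / 2)) ^ 2 = T ^ (1 - θ + μ / 2) * T ^ (1 + μ / 2) := by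
      rw [← Real.rpow_natCast, ← Real.rpow_mul hT0.le, ← Real.rpow_add hT0]
      congr 1
      push_cast
      ring
    rw [e1]
    calc (∑ i ∈ fs x a b, ‖F i‖) ^ 2 ≤ ((fs x a b).card : ℝ) * sq F (fs x a b) := s2
      _ ≤ (2 * C1 * T ^ (1 - θ + μ / 2)) * (C2 * 2 ^ (1 + μ / 2) * T ^ (1 + μ / 2)) := by
          refine mul_le_mul c3 s1 ?_ (by positivity)
          unfold sq
          exact Finset.sum_nonneg fun i _ => by positivity
      _ = _ := by ring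
  exact le_trans (le_abs_self _) (abs_le_of_sq_le_sq s3 (by positivity))

/-- one dyadic block -/
lemma block {k : ℕ} {ι : Type} {x : ι → ℝ} {F : ι → ℂ} {A θ ρ δ : ℝ} (hx : Sq x) (hF : Gr x F)
    (hA : 1 ≤ A) (hθ1 : θ ≤ 1)
    (hδρ : δ < ρ) (hδθ : 2 * δ < θ) {l : Fin k → ℝ} (hl : ∀ j, A⁻¹ ≤ l j ∧ l j ≤ A)
    (hbad : ∀ᶠ n : ℕ in atTop, l ∉ Bad k x F A 1 θ ρ n) :
    ∃ C : ℝ, 0 < C ∧ ∀ᶠ n : ℕ in atTop, ∀ t : ℝ, 2 ^ n ≤ t → t ≤ 2 * 2 ^ n →
      ‖∑ i ∈ fs x (2 ^ n) t, F i * ((dif l (x i) : ℝ) : ℂ)‖ ≤ C * ((2 : ℝ) ^ n) ^ (1 - δ) := by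
  have hA0 : 0 < A := by linarith
  have hl0 : ∀ j, 0 < l j := fun j => lt_of_lt_of_le (by positivity) (hl j).1
  set μ : ℝ := θ / 2 - δ with hμ
  have hμ0 : 0 < μ := by linarith
  obtain ⟨CL, hCL, hCL1⟩ := abs_sum hx hF hθ1 hμ0
  set η : ℝ := μ / (2 * (k + 1)) with hη
  have hη0 : 0 < η := by positivity
  have hkη : k * η ≤ μ / 2 := by
    rw [hη, mul_div_assoc', div_le_div_iff₀ (by positivity) (by norm_num)]
    nlinarith
  refine ⟨2 + 2 * CL, by positivity, ?_⟩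
  filter_upwards [hbad, tend2.eventually (D0_bound hη0 hA), tend2.eventually_ge_atTop 1]
    with n hn hD hT t ht1 ht2
  set T : ℝ := (2 : ℝ) ^ n with hTdef
  have hT0 : 0 < T := by linarith
  obtain ⟨i, hi, hi1, hi2⟩ := cell (θ := θ) ht1 ht2
  set a := gp θ n i with ha
  set b := gp θ n (i + 1) with hb
  have haT : T ≤ a := gp_ge n i
  have hbT : b ≤ 2 * T := gp_le n hi
  have ha0 : 0 < a := by linarith
  -- not bad
  have g1 : JJ x F l T a ≤ T ^ (1 - ρ) := by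
    by_contra hc
    exact hn ⟨hl, i, hi, Or.inl (by rw [one_mul]; exact not_le.1 hc)⟩
  have g2 : JJ x (fun i => ((‖F i‖ : ℝ) : ℂ)) l a b ≤ T ^ (1 - ρ) := by
    by_contra hc
    exact hn ⟨hl, i, hi, Or.inr (by rw [one_mul]; exact not_le.1 hc)⟩
  have g3 : T ^ (1 - ρ) ≤ T ^ (1 - δ) := Real.rpow_le_rpow_of_exponent_le hT (by linarith)
  have g4 := cell_sum (F := F) hx (l := l) (L := T ^ η) hi1 hi2 (fun s hs j => by
    have hs0 : 0 < s := ha0.trans_le hs.1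
    refine hD _ ?_ ?_
    · have := (hl j).1
      have := haT.trans hs.1
      have := (hl0 j).le
      gcongr
    · have := (hl j).2
      have := hs.2.trans hbT
      gcongr)
  -- the absolute sum
  have g5 : ∑ i ∈ fs x a b, ‖F i‖ ≤ CL * T ^ (1 - θ / 2 + μ / 2) :=
    hCL1 T a b hT (hi1.trans hi2) hbT cell_len
  have g6 : 2 * (T ^ η) ^ k * ∑ i ∈ fs x a b, ‖F i‖ ≤ 2 * CL * T ^ (1 - δ) := by
    have f5 : (T ^ η) ^ k ≤ T ^ (μ / 2) := by
      rw [← Real.rpow_natCast, ← Real.rpow_mul hT0.le]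
      refine Real.rpow_le_rpow_of_exponent_le hT ?_
      linarith
    calc 2 * (T ^ η) ^ k * ∑ i ∈ fs x a b, ‖F i‖
        ≤ 2 * T ^ (μ / 2) * (CL * T ^ (1 - θ / 2 + μ / 2)) := by
          have : 0 ≤ ∑ i ∈ fs x a b, ‖F i‖ := Finset.sum_nonneg fun s _ => norm_nonneg _
          gcongr
      _ = 2 * CL * (T ^ (μ / 2) * T ^ (1 - θ / 2 + μ / 2)) := by ring
      _ = _ := by
          rw [← Real.rpow_add hT0]
          congr 2
          rw [hμ]
          ring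
  have g7 : ‖∑ i ∈ fs x T a, F i * ((dif l (x i) : ℝ) : ℂ)‖ ≤ T ^ (1 - ρ) := g1
  have g8 := hx.split haT hi1 (fun i => F i * ((dif l (x i) : ℝ) : ℂ))
  rw [g8]
  have g9 := norm_add_le (∑ i ∈ fs x T a, F i * ((dif l (x i) : ℝ) : ℂ))
    (∑ i ∈ fs x a t, F i * ((dif l (x i) : ℝ) : ℂ))
  linarith

end DETa

open DETa

theorem t_DET : S_DET := by
  intro k ι x F A θ ρ δ hx hF hA hθ hθ1 hρ hρ1 hδ hδρ hδθ l hl hbad
  obtain ⟨C, hC, hblock⟩ := block hx hF hA hθ1 hδρ hδθ hl hbad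
  obtain ⟨n₀, hn₀⟩ := eventually_atTop.1 hblock
  have hδ1 : 0 < 1 - δ := by linarith
  have hq : 1 < (2 : ℝ) ^ (1 - δ) := Real.one_lt_rpow one_lt_two hδ1
  set I : ℝ → ℂ := fun T => ∑ i ∈ fs x 0 T, F i * ((dif l (x i) : ℝ) : ℂ) with hI
  set K : ℝ := ‖I (2 ^ n₀)‖ + C / ((2 : ℝ) ^ (1 - δ) - 1) with hK
  have hq0 : 0 < (2 : ℝ) ^ (1 - δ) - 1 := by linarith
  have hK0 : 0 ≤ K := by positivity
  have hKC : K + C ≤ K * (2 : ℝ) ^ (1 - δ) := by
    have e1 : C / ((2 : ℝ) ^ (1 - δ) - 1) * ((2 : ℝ) ^ (1 - δ) - 1) = C := div_mul_cancel₀ _ hq0.ne'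
    have e2 : C / ((2 : ℝ) ^ (1 - δ) - 1) ≤ K := by
      rw [hK]
      linarith [norm_nonneg (I (2 ^ n₀))]
    have e3 := mul_le_mul_of_nonneg_right e2 hq0.le
    rw [e1] at e3
    linarith
  have hstep : ∀ n, n₀ ≤ n → ‖I (2 ^ n)‖ ≤ K * ((2 : ℝ) ^ n) ^ (1 - δ) := by
    intro n hn
    induction n, hn using Nat.le_induction with
    | base =>
      have e4 : 1 ≤ ((2 : ℝ) ^ n₀) ^ (1 - δ) := Real.one_le_rpow (one_le_pow₀ one_le_two) hδ1.le
      have e5 : ‖I (2 ^ n₀)‖ ≤ K := by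
        rw [hK]
        have : 0 ≤ C / ((2 : ℝ) ^ (1 - δ) - 1) := by positivity
        linarith
      nlinarith
    | succ n hn ih =>
      have e6 : I (2 ^ (n + 1)) = I (2 ^ n) +
          ∑ i ∈ fs x (2 ^ n) (2 ^ (n + 1)), F i * ((dif l (x i) : ℝ) : ℂ) :=
        hx.split (by positivity) (pow_le_pow_right₀ one_le_two (Nat.le_succ n)) _
      have e7 := hn₀ n hn (2 ^ (n + 1)) (pow_le_pow_right₀ one_le_two (Nat.le_succ n))
        (by rw [pow_succ]; linarith)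
      rw [e6]
      refine (norm_add_le _ _).trans ?_
      have e8 : ((2 : ℝ) ^ (n + 1)) ^ (1 - δ) = ((2 : ℝ) ^ n) ^ (1 - δ) * (2 : ℝ) ^ (1 - δ) := by
        rw [pow_succ, Real.mul_rpow (by positivity) (by norm_num)]
      rw [e8]
      have e9 : 0 ≤ ((2 : ℝ) ^ n) ^ (1 - δ) := by positivity
      have e10 := mul_le_mul_of_nonneg_right hKC e9
      linarith
  set B : ℝ := ∑ i ∈ fs x 0 (2 ^ n₀), ‖F i * ((dif l (x i) : ℝ) : ℂ)‖ with hB
  have hB0 : 0 ≤ B := Finset.sum_nonneg fun t _ => norm_nonneg _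
  refine ⟨K + C + B, fun T hT => ?_⟩
  have hT1 : 1 ≤ T ^ (1 - δ) := Real.one_le_rpow hT hδ1.le
  rcases le_total (2 ^ n₀) T with hc | hc
  · -- find the block
    obtain ⟨n, hn1, hn2⟩ := exists_nat_pow_near hT one_lt_two
    have hn : n₀ ≤ n := by
      by_contra hcon
      have : n + 1 ≤ n₀ := by omega
      have := pow_le_pow_right₀ (one_le_two (α := ℝ)) this
      linarith
    have e11 : I T = I (2 ^ n) + ∑ i ∈ fs x (2 ^ n) T, F i * ((dif l (x i) : ℝ) : ℂ) :=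
      hx.split (by positivity) hn1 _
    have e12 := hn₀ n hn T hn1 (by rw [pow_succ] at hn2; linarith)
    have e13 := hstep n hn
    change ‖I T‖ ≤ _
    rw [e11]
    refine (norm_add_le _ _).trans ?_
    have e14 : ((2 : ℝ) ^ n) ^ (1 - δ) ≤ T ^ (1 - δ) := by gcongr
    have e15 : (K + C) * ((2 : ℝ) ^ n) ^ (1 - δ) ≤ (K + C) * T ^ (1 - δ) := by gcongr
    have e16 : 0 ≤ B * T ^ (1 - δ) := by positivity
    linarith
  · have e17 : ‖I T‖ ≤ B := by
      refine (norm_sum_le _ _).trans ?_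
      refine Finset.sum_le_sum_of_subset_of_nonneg ?_ fun i _ _ => norm_nonneg _
      intro i hi
      rw [hx.mem] at hi ⊢
      exact ⟨hi.1, hi.2.trans hc⟩
    change ‖I T‖ ≤ _
    have e18 : B ≤ B * T ^ (1 - δ) := le_mul_of_one_le_right hB0 hT1
    have e19 : 0 ≤ (K + C) * T ^ (1 - δ) := by positivity
    linarith

end Pool.Agent.Helper30K1.DS
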