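import Pool.Agent.Helper30K1.DS.Stm
import Pool.Agent.Helper30K1.GD.DIL1

set_option autoImplicit false

/-!
Project DS: mean square over one dilation, discrete version (helper48).
-/

namespace Pool.Agent.Helper30K1.DS

open Complex Filter Topology MeasureTheory Set
open Pool.Agent.Y969.GP (ff)
open Pool.Agent.N879.GD (D0 dif NN gp)

namespace Dil1

open Pool.Agent.Helper30K1.GD.Dil1

lemma enorm_sq (z : ℂ) : ‖z‖ₑ ^ 2 = ENNReal.ofReal (‖z‖ ^ 2) := by
  rw [← ofReal_norm, ENNReal.ofReal_pow (norm_nonneg _)]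

lemma continuous_DP {ι : Type} (x : ι → ℝ) (F : ι → ℂ) (S : Finset ι) : Continuous (DP x F S) := by
  unfold DP
  fun_prop

/-- the mean square of `DP` as a Lebesgue integral -/
lemma lint_DP {ι : Type} (x : ι → ℝ) (F : ι → ℂ) (S : Finset ι) {Y : ℝ} (hY : 0 ≤ Y) :
    ∫⁻ τ in Icc (-Y) Y, ‖DP x F S τ‖ₑ ^ 2 =
      ENNReal.ofReal (∫ τ in (-Y)..Y, ‖DP x F S τ‖ ^ 2) := by
  rw [intervalIntegral.integral_of_le (by linarith), ← integral_Icc_eq_integral_Ioc,
    ofReal_integral_eq_lintegral_ofReal]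
  · simp only [enorm_sq]
  · exact (((continuous_DP x F S).norm.pow 2).continuousOn).integrableOn_Icc
  · exact Eventually.of_forall fun τ => sq_nonneg _

end Dil1

open Dil1 Pool.Agent.Helper30K1.GD.Dil1

theorem t_DIL1 (h1 : S_MVT) (h2 : S_PLD) (h3 : Pool.Agent.N879.GD.S_LEW) (h4 : S_LAR) :
    S_DIL1 := by
  obtain ⟨C0, hC0, hM⟩ := h1
  obtain ⟨d, hd0, hd1, hL⟩ := h3
  obtain ⟨-, -, -, hff, -, -⟩ := Pool.Agent.N879.GD.t_CRU
  refine ⟨d / 4, by linarith, by linarith, ?_⟩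
  intro A hA
  have hA0 : 0 < A := by linarith
  have hAi : 0 < A⁻¹ := by positivity
  have hAi1 : A⁻¹ ≤ 1 := inv_le_one_of_one_le₀ hA
  obtain ⟨w, hw1, hw2, hw3, hw4, hw5⟩ := exists_bump hA
  obtain ⟨C1, T1, hC1, hT1, hB1⟩ := hL w hw1 hw2 hw3
  obtain ⟨C2, T2, hC2, hT2, hB2⟩ := h4 w hw1 hw2 hw3 (d / 8) (by positivity)
  refine ⟨16 * A * C0 * (C1 ^ 2 + C2 ^ 2), max T1 T2, by positivity, le_max_of_le_left hT1, ?_⟩
  intro ι x F S T K hT hx hF
  have hTT1 : T1 ≤ T := (le_max_left _ _).trans hT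
  have hTT2 : T2 ≤ T := (le_max_right _ _).trans hT
  have hT1' : 1 ≤ T := hT1.trans hTT1
  have hT0 : 0 < T := by linarith
  have hK : 0 ≤ K := by
    have := hF 0 ∅ (Finset.empty_subset _) (fun i hi => absurd hi (Finset.notMem_empty i))
    simpa using this
  have hsq : 0 ≤ sq F S := Finset.sum_nonneg fun i _ => sq_nonneg _
  have hxp : ∀ i ∈ S, 0 < x i := fun i hi => lt_of_lt_of_le hT0 (hx i hi).1
  -- the function `g`
  set g : ℝ → ℝ := fun u => w (u / T) * (ff u - D0 u) with hg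
  have hgc : Continuous g := by
    rw [hg, continuous_iff_continuousAt]
    intro u
    by_cases hu : 0 < u
    · exact (hw1.continuous.continuousAt.comp (by fun_prop)).mul
        (hff.continuousAt.sub (cont_D0 hu))
    · have h3 : (fun u => w (u / T) * (ff u - D0 u)) =ᶠ[𝓝 u] fun _ => 0 := by
        have h4 : ∀ᶠ v in 𝓝 u, v < T * (A⁻¹ / 2) := by
          apply Iio_mem_nhds
          have : 0 < T * (A⁻¹ / 2) := by positivity
          linarith
        filter_upwards [h4] with v hv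
        rw [hw5, zero_mul]
        rintro ⟨h5, -⟩
        rw [le_div_iff₀ hT0] at h5
        linarith
      exact continuousAt_const.congr h3.symm
  have hgs : ∀ t, t ∉ Icc (T * (A⁻¹ / 2)) (3 * A * T) → g t = 0 := by
    intro t ht
    simp only [hg]
    rw [hw5, zero_mul]
    rintro ⟨h5, h6⟩
    rw [le_div_iff₀ hT0] at h5
    rw [div_le_iff₀ hT0] at h6
    exact ht ⟨by linarith, h6⟩
  have key := h2 ι x F S g (T * (A⁻¹ / 2)) (3 * A * T) (by positivity) hgc hgs hxp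
  -- lower bound of the left side
  have hLHS : ENNReal.ofReal A⁻¹ * ∫⁻ l in Icc A⁻¹ A,
      ‖∑ i ∈ S, F i * ((ff (l * x i) - D0 (l * x i) : ℝ) : ℂ)‖ₑ ^ 2 ≤
      ∫⁻ θ in Ioi (0 : ℝ), ‖∑ i ∈ S, F i * ((g (θ * x i) : ℝ) : ℂ)‖ₑ ^ 2 *
        ENNReal.ofReal θ⁻¹ := by
    rw [← lintegral_const_mul' _ _ ENNReal.ofReal_ne_top]
    have hsub : Icc A⁻¹ A ⊆ Ioi (0 : ℝ) := fun l hl => lt_of_lt_of_le hAi hl.1
    refine le_trans ?_ (lintegral_mono_set hsub)
    refine setLIntegral_mono' measurableSet_Icc fun l hl => ?_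
    rw [mul_comm]
    have hl0 : 0 < l := hsub hl
    have e1 : ∑ i ∈ S, F i * ((g (l * x i) : ℝ) : ℂ) =
        ∑ i ∈ S, F i * ((ff (l * x i) - D0 (l * x i) : ℝ) : ℂ) := by
      refine Finset.sum_congr rfl fun i hi => ?_
      have hi1 := hx i hi
      simp only [hg]
      rw [hw4, one_mul]
      constructor
      · rw [le_div_iff₀ hT0]
        exact mul_le_mul hl.1 hi1.1 hT0.le hl0.le
      · rw [div_le_iff₀ hT0]
        calc l * x i ≤ A * (2 * T) := mul_le_mul hl.2 hi1.2 (hxp i hi).le hA0.le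
          _ = 2 * A * T := by ring
    rw [e1]
    gcongr
    exact hl.2
  -- upper bound of the right side
  set Y0 : ℝ := T ^ (1 + d) with hY0
  have hY0T : T ≤ Y0 := by
    rw [hY0]
    calc T = T ^ (1 : ℝ) := (Real.rpow_one T).symm
      _ ≤ T ^ (1 + d) := Real.rpow_le_rpow_of_exponent_le hT1' (by linarith)
  have hY01 : 1 ≤ Y0 := hT1'.trans hY0T
  have hY00 : 0 < Y0 := by linarith
  have hp2 : ∀ n : ℕ, (1 : ℝ) ≤ 2 ^ n := fun n => one_le_pow₀ (by norm_num)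
  set E : ℝ := T ^ (1 - d / 2) with hE
  have hE0 : 0 < E := Real.rpow_pos_of_pos hT0 _
  have hEeq : T ^ (1 - 2 * (d / 4)) = E := by
    rw [hE]
    congr 1
    ring
  set D : ℝ := 8 * C0 * (C1 ^ 2 + C2 ^ 2) * K * E * sq F S with hD
  have hD0 : 0 ≤ D := by positivity
  -- the blocks
  let s : ℕ → Set ℝ := fun n => Nat.casesOn n (Icc (-Y0) Y0)
    (fun m => {τ : ℝ | 2 ^ m * Y0 ≤ |τ|} ∩ Icc (-(2 ^ (m + 1) * Y0)) (2 ^ (m + 1) * Y0))
  -- bound of a block, given a bound of the Mellin transform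
  have hblock : ∀ (s' : Set ℝ) (Y M : ℝ), MeasurableSet s' → 1 ≤ Y → T ≤ Y → s' ⊆ Icc (-Y) Y → 0 ≤ M →
      (∀ τ ∈ s', ‖mel g τ‖ ≤ M) →
      ∫⁻ τ in s', ‖DP x F S τ‖ₑ ^ 2 * ‖mel g τ‖ₑ ^ 2 ≤
        ENNReal.ofReal (M ^ 2 * (C0 * K * (2 * Y) * sq F S)) := by
    intro s' Y M hs' hY hTY hsub hM0 hMb
    calc ∫⁻ τ in s', ‖DP x F S τ‖ₑ ^ 2 * ‖mel g τ‖ₑ ^ 2
        ≤ ∫⁻ τ in s', ENNReal.ofReal (M ^ 2) * ‖DP x F S τ‖ₑ ^ 2 := by
          refine setLIntegral_mono' hs' fun τ hτ => ?_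
          rw [mul_comm]
          gcongr
          rw [enorm_sq]
          exact ENNReal.ofReal_le_ofReal (pow_le_pow_left₀ (norm_nonneg _) (hMb τ hτ) 2)
      _ = ENNReal.ofReal (M ^ 2) * ∫⁻ τ in s', ‖DP x F S τ‖ₑ ^ 2 :=
          lintegral_const_mul' _ _ ENNReal.ofReal_ne_top
      _ ≤ ENNReal.ofReal (M ^ 2) * ∫⁻ τ in Icc (-Y) Y, ‖DP x F S τ‖ₑ ^ 2 := by
          gcongr
      _ = ENNReal.ofReal (M ^ 2) * ENNReal.ofReal (∫ τ in (-Y)..Y, ‖DP x F S τ‖ ^ 2) := by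
          rw [lint_DP x F S (by linarith)]
      _ ≤ ENNReal.ofReal (M ^ 2) * ENNReal.ofReal (C0 * K * (2 * Y) * sq F S) := by
          gcongr
          refine (hM ι x F S T Y K hT1' hY hx hF).trans ?_
          gcongr
          linarith
      _ = _ := by rw [← ENNReal.ofReal_mul (by positivity)]
  have hb : ∀ n : ℕ, ∫⁻ τ in s n, ‖DP x F S τ‖ₑ ^ 2 * ‖mel g τ‖ₑ ^ 2 ≤
      ENNReal.ofReal (D * (1 / 2) ^ n) := by
    intro n
    rcases n with _ | n
    · refine (hblock (Icc (-Y0) Y0) Y0 (C1 * T ^ (-d)) measurableSet_Icc hY01 hY0T subset_rfl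
        (by positivity) (fun τ _ => hB1 T τ hTT1)).trans (ENNReal.ofReal_le_ofReal ?_)
      have e1 : (T ^ (-d)) ^ 2 * Y0 = T ^ (1 - d) := by
        rw [hY0, ← Real.rpow_natCast, ← Real.rpow_mul hT0.le, ← Real.rpow_add hT0]
        congr 1
        push_cast
        ring
      have e2 : T ^ (1 - d) ≤ E := Real.rpow_le_rpow_of_exponent_le hT1' (by linarith)
      calc (C1 * T ^ (-d)) ^ 2 * (C0 * K * (2 * Y0) * sq F S)
          = 2 * C0 * C1 ^ 2 * K * ((T ^ (-d)) ^ 2 * Y0) * sq F S := by ring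
        _ = 2 * C0 * C1 ^ 2 * K * T ^ (1 - d) * sq F S := by rw [e1]
        _ ≤ 2 * C0 * C1 ^ 2 * K * E * sq F S := by gcongr
        _ ≤ D * (1 / 2) ^ 0 := by
            rw [pow_zero, mul_one, hD]
            gcongr
            · norm_num
            · nlinarith [sq_nonneg C2]
    · have hY : 2 ^ n * Y0 ≤ 2 ^ (n + 1) * Y0 := by
        gcongr
        · norm_num
        · omega
      have hY1 : Y0 ≤ 2 ^ n * Y0 := by
        have := hp2 n
        nlinarith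
      have hpp : (0 : ℝ) < 2 ^ n := by positivity
      refine (hblock _ (2 ^ (n + 1) * Y0) (C2 * T ^ (1 + d / 8) / (2 ^ n * Y0)) ?_ (by linarith)
        (by linarith) inter_subset_right (by positivity) ?_).trans (ENNReal.ofReal_le_ofReal ?_)
      · exact (measurableSet_le measurable_const measurable_norm).inter measurableSet_Icc
      · rintro τ ⟨hτ, -⟩
        have hτ' : 2 ^ n * Y0 ≤ |τ| := hτ
        refine (hB2 T τ hTT2 (by linarith)).trans ?_
        gcongr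
      · have e1 : T ^ (1 + d / 8) * T ^ (1 + d / 8) = T ^ (1 - 3 * d / 4) * Y0 := by
          rw [hY0, ← Real.rpow_add hT0, ← Real.rpow_add hT0]
          congr 1
          ring
        have e2 : T ^ (1 - 3 * d / 4) ≤ E := Real.rpow_le_rpow_of_exponent_le hT1' (by linarith)
        calc (C2 * T ^ (1 + d / 8) / (2 ^ n * Y0)) ^ 2 * (C0 * K * (2 * (2 ^ (n + 1) * Y0)) * sq F S)
            = 4 * C0 * C2 ^ 2 * K * (T ^ (1 + d / 8) * T ^ (1 + d / 8)) / Y0 / 2 ^ n * sq F S := by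
              field_simp
              ring
          _ = 4 * C0 * C2 ^ 2 * K * T ^ (1 - 3 * d / 4) / 2 ^ n * sq F S := by
              rw [e1]
              field_simp
          _ ≤ 4 * C0 * C2 ^ 2 * K * E / 2 ^ n * sq F S := by gcongr
          _ = 8 * C0 * C2 ^ 2 * K * E * sq F S * (1 / 2) ^ (n + 1) := by
              rw [pow_succ, one_div, inv_pow]
              field_simp
              ring
          _ ≤ D * (1 / 2) ^ (n + 1) := by
              rw [hD]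
              gcongr
              nlinarith [sq_nonneg C1]
  have hcov : (⋃ n, s n) = univ := by
    rw [eq_univ_iff_forall]
    intro τ
    rw [mem_iUnion]
    by_cases h0 : |τ| ≤ Y0
    · exact ⟨0, abs_le.1 h0⟩
    · push Not at h0
      have hex : ∃ n : ℕ, |τ| ≤ 2 ^ n * Y0 := by
        obtain ⟨n, hn⟩ := pow_unbounded_of_one_lt |τ| (one_lt_two : (1 : ℝ) < 2)
        refine ⟨n, hn.le.trans ?_⟩
        have := hp2 n
        nlinarith
      classical
      have hN := Nat.find_spec hex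
      obtain ⟨m, hm⟩ : ∃ m, Nat.find hex = m + 1 := by
        rcases hc : Nat.find hex with _ | m
        · rw [hc, pow_zero, one_mul] at hN
          linarith
        · exact ⟨m, rfl⟩
      refine ⟨m + 1, ?_, ?_⟩
      · have := Nat.find_min hex (show m < Nat.find hex by omega)
        push Not at this
        exact this.le
      · rw [hm] at hN
        exact abs_le.1 hN
  have hRHS : ∫⁻ τ : ℝ, ‖DP x F S τ‖ₑ ^ 2 * ‖mel g τ‖ₑ ^ 2 ≤ ENNReal.ofReal (D * 2) := by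
    calc ∫⁻ τ : ℝ, ‖DP x F S τ‖ₑ ^ 2 * ‖mel g τ‖ₑ ^ 2
        = ∫⁻ τ in ⋃ n, s n, ‖DP x F S τ‖ₑ ^ 2 * ‖mel g τ‖ₑ ^ 2 := by
          rw [hcov, Measure.restrict_univ]
      _ ≤ ∑' n, ∫⁻ τ in s n, ‖DP x F S τ‖ₑ ^ 2 * ‖mel g τ‖ₑ ^ 2 := lintegral_iUnion_le _ _
      _ ≤ ∑' n, ENNReal.ofReal (D * (1 / 2) ^ n) := ENNReal.tsum_le_tsum hb
      _ = ENNReal.ofReal (∑' n : ℕ, D * (1 / 2) ^ n) := by
          rw [ENNReal.ofReal_tsum_of_nonneg (fun n => by positivity)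
            (summable_geometric_two.mul_left D)]
      _ = ENNReal.ofReal (D * 2) := by rw [tsum_mul_left, tsum_geometric_two]
  have h7 := hLHS.trans (key.trans hRHS)
  have h8 : ∫⁻ l in Icc A⁻¹ A,
      ‖∑ i ∈ S, F i * ((ff (l * x i) - D0 (l * x i) : ℝ) : ℂ)‖ₑ ^ 2 =
      ENNReal.ofReal A * (ENNReal.ofReal A⁻¹ * ∫⁻ l in Icc A⁻¹ A,
      ‖∑ i ∈ S, F i * ((ff (l * x i) - D0 (l * x i) : ℝ) : ℂ)‖ₑ ^ 2) := by
    rw [← mul_assoc, ← ENNReal.ofReal_mul hA0.le, mul_inv_cancel₀ hA0.ne', ENNReal.ofReal_one,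
      one_mul]
  rw [h8]
  refine (mul_le_mul_right h7 _).trans (le_of_eq ?_)
  rw [← ENNReal.ofReal_mul hA0.le, hEeq, hD]
  congr 1
  ring

end Pool.Agent.Helper30K1.DS
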