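import Pool.Agent.Helper30K1.DS.Stm
import Pool.Agent.Helper30K1.GD.DILK

set_option autoImplicit false

/-!
Project DS, piece DILK: several dilations.
-/

namespace Pool.Agent.Helper30K1.DS

open Complex Filter Topology MeasureTheory Set
open Pool.Agent.Y969.GP (ff)
open Pool.Agent.N879.GD (D0 dif S_M4 S_CRU)
open Pool.Agent.Helper30K1.GD.Dilk (nu muk muk_eq lint_succ meas_D0 k_mom D0_bd dif_cons sq_add_le ae_nu nu_univ)

namespace Dilk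

section
variable {ι : Type} {k : ℕ}

lemma ofReal_sq (F : ι → ℂ) (S : Finset ι) : ENNReal.ofReal (sq F S) = ∑ i ∈ S, ‖F i‖ₑ ^ 2 := by
  unfold sq
  rw [ENNReal.ofReal_sum_of_nonneg fun i _ => sq_nonneg _]
  refine Finset.sum_congr rfl fun i _ => ?_
  rw [← ofReal_norm, ← ENNReal.ofReal_pow (norm_nonneg _)]

lemma few_nonneg {x : ι → ℝ} {S : Finset ι} {K : ℝ} (h : Few x S K) : 0 ≤ K := by
  have := h 0 ∅ (Finset.empty_subset _) (fun i hi => absurd hi (Finset.notMem_empty i))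
  simpa using this

/-- first part -/
noncomputable def I1 (x : ι → ℝ) (F : ι → ℂ) (S : Finset ι) (p : ℝ × (Fin k → ℝ)) : ℂ :=
  ∑ i ∈ S, (F i * ((∏ j, ff (p.2 j * x i) : ℝ) : ℂ)) * ((ff (p.1 * x i) - D0 (p.1 * x i) : ℝ) : ℂ)

/-- second part -/
noncomputable def I2 (x : ι → ℝ) (F : ι → ℂ) (S : Finset ι) (p : ℝ × (Fin k → ℝ)) : ℂ :=
  ∑ i ∈ S, (F i * ((D0 (p.1 * x i) : ℝ) : ℂ)) * ((dif p.2 (x i) : ℝ) : ℂ)

lemma split (x : ι → ℝ) (F : ι → ℂ) (S : Finset ι) (p : ℝ × (Fin k → ℝ)) :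
    ∑ i ∈ S, F i * ((dif (Fin.cons p.1 p.2 : Fin (k + 1) → ℝ) (x i) : ℝ) : ℂ) =
      I1 x F S p + I2 x F S p := by
  unfold I1 I2
  rw [← Finset.sum_add_distrib]
  refine Finset.sum_congr rfl fun i _ => ?_
  rw [dif_cons]
  push_cast
  ring

lemma meas_P (hC : Continuous ff) (t : ℝ) : Measurable fun y : Fin k → ℝ => ∏ j, ff (y j * t) := by
  apply Finset.measurable_prod
  intro j _
  have hj : Measurable fun a : Fin k → ℝ => a j := measurable_pi_apply j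
  exact hC.measurable.comp (hj.mul_const t)

lemma meas_I1 (hC : Continuous ff) (x : ι → ℝ) (F : ι → ℂ) (S : Finset ι) :
    Measurable (I1 (k := k) x F S) := by
  unfold I1
  apply Finset.measurable_sum
  intro i _
  have a3 : Measurable fun p : ℝ × (Fin k → ℝ) => ∏ j, ff (p.2 j * x i) :=
    (meas_P hC (x i)).comp measurable_snd
  have a4 : Measurable fun p : ℝ × (Fin k → ℝ) => p.1 * x i := measurable_fst.mul_const _
  have a5 : Measurable fun p : ℝ × (Fin k → ℝ) => ff (p.1 * x i) - D0 (p.1 * x i) :=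
    (hC.measurable.comp a4).sub (meas_D0.comp a4)
  exact ((Complex.measurable_ofReal.comp a3).const_mul (F i)).mul (Complex.measurable_ofReal.comp a5)

/-- the first part -/
lemma bd_I1 (hC : Continuous ff) {A : ℝ} {T : ℝ} {x : ι → ℝ} {F : ι → ℂ} {S : Finset ι}
    (hT : 1 ≤ T) (hx : ∀ i ∈ S, T ≤ x i ∧ x i ≤ 2 * T) {c CR ε : ℝ} (hCR : 0 < CR) (hε : 0 < ε)
    (h1 : ∀ G : ι → ℂ,
      ∫⁻ l in Icc A⁻¹ A, ‖∑ i ∈ S, G i * ((ff (l * x i) - D0 (l * x i) : ℝ) : ℂ)‖ₑ ^ 2 ≤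
      ENNReal.ofReal c * ∑ i ∈ S, ‖G i‖ₑ ^ 2)
    (h2 : ∀ t : ℝ, 1 ≤ t →
      ∫⁻ y, ‖((∏ j, ff (y j * t) : ℝ) : ℂ)‖ₑ ^ 2 ∂(muk k A) ≤ ENNReal.ofReal (CR * t ^ ε)) :
    ∫⁻ p, ‖I1 (k := k) x F S p‖ₑ ^ 2 ∂((nu A).prod (muk k A)) ≤
      ENNReal.ofReal c * (ENNReal.ofReal (CR * (2 * T) ^ ε) * ∑ i ∈ S, ‖F i‖ₑ ^ 2) := by
  have m0 : Measurable fun p => ‖I1 (k := k) x F S p‖ₑ ^ 2 := (meas_I1 hC x F S).enorm.pow_const 2
  rw [lintegral_prod_symm' _ m0]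
  have s1 : ∀ y : Fin k → ℝ, ∫⁻ l, ‖I1 (k := k) x F S (l, y)‖ₑ ^ 2 ∂(nu A) ≤
      ENNReal.ofReal c * ∑ i ∈ S, ‖F i * ((∏ j, ff (y j * x i) : ℝ) : ℂ)‖ₑ ^ 2 := by
    intro y
    have := h1 (fun i => F i * ((∏ j, ff (y j * x i) : ℝ) : ℂ))
    unfold I1 nu
    exact this
  refine (lintegral_mono s1).trans ?_
  rw [lintegral_const_mul' _ _ ENNReal.ofReal_ne_top]
  refine mul_le_mul' le_rfl ?_
  have m2 : ∀ i ∈ S, Measurable fun y : Fin k → ℝ => ‖F i * ((∏ j, ff (y j * x i) : ℝ) : ℂ)‖ₑ ^ 2 := by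
    intro i _
    exact ((Complex.measurable_ofReal.comp (meas_P hC (x i))).const_mul (F i)).enorm.pow_const 2
  rw [lintegral_finsetSum _ m2, Finset.mul_sum]
  refine Finset.sum_le_sum fun i hi => ?_
  have ht1 : 1 ≤ x i := hT.trans (hx i hi).1
  have e : ∀ y : Fin k → ℝ, ‖F i * ((∏ j, ff (y j * x i) : ℝ) : ℂ)‖ₑ ^ 2 =
      ‖F i‖ₑ ^ 2 * ‖((∏ j, ff (y j * x i) : ℝ) : ℂ)‖ₑ ^ 2 := by
    intro y; rw [enorm_mul, mul_pow]
  simp_rw [e]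
  rw [lintegral_const_mul' _ _ (ENNReal.pow_ne_top enorm_ne_top), mul_comm]
  refine mul_le_mul' ((h2 _ ht1).trans (ENNReal.ofReal_le_ofReal ?_)) le_rfl
  exact mul_le_mul_of_nonneg_left (Real.rpow_le_rpow (by linarith) (hx i hi).2 hε.le) hCR.le

/-- the second part -/
lemma bd_I2 {A : ℝ} (hA : 1 ≤ A) {T : ℝ} {x : ι → ℝ} {F : ι → ℂ} {S : Finset ι}
    (hx : ∀ i ∈ S, T ≤ x i ∧ x i ≤ 2 * T) {c CD : ℝ}
    (h1 : ∀ G : ι → ℂ,
      ∫⁻ y, ‖∑ i ∈ S, G i * ((dif y (x i) : ℝ) : ℂ)‖ₑ ^ 2 ∂(muk k A) ≤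
      ENNReal.ofReal c * ∑ i ∈ S, ‖G i‖ₑ ^ 2)
    (h2 : ∀ t l : ℝ, t ∈ Icc T (2 * T) → l ∈ Icc A⁻¹ A → |D0 (l * t)| ≤ CD) :
    ∫⁻ p, ‖I2 (k := k) x F S p‖ₑ ^ 2 ∂((nu A).prod (muk k A)) ≤
      ENNReal.ofReal A * (ENNReal.ofReal c * (ENNReal.ofReal (CD ^ 2) * ∑ i ∈ S, ‖F i‖ₑ ^ 2)) := by
  refine (lintegral_prod_le _).trans ?_
  have s1 : ∀ᵐ l ∂(nu A), ∫⁻ y, ‖I2 (k := k) x F S (l, y)‖ₑ ^ 2 ∂(muk k A) ≤
      ENNReal.ofReal c * (ENNReal.ofReal (CD ^ 2) * ∑ i ∈ S, ‖F i‖ₑ ^ 2) := by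
    filter_upwards [ae_nu] with l hl
    refine (h1 (fun i => F i * ((D0 (l * x i) : ℝ) : ℂ))).trans (mul_le_mul' le_rfl ?_)
    rw [Finset.mul_sum]
    refine Finset.sum_le_sum fun i hi => ?_
    rw [enorm_mul, mul_pow, mul_comm]
    refine mul_le_mul' ?_ le_rfl
    rw [← ofReal_norm, ← ENNReal.ofReal_pow (norm_nonneg _), Complex.norm_real, Real.norm_eq_abs]
    apply ENNReal.ofReal_le_ofReal
    exact pow_le_pow_left₀ (abs_nonneg _) (h2 (x i) l ⟨(hx i hi).1, (hx i hi).2⟩ hl) 2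
  refine (lintegral_mono_ae s1).trans ?_
  rw [lintegral_const, mul_comm]
  exact mul_le_mul' (nu_univ hA) le_rfl

end

/-- the induction -/
lemma main (hC : Continuous ff) (hM : S_M4) {δ : ℝ} (hδ : P_DIL1 δ) (k : ℕ) :
    ∀ δ' : ℝ, 0 < δ' → δ' < δ → ∀ A : ℝ, 1 ≤ A → ∃ C T₀ : ℝ, 0 < C ∧ 1 ≤ T₀ ∧
      ∀ (ι : Type) (x : ι → ℝ) (F : ι → ℂ) (S : Finset ι) (T K : ℝ), T₀ ≤ T →
      (∀ i ∈ S, T ≤ x i ∧ x i ≤ 2 * T) → Few x S K →
      ∫⁻ l, ‖∑ i ∈ S, F i * ((dif l (x i) : ℝ) : ℂ)‖ₑ ^ 2 ∂(muk k A) ≤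
        ENNReal.ofReal (C * K * T ^ (1 - 2 * δ')) * ∑ i ∈ S, ‖F i‖ₑ ^ 2 := by
  induction k with
  | zero =>
    intro δ' _ _ A _
    refine ⟨1, 1, one_pos, le_rfl, fun ι x F S T K _ _ _ => ?_⟩
    have : ∀ (l : Fin 0 → ℝ) (t : ℝ), dif l t = 0 := by
      intro l t
      simp [dif]
    simp [this]
  | succ k ih =>
    intro δ' h0 hlt A hA
    obtain ⟨C1, T1, hC1, hT1, h1⟩ := hδ A hA
    obtain ⟨C2, T2, hC2, hT2, h2⟩ := ih ((δ + δ') / 2) (by linarith) (by linarith) A hA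
    obtain ⟨CR, hCR, hR⟩ := k_mom hC hM hA k (ε := 2 * (δ - δ')) (by linarith)
    obtain ⟨CD, hCD, hD⟩ := D0_bd hA (ε := (δ - δ') / 2) (by linarith)
    have hA0 : 0 < A := by linarith
    refine ⟨2 * (C1 * (CR * 2 ^ (2 * (δ - δ')))) + 2 * (A * (C2 * CD ^ 2)), max T1 T2, by positivity,
      le_max_of_le_left hT1, ?_⟩
    intro ι x F S T K hT hx hK
    have hK0 := few_nonneg hK
    have hTT1 : T1 ≤ T := (le_max_left _ _).trans hT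
    have hTT2 : T2 ≤ T := (le_max_right _ _).trans hT
    have hT1' : 1 ≤ T := hT1.trans hTT1
    have hT0 : 0 < T := by linarith
    rw [lint_succ]
    have s0 : ∀ p : ℝ × (Fin k → ℝ),
        ‖∑ i ∈ S, F i * ((dif (Fin.cons p.1 p.2 : Fin (k + 1) → ℝ) (x i) : ℝ) : ℂ)‖ₑ ^ 2 ≤
        2 * ‖I1 (k := k) x F S p‖ₑ ^ 2 + 2 * ‖I2 (k := k) x F S p‖ₑ ^ 2 := by
      intro p
      rw [split]
      exact sq_add_le _ _
    refine (lintegral_mono s0).trans ?_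
    have m1 : Measurable fun p => 2 * ‖I1 (k := k) x F S p‖ₑ ^ 2 :=
      ((meas_I1 hC x F S).enorm.pow_const 2).const_mul 2
    rw [lintegral_add_left m1, lintegral_const_mul' _ _ (by norm_num),
      lintegral_const_mul' _ _ (by norm_num)]
    have b1 := bd_I1 (k := k) hC (A := A) (T := T) (x := x) (F := F) (S := S) hT1' hx
      (c := C1 * K * T ^ (1 - 2 * δ)) hCR (by linarith)
      (fun G => by
        have := h1 ι x G S T K hTT1 hx hK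
        rwa [ENNReal.ofReal_mul (by positivity), ofReal_sq] at this) hR
    have b2 := bd_I2 (k := k) hA (T := T) (x := x) (F := F) (S := S) hx
      (c := C2 * K * T ^ (1 - 2 * ((δ + δ') / 2))) (CD := CD * T ^ ((δ - δ') / 2))
      (fun G => h2 ι x G S T K hTT2 hx hK) (fun t l ht hl => hD T t l hT1' ht hl)
    set Q := ∑ i ∈ S, ‖F i‖ₑ ^ 2 with hQ
    have g1 : (2 : ENNReal) * (ENNReal.ofReal (C1 * K * T ^ (1 - 2 * δ)) *
        (ENNReal.ofReal (CR * (2 * T) ^ (2 * (δ - δ'))) * Q)) =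
        ENNReal.ofReal (2 * (C1 * (CR * 2 ^ (2 * (δ - δ')))) * K * T ^ (1 - 2 * δ')) * Q := by
      have e2 : (2 : ENNReal) = ENNReal.ofReal 2 := by norm_num
      rw [e2, ← mul_assoc, ← mul_assoc, ← ENNReal.ofReal_mul (by norm_num),
        ← ENNReal.ofReal_mul (by positivity)]
      congr 2
      rw [Real.mul_rpow (by norm_num) hT0.le]
      have : T ^ (1 - 2 * δ') = T ^ (1 - 2 * δ) * T ^ (2 * (δ - δ')) := by
        rw [← Real.rpow_add hT0]; congr 1; ring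
      rw [this]; ring
    have g2 : (2 : ENNReal) * (ENNReal.ofReal A * (ENNReal.ofReal (C2 * K * T ^ (1 - 2 * ((δ + δ') / 2))) *
        (ENNReal.ofReal ((CD * T ^ ((δ - δ') / 2)) ^ 2) * Q))) =
        ENNReal.ofReal (2 * (A * (C2 * CD ^ 2)) * K * T ^ (1 - 2 * δ')) * Q := by
      have e2 : (2 : ENNReal) = ENNReal.ofReal 2 := by norm_num
      rw [e2, ← mul_assoc, ← mul_assoc, ← mul_assoc, ← ENNReal.ofReal_mul (by norm_num),
        ← ENNReal.ofReal_mul (by positivity), ← ENNReal.ofReal_mul (by positivity)]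
      congr 2
      have : T ^ (1 - 2 * δ') = T ^ (1 - 2 * ((δ + δ') / 2)) * (T ^ ((δ - δ') / 2) * T ^ ((δ - δ') / 2)) := by
        rw [← Real.rpow_add hT0, ← Real.rpow_add hT0]; congr 1; ring
      rw [this]; ring
    refine (add_le_add (mul_le_mul' le_rfl b1) (mul_le_mul' le_rfl b2)).trans (le_of_eq ?_)
    rw [g1, g2, ← add_mul, ← ENNReal.ofReal_add (by positivity) (by positivity)]
    congr 2
    ring

end Dilk

theorem t_DILK' (h1 : S_CRU) (h2 : S_M4) : S_DILK := by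
  intro δ δ' h0 hlt _ hδ k A hA
  obtain ⟨C, N, hC0, hC, _⟩ := h1
  obtain ⟨C', T₀, a, b, c⟩ := Dilk.main hC h2 hδ k δ' h0 hlt A hA
  refine ⟨C', T₀, a, b, fun ι x F S T K hT hx hK => ?_⟩
  have hK0 := Dilk.few_nonneg hK
  have hT0 : 0 < T := by linarith
  rw [muk_eq, ENNReal.ofReal_mul (by positivity), Dilk.ofReal_sq]
  exact c ι x F S T K hT hx hK

theorem t_DILK : S_DILK := t_DILK' Pool.Agent.N879.GD.t_CRU Pool.Agent.N879.GD.t_M4'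

end Pool.Agent.Helper30K1.DS
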