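import Pool.Agent.Helper30K1.DS.Stm

set_option autoImplicit false

/-!
# DZ: the mean square of the derivative of zeta on the critical line
-/

namespace Pool.Agent.Helper30K1.DS

open Complex Filter Topology MeasureTheory Set

noncomputable section

/-- Cauchy-Schwarz against the constant function -/
theorem sq_int_le {g : ℝ → ℝ} (hg : Continuous g) :
    (∫ a in (0 : ℝ)..(2 * Real.pi), g a) ^ 2 ≤
      2 * Real.pi * ∫ a in (0 : ℝ)..(2 * Real.pi), g a ^ 2 := by
  set L : ℝ := 2 * Real.pi with hL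
  have hL0 : 0 < L := by positivity
  set m : ℝ := ∫ a in (0 : ℝ)..L, g a with hm
  have h0 : 0 ≤ ∫ a in (0 : ℝ)..L, (L * g a - m) ^ 2 :=
    intervalIntegral.integral_nonneg hL0.le fun a _ => sq_nonneg _
  have i1 : IntervalIntegrable (fun a => L ^ 2 * g a ^ 2) volume 0 L :=
    (by fun_prop : Continuous fun a => L ^ 2 * g a ^ 2).intervalIntegrable _ _
  have i2 : IntervalIntegrable (fun a => 2 * L * m * g a) volume 0 L :=
    (by fun_prop : Continuous fun a => 2 * L * m * g a).intervalIntegrable _ _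
  have h1 : ∫ a in (0 : ℝ)..L, (L * g a - m) ^ 2 =
      L ^ 2 * (∫ a in (0 : ℝ)..L, g a ^ 2) - 2 * L * m * m + L * m ^ 2 := by
    have e : (fun a => (L * g a - m) ^ 2) =
        fun a => L ^ 2 * g a ^ 2 - 2 * L * m * g a + m ^ 2 := by
      funext a
      ring
    rw [e, intervalIntegral.integral_add (i1.sub i2) intervalIntegrable_const,
      intervalIntegral.integral_sub i1 i2, intervalIntegral.integral_const_mul,
      intervalIntegral.integral_const_mul, intervalIntegral.integral_const, ← hm, smul_eq_mul]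
    ring
  rw [h1] at h0
  have h2 : 0 ≤ L * (L * (∫ a in (0 : ℝ)..L, g a ^ 2) - m ^ 2) := by nlinarith
  have h3 := nonneg_of_mul_nonneg_right h2 hL0
  linarith

/-- Cauchy's inequality in mean square -/
theorem cauchy_sq {f : ℂ → ℂ} {c : ℂ} {r : ℝ} (hr : 0 < r)
    (hf : DifferentiableOn ℂ f (Metric.closedBall c r)) (hc : Continuous fun a : ℝ => f (circleMap c r a)) :
    ‖deriv f c‖ ^ 2 ≤ (2 * Real.pi * r ^ 2)⁻¹ *
      ∫ a in (0 : ℝ)..(2 * Real.pi), ‖f (circleMap c r a)‖ ^ 2 := by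
  have hpi := Real.pi_pos
  have h2 := hf.deriv_eq_smul_circleIntegral hr
  have h3 : ‖deriv f c‖ ≤ (2 * Real.pi * r)⁻¹ *
      ∫ a in (0 : ℝ)..(2 * Real.pi), ‖f (circleMap c r a)‖ := by
    have h4 : ‖∮ z in C(c, r), (1 / (z - c) ^ 2) • f z‖ ≤
        ∫ a in (0 : ℝ)..(2 * Real.pi), r⁻¹ * ‖f (circleMap c r a)‖ := by
      rw [circleIntegral]
      refine (intervalIntegral.norm_integral_le_integral_norm (by positivity)).trans (le_of_eq ?_)
      refine intervalIntegral.integral_congr fun a _ => ?_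
      simp only [deriv_circleMap, norm_smul, norm_mul, circleMap_sub_center, norm_circleMap_zero,
        norm_I, norm_div, norm_pow, norm_one, abs_of_pos hr]
      field_simp
    rw [intervalIntegral.integral_const_mul, h2, norm_smul] at h4
    have h5 : ‖(2 * Real.pi * I : ℂ)‖ = 2 * Real.pi := by
      rw [norm_mul, norm_mul, norm_I, mul_one, Complex.norm_ofNat, Complex.norm_real,
        Real.norm_of_nonneg hpi.le]
    rw [h5] at h4
    have h6 : 0 < 2 * Real.pi := by positivity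
    rw [mul_inv, mul_assoc, ← div_eq_inv_mul, le_div_iff₀ h6]
    linarith
  have h6 := sq_int_le hc.norm
  calc ‖deriv f c‖ ^ 2 ≤ ((2 * Real.pi * r)⁻¹ *
        ∫ a in (0 : ℝ)..(2 * Real.pi), ‖f (circleMap c r a)‖) ^ 2 := by gcongr
    _ = ((2 * Real.pi * r)⁻¹) ^ 2 * (∫ a in (0 : ℝ)..(2 * Real.pi), ‖f (circleMap c r a)‖) ^ 2 := by
      ring
    _ ≤ ((2 * Real.pi * r)⁻¹) ^ 2 * (2 * Real.pi *
        ∫ a in (0 : ℝ)..(2 * Real.pi), ‖f (circleMap c r a)‖ ^ 2) := by gcongr
    _ = _ := by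
      field_simp

theorem z_ne_one {r : ℝ} (hr : 0 < r) (hr8 : r < 1 / 8) (u a : ℝ) :
    circleMap (1 / 2 + I * u) r a ≠ 1 := by
  intro h
  have h1 := congrArg Complex.re h
  rw [circleMap] at h1
  have e : ((r : ℂ) * cexp (a * I)).re = r * Real.cos a := by
    rw [Complex.re_ofReal_mul, Complex.exp_ofReal_mul_I_re]
  simp only [Complex.add_re, Complex.one_re, e] at h1
  have e2 : ((1 : ℂ) / 2).re = 1 / 2 := by norm_num
  have e3 : (I * (u : ℂ)).re = 0 := by simp
  rw [e2, e3] at h1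
  nlinarith [Real.cos_le_one a]

theorem cont_GG {r : ℝ} (hr : 0 < r) (hr8 : r < 1 / 8) :
    Continuous fun p : ℝ × ℝ => riemannZeta (circleMap (1 / 2 + I * p.1) r p.2) := by
  rw [continuous_iff_continuousAt]
  intro p
  have h1 : ContinuousAt riemannZeta (circleMap (1 / 2 + I * p.1) r p.2) :=
    (differentiableAt_riemannZeta (z_ne_one hr hr8 p.1 p.2)).continuousAt
  have h2 : Continuous fun p : ℝ × ℝ => circleMap (1 / 2 + I * (p.1 : ℂ)) r p.2 := by
    unfold circleMap
    fun_prop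
  exact ContinuousAt.comp (f := fun p : ℝ × ℝ => circleMap (1 / 2 + I * (p.1 : ℂ)) r p.2)
    (g := riemannZeta) h1 h2.continuousAt

theorem cont_deriv : Continuous fun u : ℝ => deriv riemannZeta (1 / 2 + I * u) := by
  have h1 : DifferentiableOn ℂ riemannZeta {1}ᶜ := fun z hz =>
    (differentiableAt_riemannZeta hz).differentiableWithinAt
  have h2 := h1.deriv isOpen_compl_singleton
  have h3 : Continuous fun u : ℝ => (1 / 2 + I * u : ℂ) := by fun_prop
  refine h2.continuousOn.comp_continuous h3 fun u hu => ?_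
  have := congrArg Complex.re (show (1 / 2 + I * u : ℂ) = 1 from hu)
  simp at this

theorem inner_le {r C ε : ℝ} (hr : 0 < r) (hr8 : r < 1 / 8)
    (h : ∀ σ : ℝ, |σ - 1 / 2| ≤ r → ∀ T : ℝ, 1 ≤ T →
      ∫ v in (-T)..T, ‖riemannZeta ((σ : ℂ) + v * I)‖ ^ 2 ≤ C * T ^ (1 + ε)) (a T : ℝ) (hT : 1 ≤ T) :
    ∫ u in (0 : ℝ)..T, ‖riemannZeta (circleMap (1 / 2 + I * u) r a)‖ ^ 2 ≤
      C * 2 ^ (1 + ε) * T ^ (1 + ε) := by
  set σ : ℝ := 1 / 2 + r * Real.cos a with hσ
  set b : ℝ := r * Real.sin a with hb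
  have hσ1 : |σ - 1 / 2| ≤ r := by
    rw [hσ, add_sub_cancel_left, abs_mul, abs_of_pos hr]
    nlinarith [Real.abs_cos_le_one a]
  have hb1 : |b| ≤ 1 := by
    rw [hb, abs_mul, abs_of_pos hr]
    nlinarith [Real.abs_sin_le_one a, abs_nonneg (Real.sin a)]
  have e1 : ∀ u : ℝ, circleMap (1 / 2 + I * u) r a = (σ : ℂ) + ((u + b : ℝ) : ℂ) * I := by
    intro u
    rw [circleMap, Complex.exp_mul_I, hσ, hb]
    push_cast
    ring
  set g : ℝ → ℝ := fun v => ‖riemannZeta ((σ : ℂ) + v * I)‖ ^ 2 with hg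
  have hgc : Continuous g := by
    have h1 : Continuous fun v : ℝ => riemannZeta ((σ : ℂ) + v * I) := by
      rw [continuous_iff_continuousAt]
      intro v
      have hne : (σ : ℂ) + v * I ≠ 1 := by
        intro h
        have := congrArg Complex.re h
        simp at this
        have h2 := (abs_le.1 hσ1).2
        linarith
      have h2 : Continuous fun v : ℝ => ((σ : ℂ) + v * I) := by fun_prop
      exact ContinuousAt.comp (f := fun v : ℝ => ((σ : ℂ) + v * I)) (g := riemannZeta)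
        (differentiableAt_riemannZeta hne).continuousAt h2.continuousAt
    exact h1.norm.pow 2
  have e2 : ∫ u in (0 : ℝ)..T, ‖riemannZeta (circleMap (1 / 2 + I * u) r a)‖ ^ 2 =
      ∫ v in b..(T + b), g v := by
    have : ∫ u in (0 : ℝ)..T, g (u + b) = ∫ v in (0 + b)..(T + b), g v :=
      intervalIntegral.integral_comp_add_right g b
    rw [zero_add] at this
    rw [← this]
    refine intervalIntegral.integral_congr fun u _ => ?_
    simp only [hg]
    rw [e1 u]
  rw [e2]
  have h3 : ∫ v in b..(T + b), g v ≤ ∫ v in (-(2 * T))..(2 * T), g v := by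
    have hb2 := abs_le.1 hb1
    refine intervalIntegral.integral_mono_interval (by linarith) (by linarith) (by linarith) ?_
      (hgc.intervalIntegrable _ _)
    exact Filter.Eventually.of_forall fun v => sq_nonneg _
  have h4 := h σ hσ1 (2 * T) (by linarith)
  have h5 : (2 * T) ^ (1 + ε) = 2 ^ (1 + ε) * T ^ (1 + ε) :=
    Real.mul_rpow (by norm_num) (by linarith)
  rw [h5] at h4
  calc ∫ v in b..(T + b), g v ≤ _ := h3
    _ ≤ C * (2 ^ (1 + ε) * T ^ (1 + ε)) := h4
    _ = _ := by ring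

theorem t_DZ (h : S_OFF) : S_DZ := by
  intro ε hε
  obtain ⟨r, C, hr, hr8, hC, hb⟩ := h ε hε
  have hpi := Real.pi_pos
  refine ⟨(2 * Real.pi * r ^ 2)⁻¹ * (2 * Real.pi * (C * 2 ^ (1 + ε))), by positivity,
    fun T hT => ?_⟩
  set G : ℝ → ℝ → ℝ := fun u a => ‖riemannZeta (circleMap (1 / 2 + I * u) r a)‖ ^ 2 with hG
  have hGc : Continuous (Function.uncurry G) := (cont_GG hr hr8).norm.pow 2
  have hT0 : 0 ≤ T := by linarith
  have h1 : ∀ u : ℝ, ‖deriv riemannZeta (1 / 2 + I * u)‖ ^ 2 ≤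
      (2 * Real.pi * r ^ 2)⁻¹ * ∫ a in (0 : ℝ)..(2 * Real.pi), G u a := by
    intro u
    refine cauchy_sq hr (fun z hz => ?_) ?_
    · refine (differentiableAt_riemannZeta ?_).differentiableWithinAt
      intro h1
      rw [h1, Metric.mem_closedBall, Complex.dist_eq] at hz
      have h2 := (Complex.abs_re_le_norm _).trans hz
      have h3 := (abs_le.1 h2).2
      have e : (1 - (1 / 2 + I * (u : ℂ))).re = 1 / 2 := by
        simp
        norm_num
      rw [e] at h3
      linarith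
    · exact (cont_GG hr hr8).comp (by fun_prop : Continuous fun a : ℝ => (u, a))
  have h5 : ∀ a : ℝ, ∫ u in (0 : ℝ)..T, G u a ≤ C * 2 ^ (1 + ε) * T ^ (1 + ε) :=
    fun a => inner_le hr hr8 hb a T hT
  clear_value G
  have c1 : Continuous fun u : ℝ => ∫ a in (0 : ℝ)..(2 * Real.pi), G u a :=
    intervalIntegral.continuous_parametric_intervalIntegral_of_continuous' hGc _ _
  have h2 : ∫ u in (0 : ℝ)..T, ‖deriv riemannZeta (1 / 2 + I * u)‖ ^ 2 ≤
      ∫ u in (0 : ℝ)..T, (2 * Real.pi * r ^ 2)⁻¹ * ∫ a in (0 : ℝ)..(2 * Real.pi), G u a :=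
    intervalIntegral.integral_mono_on hT0 ((cont_deriv.norm.pow 2).intervalIntegrable _ _)
      ((c1.const_mul _).intervalIntegrable _ _) fun u _ => h1 u
  rw [intervalIntegral.integral_const_mul] at h2
  have h3 : ∫ u in (0 : ℝ)..T, ∫ a in (0 : ℝ)..(2 * Real.pi), G u a =
      ∫ a in (0 : ℝ)..(2 * Real.pi), ∫ u in (0 : ℝ)..T, G u a := by
    refine MeasureTheory.intervalIntegral_intervalIntegral_swap ?_
    have hK : IsCompact (uIcc (0 : ℝ) T ×ˢ uIcc (0 : ℝ) (2 * Real.pi)) :=
      isCompact_uIcc.prod isCompact_uIcc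
    exact (hGc.continuousOn.integrableOn_compact hK).mono_set
      (Set.prod_mono uIoc_subset_uIcc uIoc_subset_uIcc)
  rw [h3] at h2
  have c2 : Continuous fun a : ℝ => ∫ u in (0 : ℝ)..T, G u a := by
    have : Continuous (Function.uncurry fun a u => G u a) :=
      hGc.comp (continuous_snd.prodMk continuous_fst)
    exact intervalIntegral.continuous_parametric_intervalIntegral_of_continuous' this _ _
  generalize hK : C * 2 ^ (1 + ε) = K at *
  generalize hT' : T ^ (1 + ε) = T1 at *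
  have hL : (0 : ℝ) ≤ 2 * Real.pi := by positivity
  have h4 : ∫ a in (0 : ℝ)..(2 * Real.pi), (∫ u in (0 : ℝ)..T, G u a) ≤
      ∫ _ in (0 : ℝ)..(2 * Real.pi), (K * T1) := by
    refine intervalIntegral.integral_mono_on hL (c2.intervalIntegrable _ _)
      intervalIntegrable_const ?_
    intro a _
    exact h5 a
  rw [intervalIntegral.integral_const, smul_eq_mul, sub_zero] at h4
  have h6 : (2 * Real.pi * r ^ 2)⁻¹ * ∫ a in (0 : ℝ)..(2 * Real.pi), (∫ u in (0 : ℝ)..T, G u a) ≤
      (2 * Real.pi * r ^ 2)⁻¹ * (2 * Real.pi * (K * T1)) :=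
    mul_le_mul_of_nonneg_left h4 (by positivity)
  refine (h2.trans h6).trans (le_of_eq ?_)
  ring

end

end Pool.Agent.Helper30K1.DS
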