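import Pool.Agent.Helper30K1.DS.Stm
import Pool.Agent.N879.GD.M4b
import Pool.Agent.N879.GD.Cru

set_option autoImplicit false

/-!
# LAR: the Mellin transform for large frequencies
-/

namespace Pool.Agent.Helper30K1.DS

open Complex Filter Topology MeasureTheory Set
open Pool.Agent.Y969.GP (ff)
open Pool.Agent.N879.GD (D0 t_M4' Cru.hasDeriv Cru.line_ne)

noncomputable section

/-- the derivative of `ff` -/
def LAR_ffd (u : ℝ) : ℝ :=
  2 * inner ℝ (riemannZeta (1 / 2 + I * u)) (deriv riemannZeta (1 / 2 + I * u) * I)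

theorem LAR_ff (u : ℝ) : HasDerivAt ff (LAR_ffd u) u := (Cru.hasDeriv u).norm_sq

theorem LAR_ffd_le (u : ℝ) : |LAR_ffd u| ≤ ff u + ‖deriv riemannZeta (1 / 2 + I * u)‖ ^ 2 := by
  unfold LAR_ffd ff
  have h1 := abs_real_inner_le_norm (riemannZeta (1 / 2 + I * u))
    (deriv riemannZeta (1 / 2 + I * u) * I)
  rw [norm_mul, norm_I, mul_one] at h1
  rw [abs_mul, abs_two]
  nlinarith [sq_nonneg (‖riemannZeta (1 / 2 + I * u)‖ - ‖deriv riemannZeta (1 / 2 + I * u)‖)]

theorem LAR_line : Continuous fun u : ℝ => (1 / 2 + I * u : ℂ) := by fun_prop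

theorem LAR_dz : Continuous fun u : ℝ => deriv riemannZeta (1 / 2 + I * u) := by
  have h1 : DifferentiableOn ℂ riemannZeta {1}ᶜ := fun z hz =>
    (differentiableAt_riemannZeta hz).differentiableWithinAt
  have h2 : ContinuousOn (deriv riemannZeta) {1}ᶜ :=
    (h1.deriv isOpen_compl_singleton).continuousOn
  exact h2.comp_continuous LAR_line fun u => Cru.line_ne u

theorem LAR_z : Continuous fun u : ℝ => riemannZeta (1 / 2 + I * u) :=
  continuous_iff_continuousAt.2 fun u => (Cru.hasDeriv u).continuousAt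

theorem LAR_ffd_cont : Continuous LAR_ffd := by
  unfold LAR_ffd
  have h1 := LAR_z
  have h2 := LAR_dz
  exact continuous_const.mul (h1.inner (h2.mul continuous_const))

theorem LAR_ff_cont : Continuous ff :=
  continuous_iff_continuousAt.2 fun u => (LAR_ff u).continuousAt

theorem LAR_D0 {u : ℝ} (hu : 0 < u) : HasDerivAt D0 (1 / u) u := by
  unfold D0
  have hπ := Real.pi_pos
  have h1 : HasDerivAt (fun u : ℝ => u / (2 * Real.pi)) (1 / (2 * Real.pi)) u :=
    (hasDerivAt_id u).div_const _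
  have h2 := (h1.log (by positivity)).add_const (2 * Real.eulerMascheroniConstant)
  refine h2.congr_deriv ?_
  field_simp

theorem LAR_D0_le {u : ℝ} (hu : 0 < u) : |D0 u| ≤ u + 7 / u + 2 := by
  unfold D0
  have hπ := Real.pi_pos
  have hπ3 := Real.pi_gt_three
  have hπ4 : Real.pi < 3.15 := Real.pi_lt_d2
  have hγ1 := Real.eulerMascheroniConstant_lt_two_thirds
  have hγ2 := Real.one_half_lt_eulerMascheroniConstant
  have hx : 0 < u / (2 * Real.pi) := by positivity
  have h1 : Real.log (u / (2 * Real.pi)) ≤ u := by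
    have h2 := Real.log_le_sub_one_of_pos hx
    have h3 : u / (2 * Real.pi) ≤ u := by
      apply div_le_self hu.le
      linarith
    linarith
  have h2 : -Real.log (u / (2 * Real.pi)) ≤ 7 / u := by
    rw [← Real.log_inv]
    have h3 := Real.log_le_sub_one_of_pos (inv_pos.2 hx)
    have h4 : (u / (2 * Real.pi))⁻¹ ≤ 7 / u := by
      rw [inv_div]
      exact div_le_div_of_nonneg_right (by linarith) hu.le
    linarith
  have h7 : 0 < 7 / u := by positivity
  rw [abs_le]
  constructor <;> linarith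

/-- support of the weight -/
theorem LAR_supp (w : ℝ → ℝ) (hc : HasCompactSupport w) (hs : tsupport w ⊆ Ioi 0) :
    ∃ a b : ℝ, 0 < a ∧ a < b ∧ ∀ u, (u ≤ a ∨ b ≤ u) → w u = 0 := by
  by_cases hne : (tsupport w).Nonempty
  · obtain ⟨m, hm, hm2⟩ := hc.isCompact.exists_isLeast hne
    obtain ⟨M, hM, hM2⟩ := hc.isCompact.exists_isGreatest hne
    have hm0 : 0 < m := hs hm
    have hmM : m ≤ M := hm2 hM
    refine ⟨m / 2, M + 1, by positivity, by linarith, fun u hu => ?_⟩
    by_contra h0
    have h1 : u ∈ tsupport w := subset_tsupport w h0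
    have h2 := hm2 h1
    have h3 := hM2 h1
    rcases hu with hu | hu <;> linarith
  · refine ⟨1, 2, by norm_num, by norm_num, fun u _ => ?_⟩
    by_contra h0
    exact hne ⟨u, subset_tsupport w h0⟩

theorem t_LAR (h : S_DZ) : S_LAR := by
  intro w hw hc hs ε hε
  obtain ⟨a, b, ha, hab, hw0⟩ := LAR_supp w hc hs
  have hb : 0 < b := ha.trans hab
  obtain ⟨M1, hM1⟩ := hw.continuous.bounded_above_of_compact_support hc
  have hwd : Continuous (deriv w) := hw.continuous_deriv (by simp)
  obtain ⟨M2, hM2⟩ := hwd.bounded_above_of_compact_support hc.deriv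
  obtain ⟨C4, hC4, h4⟩ := t_M4' ε hε
  obtain ⟨CD, hCD, hD⟩ := h ε hε
  set M : ℝ := max M1 M2 with hM
  have hM0 : 0 ≤ M := (norm_nonneg (w 0)).trans ((hM1 0).trans (le_max_left _ _))
  set C2 : ℝ := b + 7 / a + 2 + 1 / a with hC2
  have hC20 : 0 < C2 := by positivity
  refine ⟨(M + 1) * ((2 + C2 + 2 * C4 + CD) * b ^ (1 + ε)), max 1 (1 / b), by positivity,
    le_max_left _ _, fun T τ hT hτ => ?_⟩
  have hT1 : 1 ≤ T := (le_max_left _ _).trans hT
  have hT0 : 0 < T := by linarith
  have hbT : 1 ≤ b * T := by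
    have := (le_max_right _ _).trans hT
    rw [div_le_iff₀ hb] at this
    linarith
  have hτ0 : 0 < |τ| := by linarith
  have hτne : (τ : ℂ) ≠ 0 := by
    have : τ ≠ 0 := abs_pos.1 hτ0
    exact_mod_cast this
  have haT : 0 < a * T := by positivity
  have haT1 : a ≤ a * T := by nlinarith
  have habT : a * T ≤ b * T := by nlinarith
  set g : ℝ → ℝ := fun u => w (u / T) * (ff u - D0 u) with hg
  set g' : ℝ → ℝ := fun u => deriv w (u / T) * (1 / T) * (ff u - D0 u) +
    w (u / T) * (LAR_ffd u - 1 / u) with hg'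
  set v : ℝ → ℂ := fun u => cexp (-(I * ((τ * Real.log u : ℝ) : ℂ))) / (-(I * τ)) with hv
  set v' : ℝ → ℂ := fun u => cexp (-(I * ((τ * Real.log u : ℝ) : ℂ))) / u with hv'
  have hpos : ∀ u ∈ uIcc (a * T) (b * T), 0 < u := by
    intro u hu
    rw [uIcc_of_le habT] at hu
    exact haT.trans_le hu.1
  have hgd : ∀ u ∈ uIcc (a * T) (b * T), HasDerivAt (fun u => (g u : ℂ)) ((g' u : ℝ) : ℂ) u := by
    intro u hu
    have hu0 := hpos u hu
    have h1 : HasDerivAt (fun u : ℝ => w (u / T)) (deriv w (u / T) * (1 / T)) u := by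
      have h2 : HasDerivAt w (deriv w (u / T)) (u / T) :=
        (hw.differentiable (by simp) _).hasDerivAt
      exact h2.comp u ((hasDerivAt_id u).div_const T)
    have h2 : HasDerivAt (fun u => ff u - D0 u) (LAR_ffd u - 1 / u) u := (LAR_ff u).sub (LAR_D0 hu0)
    exact (h1.mul h2).ofReal_comp
  have hvd : ∀ u ∈ uIcc (a * T) (b * T), HasDerivAt v (v' u) u := by
    intro u hu
    have hu0 := hpos u hu
    have huc : (u : ℂ) ≠ 0 := by exact_mod_cast hu0.ne'
    have h1 : HasDerivAt (fun u : ℝ => ((τ * Real.log u : ℝ) : ℂ)) ((τ * u⁻¹ : ℝ) : ℂ) u :=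
      ((Real.hasDerivAt_log hu0.ne').const_mul τ).ofReal_comp
    have h3 : HasDerivAt (fun u : ℝ => -(I * ((τ * Real.log u : ℝ) : ℂ)))
        (-(I * ((τ * u⁻¹ : ℝ) : ℂ))) u := (h1.const_mul I).neg
    have h2 : HasDerivAt v (cexp (-(I * ((τ * Real.log u : ℝ) : ℂ))) *
        (-(I * ((τ * u⁻¹ : ℝ) : ℂ))) / (-(I * τ))) u := (h3.cexp).div_const (-(I * τ))
    refine h2.congr_deriv ?_
    rw [hv']
    simp only
    generalize cexp (-(I * ((τ * Real.log u : ℝ) : ℂ))) = e
    push_cast
    field_simp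
  have hg'c : ContinuousOn g' (uIcc (a * T) (b * T)) := by
    have hD0c : ContinuousOn D0 (uIcc (a * T) (b * T)) := fun u hu =>
      (LAR_D0 (hpos u hu)).continuousAt.continuousWithinAt
    have hinv : ContinuousOn (fun u : ℝ => 1 / u) (uIcc (a * T) (b * T)) :=
      continuousOn_const.div continuousOn_id fun u hu => (hpos u hu).ne'
    have hw1 : ContinuousOn (fun u : ℝ => w (u / T)) (uIcc (a * T) (b * T)) :=
      (hw.continuous.comp (continuous_id.div_const T)).continuousOn
    have hw2 : ContinuousOn (fun u : ℝ => deriv w (u / T) * (1 / T)) (uIcc (a * T) (b * T)) :=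
      ((hwd.comp (continuous_id.div_const T)).mul continuous_const).continuousOn
    exact (hw2.mul (LAR_ff_cont.continuousOn.sub hD0c)).add
      (hw1.mul (LAR_ffd_cont.continuousOn.sub hinv))
  have hexpc : ContinuousOn (fun u : ℝ => cexp (-(I * ((τ * Real.log u : ℝ) : ℂ))))
      (uIcc (a * T) (b * T)) := by
    have hlog : ContinuousOn Real.log (uIcc (a * T) (b * T)) :=
      Real.continuousOn_log.mono fun u hu => (hpos u hu).ne'
    exact (((continuous_ofReal.comp_continuousOn (continuousOn_const.mul hlog)).const_mul I).neg).cexp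
  have hv'c : ContinuousOn v' (uIcc (a * T) (b * T)) := by
    refine hexpc.div continuous_ofReal.continuousOn fun u hu => ?_
    exact_mod_cast (hpos u hu).ne'
  have hparts := intervalIntegral.integral_mul_deriv_eq_deriv_mul (u := fun u => (g u : ℂ))
    (u' := fun u => ((g' u : ℝ) : ℂ)) (v := v) (v' := v') (a := a * T) (b := b * T) hgd hvd
    ((continuous_ofReal.comp_continuousOn hg'c).intervalIntegrable) hv'c.intervalIntegrable
  have hga : g (a * T) = 0 := by
    rw [hg]
    simp only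
    rw [mul_div_cancel_right₀ _ hT0.ne', hw0 a (Or.inl le_rfl), zero_mul]
  have hgb : g (b * T) = 0 := by
    rw [hg]
    simp only
    rw [mul_div_cancel_right₀ _ hT0.ne', hw0 b (Or.inr le_rfl), zero_mul]
  have hmel : mel g τ = ∫ u in (a * T)..(b * T), (g u : ℂ) * v' u := by
    unfold mel
    rw [intervalIntegral.integral_of_le habT]
    have hsub : Ioc (a * T) (b * T) ⊆ Ioi (0 : ℝ) := fun u hu => haT.trans hu.1
    rw [setIntegral_eq_of_subset_of_forall_sdiff_eq_zero measurableSet_Ioi hsub]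
    · refine setIntegral_congr_fun measurableSet_Ioc fun u hu => ?_
      rw [hv']
      simp only
      push_cast
      ring
    · intro u hu
      have hu2 : u / T ≤ a ∨ b ≤ u / T := by
        by_contra hcon
        push Not at hcon
        apply hu.2
        rw [lt_div_iff₀ hT0, div_lt_iff₀ hT0] at hcon
        exact ⟨hcon.1, hcon.2.le⟩
      rw [hg]
      simp only
      rw [hw0 _ hu2]
      simp
  -- the bound
  have hvn : ∀ u : ℝ, ‖v u‖ = |τ|⁻¹ := by
    intro u
    rw [hv]
    simp only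
    rw [norm_div, norm_neg, norm_mul, norm_I, one_mul, norm_real, Real.norm_eq_abs]
    have : ‖cexp (-(I * ((τ * Real.log u : ℝ) : ℂ)))‖ = 1 := by
      rw [norm_exp]
      simp
    rw [this, one_div]
  set Kf : ℝ → ℝ := fun u => (M + 1) * ((2 + C2) + 2 * ff u ^ 2 +
    ‖deriv riemannZeta (1 / 2 + I * u)‖ ^ 2) with hKf
  have hKfc : Continuous Kf := by
    have h1 := LAR_ff_cont
    have h2 := LAR_dz
    rw [hKf]
    fun_prop
  have hpt : ∀ u ∈ Icc (a * T) (b * T), |g' u| ≤ Kf u := by
    intro u hu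
    have hu0 : 0 < u := haT.trans_le hu.1
    have hff : 0 ≤ ff u := by
      unfold ff
      positivity
    have hff2 : ff u ≤ 1 + ff u ^ 2 := by nlinarith [sq_nonneg (ff u - 1)]
    have h1 : |deriv w (u / T) * (1 / T) * (ff u - D0 u)| ≤ M * (ff u + (b + 7 / a + 2)) := by
      rw [abs_mul, abs_mul, abs_of_pos (show 0 < 1 / T by positivity)]
      have e1 : |deriv w (u / T)| ≤ M := (hM2 _).trans (le_max_right _ _)
      have e2 : 1 / T * |ff u - D0 u| ≤ ff u + (b + 7 / a + 2) := by
        have e3 : |ff u - D0 u| ≤ ff u + (u + 7 / u + 2) := by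
          have := abs_sub (ff u) (D0 u)
          rw [abs_of_nonneg hff] at this
          linarith [LAR_D0_le hu0]
        have e4 : 7 / u ≤ 7 / a := div_le_div_of_nonneg_left (by norm_num) ha (haT1.trans hu.1)
        have e5 : 0 < 7 / a := by positivity
        rw [one_div, inv_mul_le_iff₀ hT0]
        nlinarith [hu.2]
      calc |deriv w (u / T)| * (1 / T) * |ff u - D0 u| = |deriv w (u / T)| * (1 / T * |ff u - D0 u|) := by
            ring
        _ ≤ M * (ff u + (b + 7 / a + 2)) := mul_le_mul e1 e2 (by positivity) hM0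
    have h2 : |w (u / T) * (LAR_ffd u - 1 / u)| ≤
        M * (ff u + ‖deriv riemannZeta (1 / 2 + I * u)‖ ^ 2 + 1 / a) := by
      rw [abs_mul]
      have e1 : |w (u / T)| ≤ M := (hM1 _).trans (le_max_left _ _)
      have e2 : |LAR_ffd u - 1 / u| ≤ ff u + ‖deriv riemannZeta (1 / 2 + I * u)‖ ^ 2 + 1 / a := by
        have e3 := abs_sub (LAR_ffd u) (1 / u)
        rw [abs_of_pos (show 0 < 1 / u by positivity)] at e3
        have e4 : 1 / u ≤ 1 / a := div_le_div_of_nonneg_left (by norm_num) ha (haT1.trans hu.1)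
        linarith [LAR_ffd_le u]
      exact mul_le_mul e1 e2 (abs_nonneg _) hM0
    have h3 : |g' u| ≤ M * (ff u + (b + 7 / a + 2)) +
        M * (ff u + ‖deriv riemannZeta (1 / 2 + I * u)‖ ^ 2 + 1 / a) :=
      (abs_add_le _ _).trans (add_le_add h1 h2)
    have h4 : 0 ≤ ‖deriv riemannZeta (1 / 2 + I * u)‖ ^ 2 := by positivity
    calc |g' u| ≤ M * (2 * ff u + ‖deriv riemannZeta (1 / 2 + I * u)‖ ^ 2 + C2) := by
          rw [hC2]
          linarith
      _ ≤ M * ((2 + C2) + 2 * ff u ^ 2 + ‖deriv riemannZeta (1 / 2 + I * u)‖ ^ 2) := by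
          apply mul_le_mul_of_nonneg_left _ hM0
          linarith
      _ ≤ Kf u := by
          rw [hKf]
          simp only
          apply mul_le_mul_of_nonneg_right (by linarith)
          positivity
  have hint1 : ∫ u in (a * T)..(b * T), Kf u ≤ (M + 1) * ((2 + C2 + 2 * C4 + CD) * (b * T) ^ (1 + ε)) := by
    have e0 : ∫ u in (a * T)..(b * T), Kf u ≤ ∫ u in (0 : ℝ)..(b * T), Kf u := by
      apply intervalIntegral.integral_mono_interval haT.le habT le_rfl
      · refine (ae_restrict_iff' measurableSet_Ioc).2 (Eventually.of_forall fun u _ => ?_)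
        rw [hKf]
        simp only [Pi.zero_apply]
        positivity
      · exact hKfc.intervalIntegrable _ _
    have hc1 : Continuous fun u : ℝ => 2 * ff u ^ 2 := by
      have := LAR_ff_cont
      fun_prop
    have hc2 : Continuous fun u : ℝ => ‖deriv riemannZeta (1 / 2 + I * u)‖ ^ 2 := by
      have := LAR_dz
      fun_prop
    have e1 : ∫ u in (0 : ℝ)..(b * T), Kf u = (M + 1) * ((2 + C2) * (b * T) +
        2 * (∫ u in (0 : ℝ)..(b * T), ff u ^ 2) +
        ∫ u in (0 : ℝ)..(b * T), ‖deriv riemannZeta (1 / 2 + I * u)‖ ^ 2) := by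
      rw [hKf]
      simp only
      have s1 : ∫ u in (0 : ℝ)..(b * T), (2 + C2 + 2 * ff u ^ 2 +
          ‖deriv riemannZeta (1 / 2 + I * u)‖ ^ 2) = (∫ u in (0 : ℝ)..(b * T), (2 + C2 + 2 * ff u ^ 2)) +
          ∫ u in (0 : ℝ)..(b * T), ‖deriv riemannZeta (1 / 2 + I * u)‖ ^ 2 :=
        intervalIntegral.integral_add (f := fun u => 2 + C2 + 2 * ff u ^ 2)
          ((continuous_const.add hc1).intervalIntegrable _ _) (hc2.intervalIntegrable _ _)
      have s2 : ∫ u in (0 : ℝ)..(b * T), (2 + C2 + 2 * ff u ^ 2) =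
          (∫ _u in (0 : ℝ)..(b * T), (2 + C2)) + ∫ u in (0 : ℝ)..(b * T), 2 * ff u ^ 2 :=
        intervalIntegral.integral_add (f := fun _ => 2 + C2)
          (continuous_const.intervalIntegrable _ _) (hc1.intervalIntegrable _ _)
      rw [intervalIntegral.integral_const_mul, s1, s2, intervalIntegral.integral_const_mul,
        intervalIntegral.integral_const, smul_eq_mul, sub_zero]
      ring
    have e2 := h4 (b * T) hbT
    have e3 := hD (b * T) hbT
    have e4 : b * T ≤ (b * T) ^ (1 + ε) := by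
      calc b * T = (b * T) ^ (1 : ℝ) := (Real.rpow_one _).symm
        _ ≤ _ := Real.rpow_le_rpow_of_exponent_le hbT (by linarith)
    refine e0.trans ?_
    rw [e1]
    apply mul_le_mul_of_nonneg_left _ (by linarith)
    have e5 : (2 + C2) * (b * T) ≤ (2 + C2) * (b * T) ^ (1 + ε) :=
      mul_le_mul_of_nonneg_left e4 (by positivity)
    linarith
  rw [hmel, hparts, hga, hgb]
  simp only [ofReal_zero, zero_mul, sub_zero, zero_sub, norm_neg]
  have hnorm : ‖∫ u in (a * T)..(b * T), ((g' u : ℝ) : ℂ) * v u‖ ≤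
      ∫ u in (a * T)..(b * T), Kf u * |τ|⁻¹ := by
    apply intervalIntegral.norm_integral_le_of_norm_le habT
    · refine Eventually.of_forall fun u hu => ?_
      rw [norm_mul, hvn, norm_real, Real.norm_eq_abs]
      exact mul_le_mul_of_nonneg_right (hpt u ⟨hu.1.le, hu.2⟩) (by positivity)
    · exact (hKfc.mul continuous_const).intervalIntegrable _ _
  refine hnorm.trans ?_
  rw [intervalIntegral.integral_mul_const, ← div_eq_mul_inv]
  apply div_le_div_of_nonneg_right _ hτ0.le
  refine hint1.trans (le_of_eq ?_)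
  rw [Real.mul_rpow hb.le hT0.le]
  ring

end

end Pool.Agent.Helper30K1.DS
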