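import Pool.Agent.Helper30K1.DS.Stm
import Pool.Agent.Helper30K1.GD.LIP

set_option autoImplicit false

/-!
Project DS, piece LIP: balls around bad parameters stay bad (helper15).
-/

namespace Pool.Agent.Helper30K1.DS

open Complex Filter Topology MeasureTheory Set
open Pool.Agent.Y969.GP (ff)
open Pool.Agent.N879.GD (D0 dif NN gp)

namespace LDs

/-- at most `C (2T+2)^2` points below `2T` -/
lemma card_le {ι : Type} {x : ι → ℝ} (h0 : ∀ i, 0 < x i) {C : ℝ} (hC : 0 < C)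
    (hb : ∀ y : ℝ, 0 ≤ y → ∀ S : Finset ι, (∀ i ∈ S, y ≤ x i ∧ x i ≤ y + 1) →
      (S.card : ℝ) ≤ C * (1 + y) ^ (1 : ℝ)) {T : ℝ} (hT : 1 ≤ T) (S : Finset ι)
    (hS : ∀ i ∈ S, x i ≤ 2 * T) : (S.card : ℝ) ≤ C * (2 * T + 1) ^ 2 := by
  classical
  have hmap : ∀ i ∈ S, ⌊x i⌋₊ ∈ Finset.range (⌊2 * T⌋₊ + 1) := by
    intro i hi
    rw [Finset.mem_range, Nat.lt_succ_iff]
    exact Nat.floor_mono (hS i hi)
  have hfl : ((⌊2 * T⌋₊ : ℕ) : ℝ) ≤ 2 * T := Nat.floor_le (by linarith)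
  have h1 : (S.card : ℝ) =
      ∑ m ∈ Finset.range (⌊2 * T⌋₊ + 1), (((S.filter (fun i => ⌊x i⌋₊ = m)).card : ℕ) : ℝ) := by
    rw [Finset.card_eq_sum_card_fiberwise (f := fun i => ⌊x i⌋₊) (t := Finset.range (⌊2 * T⌋₊ + 1))
      (fun i hi => hmap i hi)]
    push_cast
    rfl
  have h2 : ∀ m ∈ Finset.range (⌊2 * T⌋₊ + 1),
      (((S.filter (fun i => ⌊x i⌋₊ = m)).card : ℕ) : ℝ) ≤ C * (2 * T + 1) := by
    intro m hm
    rw [Finset.mem_range, Nat.lt_succ_iff] at hm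
    have h3 := hb (m : ℝ) (Nat.cast_nonneg m) (S.filter (fun i => ⌊x i⌋₊ = m)) (by
      intro i hi
      rw [Finset.mem_filter] at hi
      have h4 := Nat.floor_le (h0 i).le
      have h5 := Nat.lt_floor_add_one (x i)
      rw [hi.2] at h4 h5
      exact ⟨h4, h5.le⟩)
    rw [Real.rpow_one] at h3
    have h6 : (m : ℝ) ≤ 2 * T := le_trans (by exact_mod_cast hm) hfl
    have h7 : 1 + (m : ℝ) ≤ 2 * T + 1 := by linarith
    exact h3.trans (mul_le_mul_of_nonneg_left h7 hC.le)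
  calc (S.card : ℝ) = _ := h1
    _ ≤ ∑ _m ∈ Finset.range (⌊2 * T⌋₊ + 1), C * (2 * T + 1) := Finset.sum_le_sum h2
    _ = ((⌊2 * T⌋₊ : ℕ) + 1 : ℝ) * (C * (2 * T + 1)) := by
      rw [Finset.sum_const, Finset.card_range, nsmul_eq_mul]
      push_cast
      ring
    _ ≤ (2 * T + 1) * (C * (2 * T + 1)) := by
      gcongr
    _ = _ := by ring

/-- the sum of the norms of the weights -/
lemma F_l1 {ι : Type} {x : ι → ℝ} {F : ι → ℂ} (hS : Sq x) (hF : Gr x F) : ∃ B : ℝ, 0 < B ∧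
    ∀ T : ℝ, 1 ≤ T → ∀ S : Finset ι, (∀ i ∈ S, x i ≤ 2 * T) → ∑ i ∈ S, ‖F i‖ ≤ B * T ^ 2 := by
  obtain ⟨C, hC, hb⟩ := hS.2 1 one_pos
  obtain ⟨CF, hCF, hG⟩ := hF 1 one_pos
  refine ⟨C * 9 + CF * 4, by positivity, fun T hT S h2 => ?_⟩
  have h3 := card_le hS.1 hC hb hT S h2
  have h4 := hG (2 * T) (by linarith) S h2
  have e5 : (2 * T) ^ ((1 : ℝ) + 1) = (2 * T) ^ 2 := by
    rw [← Real.rpow_natCast]
    norm_num
  rw [e5] at h4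
  have h5 : ∑ i ∈ S, ‖F i‖ ≤ ∑ i ∈ S, (1 + ‖F i‖ ^ 2) := by
    refine Finset.sum_le_sum fun i _ => ?_
    nlinarith [sq_nonneg (‖F i‖ - 1), norm_nonneg (F i)]
  rw [Finset.sum_add_distrib, Finset.sum_const, nsmul_eq_mul, mul_one] at h5
  unfold sq at h4
  have h6 : C * (2 * T + 1) ^ 2 ≤ C * (3 * T) ^ 2 := by
    have : 2 * T + 1 ≤ 3 * T := by linarith
    have h7 : 0 ≤ 2 * T + 1 := by linarith
    gcongr
  calc ∑ i ∈ S, ‖F i‖ ≤ (S.card : ℝ) + ∑ i ∈ S, ‖F i‖ ^ 2 := h5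
    _ ≤ C * (3 * T) ^ 2 + CF * (2 * T) ^ 2 := by linarith
    _ = _ := by ring

/-- the weighted sums over subintervals of `(T,2T]` -/
lemma JJ_close {C : ℝ} {N : ℕ} (hC : 0 < C) (h2 : ∀ u : ℝ, 0 ≤ u → ff u ≤ C * (1 + u) ^ N)
    (h3 : ∀ u v : ℝ, 0 ≤ u → 0 ≤ v → |ff u - ff v| ≤ C * (1 + u + v) ^ N * |u - v|)
    {k : ℕ} {A T B : ℝ} (hA : 1 ≤ A) (hT : 1 ≤ T) (hT1 : C * (9 * A) ^ N ≤ T) (hT2 : 16 * A ≤ T)
    (hT3 : 8 * k ≤ T) (hT4 : B ≤ T)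
    {ι : Type} {xs : ι → ℝ} {F G : ι → ℂ} (hS : Sq xs) (hFG : ∀ i, ‖G i‖ = ‖F i‖)
    (hB : ∀ S : Finset ι, (∀ i ∈ S, xs i ≤ 2 * T) → ∑ i ∈ S, ‖F i‖ ≤ B * T ^ 2)
    {x y : Fin k → ℝ} (hx : ∀ j, (2 * A)⁻¹ ≤ x j ∧ x j ≤ 2 * A)
    (hy : ∀ j, (2 * A)⁻¹ ≤ y j ∧ y j ≤ 2 * A)
    (hxy : ∀ j, |x j - y j| ≤ T ^ (-(((N + 2) * (k + 1) + 5 : ℕ) : ℝ)))
    {a b : ℝ} (ha : T ≤ a) (hb : b ≤ 2 * T) :
    JJ xs G x a b ≤ JJ xs G y a b + 1 / 2 := by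
  have hT0 : 0 < T := by linarith
  set d : ℝ := T ^ (-(((N + 2) * (k + 1) + 5 : ℕ) : ℝ)) with hd
  have hd0 : 0 < d := by positivity
  set M : ℝ := 2 * (k * (T ^ (N + 2)) ^ k * (T ^ (N + 2) * (2 * T * d))) with hM
  have hM0 : 0 ≤ M := by positivity
  have s1 : ‖(∑ i ∈ fs xs a b, G i * ((dif x (xs i) : ℝ) : ℂ)) -
      ∑ i ∈ fs xs a b, G i * ((dif y (xs i) : ℝ) : ℂ)‖ ≤ M * ∑ i ∈ fs xs a b, ‖F i‖ := by
    rw [← Finset.sum_sub_distrib, Finset.mul_sum]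
    refine (norm_sum_le _ _).trans (Finset.sum_le_sum fun i hi => ?_)
    rw [hS.mem] at hi
    rw [← mul_sub, norm_mul, hFG, ← ofReal_sub, norm_real, Real.norm_eq_abs, mul_comm]
    have := Pool.Agent.Helper30K1.GD.LDa.dif_close hC h2 h3 hA hT hT1 hT2 hx hy hd0.le hxy
      (ha.trans hi.1.le) (hi.2.trans hb)
    gcongr
  have s2 : ∑ i ∈ fs xs a b, ‖F i‖ ≤ T ^ 3 := by
    refine (hB _ fun i hi => ?_).trans ?_
    · rw [hS.mem] at hi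
      exact hi.2.trans hb
    · calc B * T ^ 2 ≤ T * T ^ 2 := by gcongr
        _ = _ := by ring
  have s6 : M * T ^ 3 ≤ 1 / 2 := by
    have s7 : T ^ ((N + 2) * (k + 1) + 5) * d = 1 := by
      rw [hd, Real.rpow_neg hT0.le, Real.rpow_natCast]
      exact mul_inv_cancel₀ (by positivity)
    have s8 : T * (M * T ^ 3) = 4 * k := by
      calc T * (M * T ^ 3) = 4 * k * (T ^ ((N + 2) * (k + 1) + 5) * d) := by
            rw [hM]
            ring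
        _ = _ := by rw [s7, mul_one]
    have s9 : T * (M * T ^ 3) ≤ T * (1 / 2) := by
      rw [s8]
      linarith
    exact le_of_mul_le_mul_left s9 hT0
  have s10 : ‖(∑ i ∈ fs xs a b, G i * ((dif x (xs i) : ℝ) : ℂ)) -
      ∑ i ∈ fs xs a b, G i * ((dif y (xs i) : ℝ) : ℂ)‖ ≤ 1 / 2 :=
    s1.trans ((mul_le_mul_of_nonneg_left s2 hM0).trans s6)
  unfold JJ
  have s11 := norm_sub_norm_le (∑ i ∈ fs xs a b, G i * ((dif x (xs i) : ℝ) : ℂ))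
    (∑ i ∈ fs xs a b, G i * ((dif y (xs i) : ℝ) : ℂ))
  linarith

end LDs

open LDs Pool.Agent.Helper30K1.GD.LDa in
theorem t_LIP : S_LIP := by
  obtain ⟨C, N, hC, h1, h2, h3⟩ := Pool.Agent.N879.GD.t_CRU
  intro k
  refine ⟨(((N + 2) * (k + 1) + 5 : ℕ) : ℝ), ?_, ?_⟩
  · exact_mod_cast (by omega : 1 ≤ (N + 2) * (k + 1) + 5)
  intro ι xs F A θ ρ hS hF hA hθ hθ1 hρ hρ1
  obtain ⟨B, hB, hB1⟩ := F_l1 hS hF
  have hA0 : 0 < A := by linarith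
  filter_upwards [tend2.eventually_ge_atTop 1, tend2.eventually_ge_atTop (C * (9 * A) ^ N),
    tend2.eventually_ge_atTop (16 * A), tend2.eventually_ge_atTop (8 * k),
    tend2.eventually_ge_atTop B] with n hT hT1 hT2 hT3 hT4
  intro x hx y hy
  obtain ⟨hxA, i, hi, hJ⟩ := hx
  set T : ℝ := (2 : ℝ) ^ n with hTdef
  have hT0 : 0 < T := by linarith
  set d : ℝ := T ^ (-(((N + 2) * (k + 1) + 5 : ℕ) : ℝ)) with hd
  have hd0 : 0 < d := by positivity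
  have hxy : ∀ j, |x j - y j| ≤ d := by
    intro j
    rw [Metric.mem_closedBall, dist_comm] at hy
    have := (dist_le_pi_dist x y j).trans hy
    rwa [Real.dist_eq] at this
  have hd1 : d ≤ (2 * A)⁻¹ := by
    have e1 : d ≤ T ^ (-(1 : ℝ)) := by
      rw [hd]
      refine Real.rpow_le_rpow_of_exponent_le hT ?_
      have : (1 : ℝ) ≤ (((N + 2) * (k + 1) + 5 : ℕ) : ℝ) := by
        exact_mod_cast (by omega : 1 ≤ (N + 2) * (k + 1) + 5)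
      linarith
    rw [Real.rpow_neg_one] at e1
    refine e1.trans (inv_anti₀ (by positivity) (by linarith))
  have e2 : (2 * A)⁻¹ + (2 * A)⁻¹ = A⁻¹ := by
    field_simp
    norm_num
  have e3 : (0 : ℝ) < (2 * A)⁻¹ := by positivity
  have e4 : (2 * A)⁻¹ ≤ A := by
    have : (2 * A)⁻¹ ≤ 1 := inv_le_one_of_one_le₀ (by linarith)
    linarith
  have hx2 : ∀ j, (2 * A)⁻¹ ≤ x j ∧ x j ≤ 2 * A := fun j =>
    ⟨by linarith [(hxA j).1], by linarith [(hxA j).2]⟩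
  have hy2 : ∀ j, (2 * A)⁻¹ ≤ y j ∧ y j ≤ 2 * A := by
    intro j
    have := abs_le.1 (hxy j)
    exact ⟨by linarith [(hxA j).1], by linarith [(hxA j).2]⟩
  have hpow : 1 ≤ T ^ (1 - ρ) := Real.one_le_rpow hT (by linarith)
  have hB2 := hB1 T hT
  refine ⟨hy2, i, hi, ?_⟩
  rcases hJ with hJ | hJ
  · left
    have := JJ_close hC h2 h3 hA hT hT1 hT2 hT3 hT4 hS (F := F) (G := F) (fun _ => rfl) hB2 hx2 hy2
      hxy (a := T) (b := gp θ n i) le_rfl (gp_le n hi.le)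
    linarith
  · right
    have := JJ_close hC h2 h3 hA hT hT1 hT2 hT3 hT4 hS (F := F)
      (G := fun i => ((‖F i‖ : ℝ) : ℂ)) (fun t => by simp) hB2 hx2 hy2 hxy
      (a := gp θ n i) (b := gp θ n (i + 1)) (gp_ge n i) (gp_le n hi)
    linarith

end Pool.Agent.Helper30K1.DS
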