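import Pool.Agent.Helper30K1.DS.Stm
import Pool.Agent.N879.GD.Cru

set_option autoImplicit false

/-!
Project DS, piece MB: measure of the bad set (Chebyshev), helper80, after the piece MB of GD by
helper44.
-/

namespace Pool.Agent.Helper30K1.DS

open Filter Topology MeasureTheory Set
open Pool.Agent.N879.GD (D0 dif NN gp)
open Pool.Agent.Y969.GP (ff)
open scoped ENNReal

namespace MB

lemma meas_dif (k : ℕ) (t : ℝ) : Measurable (fun l : Fin k → ℝ => dif l t) := by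
  obtain ⟨_, _, _, hc, _⟩ := Pool.Agent.N879.GD.t_CRU
  unfold dif D0
  refine Measurable.sub ?_ ?_
  · refine Finset.measurable_prod _ fun j _ => ?_
    refine hc.measurable.comp ?_
    fun_prop
  · refine Finset.measurable_prod _ fun j _ => ?_
    refine Measurable.add_const ?_ _
    refine Real.measurable_log.comp ?_
    fun_prop

lemma cheb {k : ℕ} {ι : Type} {x : ι → ℝ} {F : ι → ℂ} {A a b s : ℝ} {B : ℝ≥0∞} (hs : 0 < s)
    (hP : ∫⁻ l in Icc (fun _ : Fin k => A⁻¹) (fun _ => A),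
      ‖∑ i ∈ fs x a b, F i * ((dif l (x i) : ℝ) : ℂ)‖ₑ ^ 2 ≤ B) :
    volume {l : Fin k → ℝ | (∀ j, A⁻¹ ≤ l j ∧ l j ≤ A) ∧ s < JJ x F l a b} ≤
      B / ENNReal.ofReal (s ^ 2) := by
  set Box : Set (Fin k → ℝ) := Icc (fun _ : Fin k => A⁻¹) (fun _ => A) with hBox
  set g : (Fin k → ℝ) → ℂ := fun l => ∑ i ∈ fs x a b, F i * ((dif l (x i) : ℝ) : ℂ) with hg
  have hgm : Measurable g := by
    refine Finset.measurable_sum _ fun i _ => ?_
    exact (Complex.measurable_ofReal.comp (meas_dif k (x i))).const_mul (F i)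
  have hsub : {l : Fin k → ℝ | (∀ j, A⁻¹ ≤ l j ∧ l j ≤ A) ∧ s < JJ x F l a b} ⊆
      {l | ENNReal.ofReal (s ^ 2) ≤ ‖g l‖ₑ ^ 2} ∩ Box := by
    rintro l ⟨h1, h2⟩
    refine ⟨?_, ⟨fun j => (h1 j).1, fun j => (h1 j).2⟩⟩
    change s < ‖g l‖ at h2
    change ENNReal.ofReal (s ^ 2) ≤ ‖g l‖ₑ ^ 2
    rw [← ofReal_norm, ← ENNReal.ofReal_pow (norm_nonneg _)]
    exact ENNReal.ofReal_le_ofReal (pow_le_pow_left₀ hs.le h2.le 2)
  refine (measure_mono hsub).trans ?_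
  rw [← Measure.restrict_apply' (measurableSet_Icc : MeasurableSet Box)]
  have hne : ENNReal.ofReal (s ^ 2) ≠ 0 := by
    rw [Ne, ENNReal.ofReal_eq_zero, not_le]
    positivity
  refine (meas_ge_le_lintegral_div (hgm.enorm.pow_const 2).aemeasurable hne
    ENNReal.ofReal_ne_top).trans ?_
  exact ENNReal.div_le_div_right hP _

lemma gp_ge (θ : ℝ) (n i : ℕ) : (2 : ℝ) ^ n ≤ gp θ n i := by
  unfold gp
  have h1 : (0 : ℝ) ≤ (i : ℝ) / NN θ n := by positivity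
  have h2 : (0 : ℝ) < 2 ^ n := by positivity
  nlinarith

lemma gp_le (θ : ℝ) (n i : ℕ) (hi : i ≤ NN θ n) : gp θ n i ≤ 2 * 2 ^ n := by
  unfold gp
  have h1 : (i : ℝ) / NN θ n ≤ 1 := div_le_one_of_le₀ (by exact_mod_cast hi) (by positivity)
  have h2 : (0 : ℝ) < 2 ^ n := by positivity
  nlinarith

end MB

open MB in
theorem t_MB : S_MB := by
  intro δ θ ρ κ hδ hθ hθ1 hρ hρ1 hP hlt k ι x F hx hF A c hA hc
  set ε : ℝ := 2 * δ - θ - 2 * ρ - κ with hε
  have hε0 : 0 < ε := by rw [hε]; linarith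
  have hε2 : 0 < ε / 2 := by linarith
  obtain ⟨C₀, T₀, hC₀, hT₀, hD⟩ := hP k A hA
  obtain ⟨C₁, hC₁, hM⟩ := hF (ε / 2) hε2
  obtain ⟨C₂, hC₂, hfew⟩ := hx.few hε2
  set K : ℝ := 4 * (C₀ * C₂ * (C₁ * 2 ^ (1 + ε / 2))) / c ^ 2 with hK
  have hK0 : 0 < K := by positivity
  refine ⟨K, hK0, ?_⟩
  have hev : ∀ᶠ n : ℕ in atTop, T₀ ≤ (2 : ℝ) ^ n :=
    (tendsto_pow_atTop_atTop_of_one_lt (by norm_num : (1 : ℝ) < 2)).eventually_ge_atTop T₀
  filter_upwards [hev] with n hn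
  set T : ℝ := (2 : ℝ) ^ n with hT
  have hT1 : 1 ≤ T := hT₀.trans hn
  have hTpos : 0 < T := by linarith
  set s : ℝ := c * T ^ (1 - ρ) with hs
  have hs0 : 0 < s := by positivity
  set B : ℝ := C₀ * (C₂ * T ^ (ε / 2)) * T ^ (1 - 2 * δ) * (C₁ * (2 * T) ^ (1 + ε / 2)) with hB
  have hB0 : 0 ≤ B := by positivity
  -- the mean square bound for each interval
  have hmean : ∀ (G : ι → ℂ) (a b : ℝ), T ≤ a → b ≤ 2 * T → (∀ i, ‖G i‖ = ‖F i‖) →
      ∫⁻ l in Icc (fun _ : Fin k => A⁻¹) (fun _ => A),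
        ‖∑ i ∈ fs x a b, G i * ((dif l (x i) : ℝ) : ℂ)‖ₑ ^ 2 ≤ ENNReal.ofReal B := by
    intro G a b ha hb hG
    have hm : ∀ i ∈ fs x a b, T ≤ x i ∧ x i ≤ 2 * T := by
      intro i hi
      rw [hx.mem] at hi
      exact ⟨by linarith [hi.1], by linarith [hi.2]⟩
    refine (hD ι x G (fs x a b) T (C₂ * T ^ (ε / 2)) hn hm
      (hfew T hT1 _ fun i hi => (hm i hi).2)).trans ?_
    refine ENNReal.ofReal_le_ofReal ?_
    rw [hB]
    have hsq : sq G (fs x a b) ≤ C₁ * (2 * T) ^ (1 + ε / 2) := by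
      have : sq G (fs x a b) = sq F (fs x a b) := by
        unfold sq
        exact Finset.sum_congr rfl fun i _ => by rw [hG i]
      rw [this]
      exact hM (2 * T) (by linarith) _ fun i hi => (hm i hi).2
    gcongr
  set X : ℝ≥0∞ := ENNReal.ofReal B / ENNReal.ofReal (s ^ 2) with hX
  have hsub : Bad k x F A c θ ρ n ⊆ ⋃ i ∈ Finset.range (NN θ n),
      ({l : Fin k → ℝ | (∀ j, A⁻¹ ≤ l j ∧ l j ≤ A) ∧ s < JJ x F l T (gp θ n i)} ∪
      {l : Fin k → ℝ | (∀ j, A⁻¹ ≤ l j ∧ l j ≤ A) ∧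
        s < JJ x (fun i => ((‖F i‖ : ℝ) : ℂ)) l (gp θ n i) (gp θ n (i + 1))}) := by
    rintro l ⟨h1, i, hi, h2⟩
    simp only [mem_iUnion]
    refine ⟨i, Finset.mem_range.2 hi, ?_⟩
    rcases h2 with h2 | h2
    · exact Or.inl ⟨h1, h2⟩
    · exact Or.inr ⟨h1, h2⟩
  have hcell : ∀ i ∈ Finset.range (NN θ n),
      volume ({l : Fin k → ℝ | (∀ j, A⁻¹ ≤ l j ∧ l j ≤ A) ∧ s < JJ x F l T (gp θ n i)} ∪
      {l : Fin k → ℝ | (∀ j, A⁻¹ ≤ l j ∧ l j ≤ A) ∧
        s < JJ x (fun i => ((‖F i‖ : ℝ) : ℂ)) l (gp θ n i) (gp θ n (i + 1))}) ≤ 2 * X := by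
    intro i hi
    have hi' := Finset.mem_range.1 hi
    refine (measure_union_le _ _).trans ?_
    rw [two_mul]
    refine add_le_add ?_ ?_
    · exact cheb hs0 (hmean F _ _ le_rfl (gp_le θ n i hi'.le) fun _ => rfl)
    · exact cheb hs0 (hmean (fun i => ((‖F i‖ : ℝ) : ℂ)) _ _ (gp_ge θ n i)
        (gp_le θ n (i + 1) hi') fun i => by simp)
  have hsum : volume (Bad k x F A c θ ρ n) ≤ NN θ n * (2 * X) := by
    refine (measure_mono hsub).trans ((measure_biUnion_finset_le _ _).trans ?_)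
    refine (Finset.sum_le_sum hcell).trans ?_
    rw [Finset.sum_const, Finset.card_range, nsmul_eq_mul]
  refine hsum.trans ?_
  have hXle : X = ENNReal.ofReal (B / s ^ 2) := by
    rw [hX, ENNReal.ofReal_div_of_pos (by positivity)]
  have hNN : (NN θ n : ℝ) ≤ 2 * T ^ θ := by
    have h1 : (1 : ℝ) ≤ T ^ θ := Real.one_le_rpow hT1 hθ.le
    have h2 : (NN θ n : ℝ) < T ^ θ + 1 := Nat.ceil_lt_add_one (by positivity)
    linarith
  have hNNe : (NN θ n : ℝ≥0∞) ≤ ENNReal.ofReal (2 * T ^ θ) := by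
    rw [← ENNReal.ofReal_natCast]
    exact ENNReal.ofReal_le_ofReal hNN
  calc (NN θ n : ℝ≥0∞) * (2 * X) ≤ ENNReal.ofReal (2 * T ^ θ) *
        (ENNReal.ofReal 2 * ENNReal.ofReal (B / s ^ 2)) := by
        rw [hXle]
        gcongr
        simp
    _ = ENNReal.ofReal (2 * T ^ θ * (2 * (B / s ^ 2))) := by
        rw [ENNReal.ofReal_mul (p := 2 * T ^ θ) (by positivity)]
        congr 1
        rw [ENNReal.ofReal_mul (by norm_num)]
    _ = ENNReal.ofReal (K * T ^ (-κ)) := by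
        congr 1
        have e1 : T ^ θ * T ^ (ε / 2) * T ^ (1 - 2 * δ) * T ^ (1 + ε / 2) =
            T ^ (-κ) * (T ^ (1 - ρ)) ^ 2 := by
          rw [← Real.rpow_natCast (T ^ (1 - ρ)) 2, ← Real.rpow_mul hTpos.le,
            ← Real.rpow_add hTpos, ← Real.rpow_add hTpos, ← Real.rpow_add hTpos,
            ← Real.rpow_add hTpos]
          congr 1
          rw [hε]
          push_cast
          ring
        rw [hB, Real.mul_rpow (by norm_num) hTpos.le, hs, hK]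
        have hq : T ^ (1 - ρ) ≠ 0 := by positivity
        clear_value ε
        generalize T ^ (1 + ε / 2) = t4 at e1 ⊢
        generalize (2 : ℝ) ^ (1 + ε / 2) = t5
        generalize T ^ (ε / 2) = t2 at e1 ⊢
        generalize T ^ θ = t1 at e1 ⊢
        generalize T ^ (1 - 2 * δ) = t3 at e1 ⊢
        generalize T ^ (1 - ρ) = t6 at e1 hq ⊢
        generalize T ^ (-κ) = t7 at e1 ⊢
        field_simp
        linear_combination 4 * t5 * e1

end Pool.Agent.Helper30K1.DS
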