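import Pool.Agent.Helper30K1.DS.Stm
import Pool.Agent.Q97.MM.Cmp
import Pool.Agent.N879.GD.M4b

set_option autoImplicit false

/-!
# Piece OFF of project DS: the mean square of zeta on lines close to the critical line
-/

namespace Pool.Agent.Helper30K1.DS

open Complex Filter Topology MeasureTheory Set
open Pool.Agent.Y969.GP (ff)
open Q97.MM

noncomputable section

namespace OFF

lemma zeta_sym (x y : ℝ) :
    ‖riemannZeta ((x : ℂ) + ((-y : ℝ) : ℂ) * I)‖ = ‖riemannZeta ((x : ℂ) + y * I)‖ := by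
  have h : (x : ℂ) + ((-y : ℝ) : ℂ) * I = (starRingEnd ℂ) ((x : ℂ) + y * I) := by
    simp
  rw [h, riemannZeta_conj, Complex.norm_conj]

lemma even_int (g : ℝ → ℝ) (hg : Continuous g) (he : ∀ u, g (-u) = g u) (T : ℝ) :
    ∫ u in (-T)..T, g u = 2 * ∫ u in (0 : ℝ)..T, g u := by
  rw [← intervalIntegral.integral_add_adjacent_intervals (hg.intervalIntegrable (-T) 0)
    (hg.intervalIntegrable 0 T)]
  have h := intervalIntegral.integral_comp_neg (a := 0) (b := T) g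
  rw [neg_zero] at h
  rw [← h, two_mul]
  congr 1
  exact intervalIntegral.integral_congr fun u _ => he u

lemma ff_eq (u : ℝ) : ff u = ‖riemannZeta (((1 / 2 : ℝ) : ℂ) + u * I)‖ ^ 2 := by
  unfold Pool.Agent.Y969.GP.ff
  congr 3
  push_cast
  ring

lemma ff_cont : Continuous ff := by
  have h := (zeta_line_cont (x := 1 / 2) (by norm_num)).norm.pow 2
  exact h.congr fun u => (ff_eq u).symm

lemma ff_neg (u : ℝ) : ff (-u) = ff u := by
  rw [ff_eq, ff_eq, zeta_sym]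

lemma M2 {ε : ℝ} (hε : 0 < ε) : ∃ C : ℝ, 0 < C ∧ ∀ T : ℝ, 1 ≤ T →
    ∫ u in (-T)..T, ff u ≤ C * T ^ (1 + ε) := by
  obtain ⟨C, hC, h⟩ := Pool.Agent.N879.GD.t_M4' ε hε
  refine ⟨2 * (C + 1), by positivity, fun T hT => ?_⟩
  have h1 : ∫ u in (0 : ℝ)..T, ff u ≤ (C + 1) * T ^ (1 + ε) := by
    have h2 : ∫ u in (0 : ℝ)..T, ff u ≤ ∫ u in (0 : ℝ)..T, (ff u ^ 2 + 1) := by
      refine intervalIntegral.integral_mono_on (by linarith) (ff_cont.intervalIntegrable _ _)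
        (((ff_cont.pow 2).add continuous_const).intervalIntegrable _ _) fun u _ => ?_
      nlinarith [sq_nonneg (ff u - 1), sq_nonneg (ff u)]
    rw [intervalIntegral.integral_add (f := fun u => ff u ^ 2) (g := fun _ => (1 : ℝ))
      ((ff_cont.pow 2).intervalIntegrable _ _)
      (continuous_const.intervalIntegrable _ _), intervalIntegral.integral_const] at h2
    have h3 := h T hT
    have h4 : T ≤ T ^ (1 + ε) := by
      calc T = T ^ (1 : ℝ) := (Real.rpow_one T).symm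
        _ ≤ _ := Real.rpow_le_rpow_of_exponent_le hT (by linarith)
    simp only [sub_zero, smul_eq_mul, mul_one] at h2
    linarith
  rw [even_int ff ff_cont ff_neg]
  linarith

lemma gint (A : ℕ) {T : ℝ} (hT : 1 ≤ T) :
    Integrable (fun y : ℝ => (1 + |y|) ^ A * wt T T y) ∧
      ∫ y : ℝ, (1 + |y|) ^ A * wt T T y ≤ 2 ^ A * KK A * T ^ (A + 1) := by
  have hT0 : 0 < T := by linarith
  have hi : Integrable (fun y : ℝ => (1 + |y|) ^ A * wt T T y) :=
    poly_wt_integrable A (C₀ := 1) hT0 hT0.le le_rfl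
      (by have : Continuous fun y : ℝ => (1 + |y|) ^ A := by fun_prop
          exact this.aestronglyMeasurable)
      (fun y => by rw [abs_of_nonneg (by positivity), one_mul])
  refine ⟨hi, ?_⟩
  have hpt : ∀ y : ℝ, (1 + |y|) ^ A * wt T T y ≤
      (1 + T) ^ A * ((1 + |(y - T) / T|) ^ A * Real.exp (-(((y - T) / T) ^ 2 / 2))) := by
    intro y
    have h2 := abs_le_scaled hT0 hT0.le le_rfl y
    have h3 : wt T T y ≤ Real.exp (-(((y - T) / T) ^ 2 / 2)) := by
      unfold wt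
      apply Real.exp_le_exp.2
      nlinarith [sq_nonneg ((y - T) / T)]
    calc (1 + |y|) ^ A * wt T T y ≤ ((1 + T) * (1 + |(y - T) / T|)) ^ A *
          Real.exp (-(((y - T) / T) ^ 2 / 2)) := by
            refine mul_le_mul ?_ h3 (wt_pos _ _ _).le (by positivity)
            exact pow_le_pow_left₀ (by positivity) h2 A
      _ = _ := by rw [mul_pow, mul_assoc]
  have h1 := integral_mono hi ((scaled_integrable A T hT0).const_mul ((1 + T) ^ A)) hpt
  rw [integral_const_mul, scaled_integral A T hT0] at h1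
  have h4 : (1 + T) ^ A ≤ (2 * T) ^ A := pow_le_pow_left₀ (by positivity) (by linarith) A
  have hK := KK_nonneg A
  calc ∫ y : ℝ, (1 + |y|) ^ A * wt T T y ≤ (1 + T) ^ A * (T * KK A) := h1
    _ ≤ (2 * T) ^ A * (T * KK A) := mul_le_mul_of_nonneg_right h4 (by positivity)
    _ = _ := by rw [mul_pow, pow_succ]; ring

/-- the weighted mean on the critical line -/
lemma half {ε : ℝ} (hε : 0 < ε) : ∃ A : ℝ, 0 < A ∧ ∀ T : ℝ, 1 ≤ T →
    PP 1 T T (1 / 2) ≤ A * T ^ (3 + ε) := by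
  obtain ⟨e, he⟩ : ∃ e : ℝ, e = min ε 1 := ⟨_, rfl⟩
  have he0 : 0 < e := by rw [he]; exact lt_min hε one_pos
  have he1 : e ≤ 1 := by rw [he]; exact min_le_right _ _
  have heε : e ≤ ε := by rw [he]; exact min_le_left _ _
  obtain ⟨η, hη⟩ : ∃ η : ℝ, η = e / 8 := ⟨_, rfl⟩
  have hη0 : 0 < η := by rw [hη]; positivity
  obtain ⟨C₂, hC₂, hM⟩ := M2 (ε := e / 2) (by positivity)
  obtain ⟨N, hN⟩ : ∃ N : ℕ, N = ⌈2 / η⌉₊ := ⟨_, rfl⟩
  have hN2 : 2 ≤ η * N := by
    have h1 : 2 / η ≤ N := by rw [hN]; exact Nat.le_ceil _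
    rw [div_le_iff₀ hη0] at h1
    linarith
  have hK := KK_nonneg (4 + N)
  refine ⟨2 * C₂ + 45 ^ 2 * (2 ^ (4 + N) * KK (4 + N)), by positivity, fun T hT => ?_⟩
  have hT0 : 0 < T := by linarith
  obtain ⟨Y, hY⟩ : ∃ Y : ℝ, Y = T ^ (1 + η) := ⟨_, rfl⟩
  have hY1 : 1 ≤ Y := by rw [hY]; exact Real.one_le_rpow hT (by linarith)
  have hY0 : 0 < Y := by linarith
  obtain ⟨hgi, hgb⟩ := gint (4 + N) hT
  have hpt : ∀ y : ℝ, ‖Z1 (((1 / 2 : ℝ) : ℂ) + y * I)‖ ^ (2 * 1) * wt T T y ≤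
      (Icc (-Y) Y).indicator (fun y => (1 + Y ^ 2) * ff y) y +
        (45 ^ 2 / Y ^ N) * ((1 + |y|) ^ (4 + N) * wt T T y) := by
    intro y
    have hw := wt_pos T T y
    have hw1 := wt_le_one T T y
    by_cases hy : |y| ≤ Y
    · rw [indicator_of_mem (by rw [mem_Icc]; exact abs_le.1 hy)]
      have h1 : ‖Z1 (((1 / 2 : ℝ) : ℂ) + y * I)‖ ^ (2 * 1) ≤ (1 + Y ^ 2) * ff y := by
        rw [Z1_of_ne (ne_one_of_re (by norm_num) y), norm_mul, mul_pow, mul_one, ff_eq]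
        refine mul_le_mul_of_nonneg_right ?_ (by positivity)
        have h2 : ‖((1 / 2 : ℝ) : ℂ) + y * I - 1‖ ^ 2 = 1 / 4 + y ^ 2 := by
          have e1 : ((1 / 2 : ℝ) : ℂ) + y * I - 1 = ((-(1 / 2) : ℝ) : ℂ) + ((y : ℝ) : ℂ) * I := by
            push_cast
            ring
          rw [e1, Complex.sq_norm, Complex.normSq_add_mul_I]
          ring
        rw [h2]
        have h3 : y ^ 2 ≤ Y ^ 2 := sq_le_sq' (by linarith [(abs_le.1 hy).1]) (abs_le.1 hy).2
        linarith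
      have h4 : 0 ≤ (45 ^ 2 / Y ^ N) * ((1 + |y|) ^ (4 + N) * wt T T y) := by positivity
      have h5 : 0 ≤ ‖Z1 (((1 / 2 : ℝ) : ℂ) + y * I)‖ ^ (2 * 1) := by positivity
      nlinarith
    · rw [indicator_of_notMem (by rw [mem_Icc]; exact fun h => hy (abs_le.2 h)), zero_add]
      push Not at hy
      have h1 := Z1_pow_bd 1 (x := 1 / 2) (by norm_num) (by norm_num) y
      have h2 : 1 ≤ ((1 + |y|) / Y) ^ N := by
        apply one_le_pow₀
        rw [le_div_iff₀ hY0]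
        linarith
      have h3 : 45 ^ (2 * 1) * (1 + |y|) ^ (2 * (2 * 1)) ≤
          45 ^ 2 / Y ^ N * (1 + |y|) ^ (4 + N) := by
        have e1 : 45 ^ 2 / Y ^ N * (1 + |y|) ^ (4 + N) =
            45 ^ (2 * 1) * (1 + |y|) ^ (2 * (2 * 1)) * ((1 + |y|) / Y) ^ N := by
          rw [div_pow, pow_add]
          ring
        rw [e1]
        exact le_mul_of_one_le_right (by positivity) h2
      calc ‖Z1 (((1 / 2 : ℝ) : ℂ) + y * I)‖ ^ (2 * 1) * wt T T y
          ≤ (45 ^ 2 / Y ^ N * (1 + |y|) ^ (4 + N)) * wt T T y :=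
            mul_le_mul_of_nonneg_right (h1.trans h3) hw.le
        _ = _ := by ring
  have hI1 : Integrable ((Icc (-Y) Y).indicator (fun y => (1 + Y ^ 2) * ff y)) := by
    rw [integrable_indicator_iff measurableSet_Icc]
    exact (continuous_const.mul ff_cont).continuousOn.integrableOn_compact isCompact_Icc
  have hmono := integral_mono (PP_integrable 1 hT0 hT0.le le_rfl (x := 1 / 2) (by norm_num) (by norm_num))
    (hI1.add (hgi.const_mul (45 ^ 2 / Y ^ N))) hpt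
  have hsum : ∫ y : ℝ, (((Icc (-Y) Y).indicator (fun y => (1 + Y ^ 2) * ff y)) y +
      (45 ^ 2 / Y ^ N) * ((1 + |y|) ^ (4 + N) * wt T T y)) =
      (1 + Y ^ 2) * (∫ u in (-Y)..Y, ff u) +
        (45 ^ 2 / Y ^ N) * ∫ y : ℝ, (1 + |y|) ^ (4 + N) * wt T T y := by
    rw [integral_add hI1 (hgi.const_mul _), integral_const_mul, integral_indicator measurableSet_Icc,
      integral_Icc_eq_integral_Ioc, ← intervalIntegral.integral_of_le (by linarith),
      intervalIntegral.integral_const_mul]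
  have h1 : PP 1 T T (1 / 2) ≤ (1 + Y ^ 2) * (∫ u in (-Y)..Y, ff u) +
        (45 ^ 2 / Y ^ N) * ∫ y : ℝ, (1 + |y|) ^ (4 + N) * wt T T y := by
    rw [← hsum]
    exact hmono
  have h2 : (1 + Y ^ 2) * (∫ u in (-Y)..Y, ff u) ≤ 2 * C₂ * T ^ (3 + ε) := by
    have a1 := hM Y hY1
    have a2 : (1 + Y ^ 2) ≤ 2 * Y ^ (2 : ℝ) := by
      rw [Real.rpow_two]
      nlinarith
    calc (1 + Y ^ 2) * (∫ u in (-Y)..Y, ff u) ≤ (2 * Y ^ (2 : ℝ)) * (C₂ * Y ^ (1 + e / 2)) := by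
          refine mul_le_mul a2 a1 ?_ (by positivity)
          exact intervalIntegral.integral_nonneg (by linarith) fun u _ => by rw [ff_eq]; positivity
      _ = 2 * C₂ * Y ^ (2 + (1 + e / 2)) := by
          rw [Real.rpow_add hY0 2 (1 + e / 2)]
          generalize Y ^ (2 : ℝ) = p
          generalize Y ^ (1 + e / 2) = q
          ring
      _ = 2 * C₂ * T ^ ((1 + η) * (2 + (1 + e / 2))) := by rw [hY, ← Real.rpow_mul hT0.le]
      _ ≤ 2 * C₂ * T ^ (3 + ε) := by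
          refine mul_le_mul_of_nonneg_left ?_ (by positivity)
          apply Real.rpow_le_rpow_of_exponent_le hT
          rw [hη]
          nlinarith
  have h3 : (45 ^ 2 / Y ^ N) * ∫ y : ℝ, (1 + |y|) ^ (4 + N) * wt T T y ≤
      45 ^ 2 * (2 ^ (4 + N) * KK (4 + N)) * T ^ (3 + ε) := by
    have b1 : T ^ (4 + N + 1) ≤ Y ^ N * T ^ (3 + ε) := by
      rw [hY, ← Real.rpow_natCast (T ^ (1 + η)) N, ← Real.rpow_mul hT0.le, ← Real.rpow_add hT0,
        ← Real.rpow_natCast T]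
      apply Real.rpow_le_rpow_of_exponent_le hT
      push_cast
      nlinarith
    calc (45 ^ 2 / Y ^ N) * ∫ y : ℝ, (1 + |y|) ^ (4 + N) * wt T T y
        ≤ (45 ^ 2 / Y ^ N) * (2 ^ (4 + N) * KK (4 + N) * T ^ (4 + N + 1)) :=
          mul_le_mul_of_nonneg_left hgb (by positivity)
      _ ≤ (45 ^ 2 / Y ^ N) * (2 ^ (4 + N) * KK (4 + N) * (Y ^ N * T ^ (3 + ε))) := by
          refine mul_le_mul_of_nonneg_left ?_ (by positivity)
          exact mul_le_mul_of_nonneg_left b1 (by positivity)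
      _ = _ := by
          have : Y ^ N ≠ 0 := by positivity
          field_simp
  linarith

lemma VI_pos' {T x : ℝ} (hT : 3 ≤ T) (h1 : 1 / 4 ≤ x) (h2 : x ≤ 3) : 0 < VI (FF 1 T T) x := by
  have hT0 : 0 < T := by linarith
  obtain ⟨M, δ, hM, hδ, hbd⟩ := FF_bd 1 T hT0
  refine VI_pos_of_pos (FF_differentiable 1 T T) hδ hM hbd h1 h2 (x := 2) (by norm_num) (by norm_num) ?_
  rw [VI_eq]
  have := PP_lower 1 hT hT0 le_rfl
  have h3 : 0 < (1 / 6) ^ (2 * 1) * Real.exp (-1) * (T ^ (2 * 1) * T) := by positivity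
  have h4 : 0 < PP 1 T T 2 := lt_of_lt_of_le h3 this
  positivity

lemma dyadic {ε : ℝ} (hε : 0 < ε) : ∃ r A : ℝ, 0 < r ∧ r < 1 / 8 ∧ 0 < A ∧ ∀ σ : ℝ, |σ - 1 / 2| ≤ r →
    ∀ T : ℝ, 3 ≤ T → ∫ v in T..(2 * T), ‖riemannZeta ((σ : ℂ) + v * I)‖ ^ 2 ≤ A * T ^ (1 + ε) := by
  obtain ⟨A₁, hA₁, hhalf⟩ := half (ε := ε / 2) (by positivity)
  obtain ⟨r, hr⟩ : ∃ r : ℝ, r = min (ε / 16) (1 / 16) := ⟨_, rfl⟩
  have hr0 : 0 < r := by rw [hr]; exact lt_min (by positivity) (by norm_num)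
  have hr1 : r ≤ 1 / 16 := by rw [hr]; exact min_le_right _ _
  have hrε : 16 * r ≤ ε := by
    have : r ≤ ε / 16 := by rw [hr]; exact min_le_left _ _
    linarith
  have hK := KK_nonneg 4
  obtain ⟨A, hA⟩ : ∃ A : ℝ, A = A₁ + 3 * (45 ^ 2 * (2 ^ 4 * KK 4)) + 1 := ⟨_, rfl⟩
  have hA0 : 0 < A := by rw [hA]; positivity
  refine ⟨r, Real.exp 1 * A, hr0, by linarith, by positivity, fun σ hσ T hT => ?_⟩
  have hT0 : 0 < T := by linarith
  have hT1 : 1 ≤ T := by linarith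
  obtain ⟨M, δ, hM, hδ, hbd⟩ := FF_bd 1 T hT0
  have hσ2 := abs_le.1 hσ
  -- the second line
  obtain ⟨x₂, hx1, hx2, hx3⟩ : ∃ x₂ : ℝ, 1 / 4 ≤ x₂ ∧ x₂ ≤ 3 / 4 ∧
      (1 - 4 * |σ - 1 / 2|) * (1 / 2) + 4 * |σ - 1 / 2| * x₂ = σ := by
    rcases le_total 0 (σ - 1 / 2) with h | h
    · refine ⟨3 / 4, by norm_num, le_rfl, ?_⟩
      rw [abs_of_nonneg h]
      ring
    · refine ⟨1 / 4, le_rfl, by norm_num, ?_⟩
      rw [abs_of_nonpos h]
      ring
  obtain ⟨θ, hθ⟩ : ∃ θ : ℝ, θ = 4 * |σ - 1 / 2| := ⟨_, rfl⟩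
  have hθ0 : 0 ≤ θ := by rw [hθ]; positivity
  have hθr : θ ≤ 4 * r := by rw [hθ]; linarith
  have hθ1 : θ ≤ 1 := by linarith
  rw [← hθ] at hx3
  have hexp : ∀ x : ℝ, 1 / 4 ≤ x → x ≤ 3 / 4 → Real.exp ((x - 1 / 2) ^ 2 / T ^ 2) ≤ 3 := by
    intro x h1 h2
    have h3 : (x - 1 / 2) ^ 2 / T ^ 2 ≤ 1 := by
      rw [div_le_one (by positivity)]
      nlinarith
    calc Real.exp ((x - 1 / 2) ^ 2 / T ^ 2) ≤ Real.exp 1 := Real.exp_le_exp.2 h3
      _ ≤ 3 := by linarith [Real.exp_one_lt_d9]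
  have hlc := logconv (FF_differentiable 1 T T) hδ hM hbd (x₁ := 1 / 2) (x₂ := x₂) (θ := θ)
    (by norm_num) (by norm_num) hx1 (by linarith) hθ0 hθ1 (VI_pos' hT (by norm_num) (by norm_num))
    (VI_pos' hT hx1 (by linarith))
  rw [hx3] at hlc
  have hv1 : VI (FF 1 T T) (1 / 2) ≤ A * T ^ (3 + ε / 2) := by
    rw [VI_eq, sub_self]
    have h1 := hhalf T hT1
    have h2 : (0 : ℝ) ^ 2 / T ^ 2 = 0 := by simp
    rw [h2, Real.exp_zero, one_mul]
    refine h1.trans (mul_le_mul_of_nonneg_right ?_ (by positivity))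
    rw [hA]
    nlinarith
  have hv2 : VI (FF 1 T T) x₂ ≤ A * T ^ (5 : ℝ) := by
    rw [VI_eq]
    have h1 : PP 1 T T x₂ ≤ 45 ^ 2 * (2 ^ 4 * KK 4 * T ^ (4 + 1)) := by
      obtain ⟨hgi, hgb⟩ := gint 4 hT1
      have h2 := integral_mono (PP_integrable 1 hT0 hT0.le le_rfl (x := x₂) hx1 (by linarith))
        (hgi.const_mul (45 ^ 2)) (fun y => by
          have h3 := Z1_pow_bd 1 (x := x₂) hx1 (by linarith) y
          calc ‖Z1 ((x₂ : ℂ) + y * I)‖ ^ (2 * 1) * wt T T y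
              ≤ (45 ^ (2 * 1) * (1 + |y|) ^ (2 * (2 * 1))) * wt T T y :=
                mul_le_mul_of_nonneg_right h3 (wt_pos _ _ _).le
            _ = 45 ^ 2 * ((1 + |y|) ^ 4 * wt T T y) := by ring)
      rw [integral_const_mul] at h2
      exact h2.trans (mul_le_mul_of_nonneg_left hgb (by norm_num))
    have h2 : T ^ (5 : ℝ) = T ^ (4 + 1) := by
      rw [← Real.rpow_natCast]
      norm_num
    rw [h2]
    calc Real.exp ((x₂ - 1 / 2) ^ 2 / T ^ 2) * PP 1 T T x₂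
        ≤ 3 * (45 ^ 2 * (2 ^ 4 * KK 4 * T ^ (4 + 1))) :=
          mul_le_mul (hexp x₂ hx1 hx2) h1 (PP_nonneg 1 _ _ _) (by norm_num)
      _ = (3 * (45 ^ 2 * (2 ^ 4 * KK 4))) * T ^ (4 + 1) := by ring
      _ ≤ A * T ^ (4 + 1) := by
          refine mul_le_mul_of_nonneg_right ?_ (by positivity)
          rw [hA]
          linarith
  have hv : VI (FF 1 T T) σ ≤ A * T ^ (3 + ε) := by
    calc VI (FF 1 T T) σ ≤ VI (FF 1 T T) (1 / 2) ^ (1 - θ) * VI (FF 1 T T) x₂ ^ θ := hlc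
      _ ≤ (A * T ^ (3 + ε / 2)) ^ (1 - θ) * (A * T ^ (5 : ℝ)) ^ θ := by
          refine mul_le_mul ?_ ?_ (Real.rpow_nonneg (VI_nonneg _ _) _) (by positivity)
          · exact Real.rpow_le_rpow (VI_nonneg _ _) hv1 (by linarith)
          · exact Real.rpow_le_rpow (VI_nonneg _ _) hv2 hθ0
      _ = A * T ^ ((3 + ε / 2) * (1 - θ) + 5 * θ) := by
          rw [Real.mul_rpow hA0.le (by positivity), Real.mul_rpow hA0.le (by positivity),
            ← Real.rpow_mul hT0.le, ← Real.rpow_mul hT0.le]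
          have e1 : A ^ (1 - θ) * A ^ θ = A := by
            rw [← Real.rpow_add hA0]
            norm_num
          calc A ^ (1 - θ) * T ^ ((3 + ε / 2) * (1 - θ)) * (A ^ θ * T ^ (5 * θ))
              = (A ^ (1 - θ) * A ^ θ) * (T ^ ((3 + ε / 2) * (1 - θ)) * T ^ (5 * θ)) := by ring
            _ = _ := by rw [e1, ← Real.rpow_add hT0]
      _ ≤ A * T ^ (3 + ε) := by
          refine mul_le_mul_of_nonneg_left ?_ hA0.le
          apply Real.rpow_le_rpow_of_exponent_le hT1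
          nlinarith
  have hP : PP 1 T T σ ≤ A * T ^ (3 + ε) := by
    refine le_trans ?_ hv
    rw [VI_eq]
    have h1 : 1 ≤ Real.exp ((σ - 1 / 2) ^ 2 / T ^ 2) := Real.one_le_exp (by positivity)
    have h2 := PP_nonneg 1 T T σ
    nlinarith
  -- the lower bound
  have hcz : Continuous (fun v : ℝ => ‖riemannZeta ((σ : ℂ) + v * I)‖ ^ 2) :=
    (zeta_line_cont (x := σ) (by linarith)).norm.pow 2
  have hlow : Real.exp (-1) * T ^ 2 * ∫ v in T..(2 * T), ‖riemannZeta ((σ : ℂ) + v * I)‖ ^ 2 ≤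
      PP 1 T T σ := by
    rw [← intervalIntegral.integral_const_mul, intervalIntegral.integral_of_le (by linarith)]
    have hPi := PP_integrable 1 hT0 hT0.le le_rfl (x := σ) (by linarith) (by linarith)
    unfold PP
    refine le_trans ?_ (setIntegral_le_integral (s := Ioc T (2 * T)) hPi
      (Eventually.of_forall fun y => mul_nonneg (by positivity) (wt_pos _ _ _).le))
    refine setIntegral_mono_on ?_ hPi.integrableOn measurableSet_Ioc fun y hy => ?_
    · exact ((continuous_const.mul hcz).integrableOn_Icc).mono_set Ioc_subset_Icc_self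
    · have hy1 : T < y := hy.1
      have hy2 : y ≤ 2 * T := hy.2
      have h1 : T ≤ ‖(σ : ℂ) + y * I - 1‖ := by
        have h2 := Complex.abs_im_le_norm ((σ : ℂ) + y * I - 1)
        have e : ((σ : ℂ) + y * I - 1).im = y := by simp
        rw [e] at h2
        exact hy1.le.trans ((le_abs_self y).trans h2)
      have h3 : Real.exp (-1) ≤ wt T T y := by
        unfold wt
        apply Real.exp_le_exp.2
        have h4 : ((y - T) / T) ^ 2 ≤ 1 := by
          rw [div_pow, div_le_one (by positivity)]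
          nlinarith
        linarith
      rw [Z1_of_ne (ne_one_of_re (by linarith) y), norm_mul, mul_one, mul_pow]
      have h5 : T ^ 2 ≤ ‖(σ : ℂ) + y * I - 1‖ ^ 2 := pow_le_pow_left₀ hT0.le h1 2
      calc Real.exp (-1) * T ^ 2 * ‖riemannZeta ((σ : ℂ) + y * I)‖ ^ 2
          ≤ wt T T y * ‖(σ : ℂ) + y * I - 1‖ ^ 2 * ‖riemannZeta ((σ : ℂ) + y * I)‖ ^ 2 := by
            refine mul_le_mul_of_nonneg_right ?_ (by positivity)
            exact mul_le_mul h3 h5 (by positivity) (wt_pos _ _ _).le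
        _ = _ := by ring
  have hfin := hlow.trans hP
  have e3 : T ^ (3 + ε) = T ^ 2 * T ^ (1 + ε) := by
    rw [← Real.rpow_natCast, ← Real.rpow_add hT0]
    congr 1
    push_cast
    ring
  rw [e3] at hfin
  have hT2 : 0 < T ^ 2 := by positivity
  have h6 : Real.exp (-1) * ∫ v in T..(2 * T), ‖riemannZeta ((σ : ℂ) + v * I)‖ ^ 2 ≤
      A * T ^ (1 + ε) := by
    have h7 : T ^ 2 * (Real.exp (-1) * ∫ v in T..(2 * T), ‖riemannZeta ((σ : ℂ) + v * I)‖ ^ 2) ≤
        T ^ 2 * (A * T ^ (1 + ε)) := by linarith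
    exact le_of_mul_le_mul_left h7 hT2
  have h8 : Real.exp 1 * Real.exp (-1) = 1 := by rw [← Real.exp_add]; norm_num
  have h9 := mul_le_mul_of_nonneg_left h6 (Real.exp_pos 1).le
  rw [← mul_assoc, h8, one_mul] at h9
  linarith

end OFF

open OFF

theorem t_OFF : S_OFF := by
  intro ε hε
  obtain ⟨r, C₁, hr0, hr1, hC₁, hd⟩ := dyadic hε
  refine ⟨r, 2 * (C₁ + 6 * (180 ^ 2 * 7 ^ 4)), hr0, hr1, by positivity, fun σ hσ T hT => ?_⟩
  have hσ2 := abs_le.1 hσ
  have hcz : Continuous (fun v : ℝ => ‖riemannZeta ((σ : ℂ) + v * I)‖ ^ 2) :=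
    (zeta_line_cont (x := σ) (by linarith)).norm.pow 2
  have hnn : ∀ a b : ℝ, a ≤ b → 0 ≤ ∫ v in a..b, ‖riemannZeta ((σ : ℂ) + v * I)‖ ^ 2 := fun a b hab =>
    intervalIntegral.integral_nonneg hab fun v _ => by positivity
  have hsmall : ∫ v in (0 : ℝ)..6, ‖riemannZeta ((σ : ℂ) + v * I)‖ ^ 2 ≤ 6 * (180 ^ 2 * 7 ^ 4) := by
    have h1 : ∫ v in (0 : ℝ)..6, ‖riemannZeta ((σ : ℂ) + v * I)‖ ^ 2 ≤
        ∫ v in (0 : ℝ)..6, (180 ^ 2 * 7 ^ 4 : ℝ) := by
      refine intervalIntegral.integral_mono_on (by norm_num) (hcz.intervalIntegrable _ _)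
        (continuous_const.intervalIntegrable _ _) fun v hv => ?_
      have h2 := zeta_pow_bd 1 (x := σ) (by linarith) (by linarith) v
      have h3 : 1 + |v| ≤ 7 := by
        rw [abs_of_nonneg hv.1]
        linarith [hv.2]
      have h4 : (1 + |v|) ^ 4 ≤ 7 ^ 4 := pow_le_pow_left₀ (by positivity) h3 4
      norm_num at h2 ⊢
      nlinarith
    rw [intervalIntegral.integral_const, sub_zero, smul_eq_mul] at h1
    exact h1
  have key : ∀ n : ℕ, ∀ T : ℝ, 1 ≤ T → T ≤ 6 * 2 ^ n →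
      ∫ v in (0 : ℝ)..T, ‖riemannZeta ((σ : ℂ) + v * I)‖ ^ 2 ≤
        (C₁ + 6 * (180 ^ 2 * 7 ^ 4)) * T ^ (1 + ε) := by
    intro n
    induction n with
    | zero =>
      intro T hT hT6
      rw [pow_zero, mul_one] at hT6
      have h1 : ∫ v in (0 : ℝ)..T, ‖riemannZeta ((σ : ℂ) + v * I)‖ ^ 2 ≤
          ∫ v in (0 : ℝ)..6, ‖riemannZeta ((σ : ℂ) + v * I)‖ ^ 2 := by
        rw [← intervalIntegral.integral_add_adjacent_intervals (hcz.intervalIntegrable 0 T)
          (hcz.intervalIntegrable T 6)]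
        linarith [hnn T 6 hT6]
      have h2 : 1 ≤ T ^ (1 + ε) := Real.one_le_rpow hT (by linarith)
      nlinarith
    | succ n ih =>
      intro T hT hTn
      by_cases hT6 : T ≤ 6
      · have h1 : ∫ v in (0 : ℝ)..T, ‖riemannZeta ((σ : ℂ) + v * I)‖ ^ 2 ≤
            ∫ v in (0 : ℝ)..6, ‖riemannZeta ((σ : ℂ) + v * I)‖ ^ 2 := by
          rw [← intervalIntegral.integral_add_adjacent_intervals (hcz.intervalIntegrable 0 T)
            (hcz.intervalIntegrable T 6)]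
          linarith [hnn T 6 hT6]
        have h2 : 1 ≤ T ^ (1 + ε) := Real.one_le_rpow hT (by linarith)
        nlinarith
      · push Not at hT6
        have h1 := ih (T / 2) (by linarith) (by rw [pow_succ] at hTn; linarith)
        have h2 := hd σ hσ (T / 2) (by linarith)
        have e1 : 2 * (T / 2) = T := by ring
        rw [e1] at h2
        rw [← intervalIntegral.integral_add_adjacent_intervals (hcz.intervalIntegrable 0 (T / 2))
          (hcz.intervalIntegrable (T / 2) T)]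
        have h3 : 2 * (T / 2) ^ (1 + ε) ≤ T ^ (1 + ε) := by
          rw [Real.div_rpow (by linarith) (by norm_num)]
          have h4 : (2 : ℝ) ≤ 2 ^ (1 + ε) := by
            calc (2 : ℝ) = 2 ^ (1 : ℝ) := (Real.rpow_one 2).symm
              _ ≤ _ := Real.rpow_le_rpow_of_exponent_le (by norm_num) (by linarith)
          rw [← mul_div_assoc, div_le_iff₀ (by positivity)]
          have h5 : 0 < T ^ (1 + ε) := Real.rpow_pos_of_pos (by linarith) _
          nlinarith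
        have h6 : 0 < (T / 2) ^ (1 + ε) := Real.rpow_pos_of_pos (by linarith) _
        calc _ ≤ (C₁ + 6 * (180 ^ 2 * 7 ^ 4)) * (T / 2) ^ (1 + ε) + C₁ * (T / 2) ^ (1 + ε) := by
              linarith
          _ ≤ (C₁ + 6 * (180 ^ 2 * 7 ^ 4)) * (2 * (T / 2) ^ (1 + ε)) := by nlinarith
          _ ≤ _ := mul_le_mul_of_nonneg_left h3 (by positivity)
  obtain ⟨n, hn⟩ : ∃ n : ℕ, T ≤ 6 * 2 ^ n := by
    obtain ⟨n, hn⟩ := pow_unbounded_of_one_lt T (one_lt_two)
    exact ⟨n, by nlinarith [show (0 : ℝ) < 2 ^ n by positivity]⟩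
  have h1 := key n T hT hn
  rw [even_int (fun v : ℝ => ‖riemannZeta ((σ : ℂ) + v * I)‖ ^ 2) hcz
    (fun u => congrArg (fun z : ℝ => z ^ 2) (zeta_sym σ u))]
  linarith

end

end Pool.Agent.Helper30K1.DS
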