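import Pool.Agent.Helper30K1.DS.Stm
import Pool.Agent.Helper30K1.GD.PL

/-!
Project DS, piece PLD (helper64): Plancherel's theorem in the dilation.
-/

set_option autoImplicit false

namespace Pool.Agent.Helper30K1.DS

open Complex Filter Topology MeasureTheory Set FourierTransform
open Pool.Agent.Helper30K1.GD.PLa (lint_mel memLp_two_of fourier_g1)
open scoped ENNReal

namespace PLDa

variable {ι : Type} (x : ι → ℝ) (F : ι → ℂ) (S : Finset ι) (g : ℝ → ℝ)

/-- the function on the additive group -/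
noncomputable def hh (y : ℝ) : ℂ := ∑ i ∈ S, F i * ((g (Real.exp y * x i) : ℝ) : ℂ)

theorem mel_eq (ξ : ℝ) : 𝓕 (Pool.Agent.Helper30K1.GD.PLa.g1 fun u => ((g u : ℝ) : ℂ)) ξ =
    mel g (2 * Real.pi * ξ) := by
  rw [fourier_g1]
  unfold mel
  refine setIntegral_congr_fun measurableSet_Ioi fun u _ => ?_
  push_cast
  rfl

theorem fourier_shift (c ξ : ℝ) :
    ∫ v : ℝ, cexp (((-2 * Real.pi * v * ξ : ℝ) : ℂ) * I) *
      ((g (Real.exp (v + c)) : ℝ) : ℂ) =
      cexp (I * (((2 * Real.pi * ξ) * c : ℝ) : ℂ)) * mel g (2 * Real.pi * ξ) := by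
  have h1 := integral_add_right_eq_self (μ := (volume : Measure ℝ))
    (fun v : ℝ => cexp (((-2 * Real.pi * (v - c) * ξ : ℝ) : ℂ) * I) *
      ((g (Real.exp v) : ℝ) : ℂ)) c
  simp only [add_sub_cancel_right] at h1
  rw [h1, ← mel_eq, Real.fourier_real_eq_integral_exp_smul, ← integral_const_mul]
  refine integral_congr_ae (Eventually.of_forall fun v => ?_)
  simp only [Pool.Agent.Helper30K1.GD.PLa.g1, smul_eq_mul]
  rw [← mul_assoc, ← Complex.exp_add]
  congr 2
  push_cast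
  ring

theorem supp_term {g : ℝ → ℝ} {a b : ℝ} (ha : 0 < a) (h0 : ∀ u, u ∉ Icc a b → g u = 0) {y : ℝ}
    (hy : 0 < y) (v : ℝ) (hv : v ∉ Icc (Real.log a - Real.log y) (Real.log b - Real.log y)) :
    g (Real.exp v * y) = 0 := by
  refine h0 _ fun h => hv ⟨?_, ?_⟩
  · have := Real.log_le_log ha h.1
    rw [Real.log_mul (Real.exp_pos _).ne' hy.ne', Real.log_exp] at this
    linarith
  · have := Real.log_le_log (mul_pos (Real.exp_pos _) hy) h.2
    rw [Real.log_mul (Real.exp_pos _).ne' hy.ne', Real.log_exp] at this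
    linarith

theorem cs_term {g : ℝ → ℝ} {a b : ℝ} (ha : 0 < a) (h0 : ∀ u, u ∉ Icc a b → g u = 0) {y : ℝ}
    (hy : 0 < y) (φ : ℝ → ℂ) (c : ℂ) :
    HasCompactSupport fun v : ℝ => φ v * (c * ((g (Real.exp v * y) : ℝ) : ℂ)) := by
  refine HasCompactSupport.of_support_subset_isCompact (isCompact_Icc
      (a := Real.log a - Real.log y) (b := Real.log b - Real.log y)) fun v hv => ?_
  by_contra h
  refine hv ?_
  simp only
  rw [supp_term ha h0 hy v h]
  simp

theorem cont_term {g : ℝ → ℝ} (hg : Continuous g) (y : ℝ) (φ : ℝ → ℂ) (hφ : Continuous φ) (c : ℂ) :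
    Continuous fun v : ℝ => φ v * (c * ((g (Real.exp v * y) : ℝ) : ℂ)) := by
  have h1 : Continuous fun v : ℝ => g (Real.exp v * y) :=
    hg.comp (Real.continuous_exp.mul continuous_const)
  exact hφ.mul (continuous_const.mul (Complex.continuous_ofReal.comp h1))

theorem int_term {g : ℝ → ℝ} {a b : ℝ} (ha : 0 < a) (hg : Continuous g)
    (h0 : ∀ u, u ∉ Icc a b → g u = 0) {y : ℝ} (hy : 0 < y) (φ : ℝ → ℂ) (hφ : Continuous φ) (c : ℂ) :
    Integrable fun v : ℝ => φ v * (c * ((g (Real.exp v * y) : ℝ) : ℂ)) :=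
  (cont_term hg y φ hφ c).integrable_of_hasCompactSupport (cs_term ha h0 hy φ c)

theorem fourier_hh {x : ι → ℝ} {S : Finset ι} {g : ℝ → ℝ} {a b : ℝ} (ha : 0 < a)
    (hg : Continuous g) (h0 : ∀ u, u ∉ Icc a b → g u = 0) (hx : ∀ i ∈ S, 0 < x i) (ξ : ℝ) :
    𝓕 (hh x F S g) ξ = DP x F S (2 * Real.pi * ξ) * mel g (2 * Real.pi * ξ) := by
  rw [Real.fourier_real_eq_integral_exp_smul]
  unfold hh DP
  have hφ : Continuous fun v : ℝ => cexp (((-2 * Real.pi * v * ξ : ℝ) : ℂ) * I) := by fun_prop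
  have h1 : ∀ v : ℝ, cexp (((-2 * Real.pi * v * ξ : ℝ) : ℂ) * I) •
      ∑ i ∈ S, F i * ((g (Real.exp v * x i) : ℝ) : ℂ) =
      ∑ i ∈ S, cexp (((-2 * Real.pi * v * ξ : ℝ) : ℂ) * I) *
        (F i * ((g (Real.exp v * x i) : ℝ) : ℂ)) := by
    intro v
    rw [smul_eq_mul, Finset.mul_sum]
  simp_rw [h1]
  rw [integral_finsetSum _ fun i hi => int_term ha hg h0 (hx i hi) _ hφ (F i), Finset.sum_mul]
  refine Finset.sum_congr rfl fun i hi => ?_
  have h2 := fourier_shift g (Real.log (x i)) ξ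
  have h3 : ∀ v : ℝ, Real.exp (v + Real.log (x i)) = Real.exp v * x i := fun v => by
    rw [Real.exp_add, Real.exp_log (hx i hi)]
  simp_rw [h3] at h2
  rw [mul_assoc, ← h2, ← integral_const_mul]
  refine integral_congr_ae (Eventually.of_forall fun v => ?_)
  simp only
  ring

theorem lint_scale (φ : ℝ → ℝ≥0∞) :
    ∫⁻ ξ : ℝ, φ (2 * Real.pi * ξ) ≤ ∫⁻ τ : ℝ, φ τ := by
  have hpi : (2 * Real.pi : ℝ) ≠ 0 := by positivity
  have h1 := (Homeomorph.mulLeft₀ (2 * Real.pi : ℝ) hpi).measurableEmbedding.lintegral_map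
    (μ := (volume : Measure ℝ)) φ
  have h2 : Measure.map (⇑(Homeomorph.mulLeft₀ (2 * Real.pi : ℝ) hpi)) (volume : Measure ℝ) =
      ENNReal.ofReal |(2 * Real.pi)⁻¹| • (volume : Measure ℝ) := Real.map_volume_mul_left hpi
  rw [h2, lintegral_smul_measure] at h1
  have h3 : ∫⁻ ξ : ℝ, φ (2 * Real.pi * ξ) = ENNReal.ofReal |(2 * Real.pi)⁻¹| • ∫⁻ τ : ℝ, φ τ := h1.symm
  rw [h3, smul_eq_mul]
  have h4 : ENNReal.ofReal |(2 * Real.pi)⁻¹| ≤ 1 := by
    rw [ENNReal.ofReal_le_one, abs_of_pos (by positivity)]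
    refine inv_le_one_of_one_le₀ ?_
    linarith [Real.pi_gt_three]
  calc _ ≤ 1 * ∫⁻ τ : ℝ, φ τ := mul_le_mul_left h4 _
    _ = _ := one_mul _

end PLDa

open PLDa in
theorem t_PLD : S_PLD := by
  intro ι x F S g a b ha hg h0 hx
  have hc1 : Continuous (hh x F S g) := by
    unfold hh
    refine continuous_finsetSum _ fun i _ => ?_
    have := cont_term hg (x i) (fun _ => 1) continuous_const (F i)
    simpa using this
  have hi1 : Integrable (hh x F S g) := by
    unfold hh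
    refine integrable_finsetSum _ fun i hi => ?_
    have := int_term ha hg h0 (hx i hi) (fun _ => 1) continuous_const (F i)
    simpa using this
  have hs1 : HasCompactSupport (hh x F S g) := by
    refine HasCompactSupport.of_support_subset_isCompact (S.isCompact_biUnion
      (f := fun i => Icc (Real.log a - Real.log (x i)) (Real.log b - Real.log (x i)))
      fun i _ => isCompact_Icc) fun v hv => ?_
    by_contra h
    refine hv ?_
    unfold hh
    refine Finset.sum_eq_zero fun i hi => ?_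
    have h1 : v ∉ Icc (Real.log a - Real.log (x i)) (Real.log b - Real.log (x i)) := fun h2 =>
      h (Set.mem_biUnion hi h2)
    rw [supp_term ha h0 (hx i hi) v h1]
    simp
  have hL2 : MemLp (hh x F S g) 2 := hc1.memLp_of_hasCompactSupport hs1
  have hP := Pool.Agent.H153R4.plancherel (hh x F S g) hi1 hL2
  rw [lint_mel (fun θ => ‖∑ i ∈ S, F i * ((g (θ * x i) : ℝ) : ℂ)‖ₑ ^ 2)]
  have h5 : ∫⁻ y : ℝ, ‖∑ i ∈ S, F i * ((g (Real.exp y * x i) : ℝ) : ℂ)‖ₑ ^ 2 =
      ∫⁻ y : ℝ, ‖hh x F S g y‖ₑ ^ 2 := rfl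
  rw [h5, ← hP]
  simp_rw [fourier_hh F ha hg h0 hx, enorm_mul, mul_pow]
  exact lint_scale fun τ => ‖DP x F S τ‖ₑ ^ 2 * ‖mel g τ‖ₑ ^ 2

end Pool.Agent.Helper30K1.DS
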