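import Pool.Agent.Helper30K1.DS.COR
import Pool.Agent.Q97.MM.Zg

set_option autoImplicit false

/-! Project DS: the zeros of zeta. -/

namespace Pool.Agent.Helper30K1.DS

open Complex Filter Topology MeasureTheory Set

/-- the zeros of zeta in the critical strip with positive imaginary part -/
def Zer : Type := {s : ℂ // 0 < s.re ∧ s.re < 1 ∧ 0 < s.im ∧ riemannZeta s = 0}

theorem low_finite : {s : ℂ | 0 < s.re ∧ s.re < 1 ∧ 0 < s.im ∧ s.im ≤ 4 ∧ riemannZeta s = 0}.Finite := by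
  by_contra hinf
  have hinf : {s : ℂ | 0 < s.re ∧ s.re < 1 ∧ 0 < s.im ∧ s.im ≤ 4 ∧ riemannZeta s = 0}.Infinite := hinf
  have hcomp : IsCompact (Icc (0 : ℝ) 1 ×ℂ Icc (0 : ℝ) 4) := isCompact_Icc.reProdIm isCompact_Icc
  have hsub : {s : ℂ | 0 < s.re ∧ s.re < 1 ∧ 0 < s.im ∧ s.im ≤ 4 ∧ riemannZeta s = 0} ⊆
      Icc (0 : ℝ) 1 ×ℂ Icc (0 : ℝ) 4 := by
    rintro s ⟨h1, h2, h3, h4, -⟩
    exact ⟨⟨h1.le, h2.le⟩, ⟨h3.le, h4⟩⟩
  obtain ⟨x, hx, hacc⟩ := hinf.exists_accPt_of_subset_isCompact hcomp hsub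
  have hfreq : ∃ᶠ z in 𝓝[≠] x, Q97.MM.Z1 z = 0 := by
    rw [accPt_iff_frequently_nhdsNE] at hacc
    refine hacc.mono fun z hz => ?_
    have hz1 : z ≠ 1 := by
      intro h
      have := hz.2.1
      rw [h] at this
      simp at this
    rw [Q97.MM.Z1_of_ne hz1, hz.2.2.2.2, mul_zero]
  have hz := AnalyticOnNhd.eqOn_zero_of_preconnected_of_frequently_eq_zero
    (f := Q97.MM.Z1) (U := univ) (fun s _ => Q97.MM.Z1_differentiable.analyticAt s)
    isPreconnected_univ (mem_univ x) hfreq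
  have h2 : Q97.MM.Z1 1 = 0 := hz (mem_univ 1)
  rw [Q97.MM.Z1_one] at h2
  exact one_ne_zero h2

/-- the number of zeros in unit intervals -/
theorem zer_mass {ε : ℝ} (hε : 0 < ε) : ∃ C : ℝ, 0 < C ∧ ∀ y : ℝ, 0 ≤ y → ∀ S : Finset Zer,
    (∀ i ∈ S, y ≤ i.1.im ∧ i.1.im ≤ y + 1) →
    ((∑ i ∈ S, H370.mult riemannZeta i.1 : ℕ) : ℝ) ≤ C * (1 + y) ^ ε := by
  classical
  obtain ⟨C1, hC1, hz⟩ := H370.zcount H370.good_zeta
  have hinj : Function.Injective (fun i : Zer => i.1) := Subtype.val_injective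
  refine ⟨((∑ s ∈ low_finite.toFinset, H370.mult riemannZeta s : ℕ) : ℝ) + 1 + C1 * (2 ^ ε / ε), by positivity,
    fun y hy S hS => ?_⟩
  have h1 : (1 : ℝ) ≤ (1 + y) ^ ε := Real.one_le_rpow (by linarith) hε.le
  have himg : ∑ i ∈ S, H370.mult riemannZeta i.1 = ∑ s ∈ S.image (fun i : Zer => i.1), H370.mult riemannZeta s := by
    rw [Finset.sum_image fun a _ b _ h => hinj h]
  have hL0 : (0 : ℝ) ≤ ((∑ s ∈ low_finite.toFinset, H370.mult riemannZeta s : ℕ) : ℝ) := Nat.cast_nonneg _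
  have hq0 : 0 < C1 * (2 ^ ε / ε) := by positivity
  rcases lt_or_ge y 3 with hy3 | hy3
  · have h2 : ∑ i ∈ S, H370.mult riemannZeta i.1 ≤ ∑ s ∈ low_finite.toFinset, H370.mult riemannZeta s := by
      rw [himg]
      refine Finset.sum_le_sum_of_subset ?_
      intro s hs
      rw [Finset.mem_image] at hs
      obtain ⟨i, hi, rfl⟩ := hs
      rw [Set.Finite.mem_toFinset]
      exact ⟨i.2.1, i.2.2.1, i.2.2.2.1, by linarith [(hS i hi).2], i.2.2.2.2⟩
    have h3 : ((∑ i ∈ S, H370.mult riemannZeta i.1 : ℕ) : ℝ) ≤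
        ((∑ s ∈ low_finite.toFinset, H370.mult riemannZeta s : ℕ) : ℝ) := by exact_mod_cast h2
    nlinarith
  · have hfin := H370.zset_finite H370.good_zeta (y + 1 / 2 - 1) (y + 1 / 2 + 1) (by linarith)
    have hNN : H370.NN riemannZeta (y + 1 / 2 - 1) (y + 1 / 2 + 1) = ∑ s ∈ hfin.toFinset, H370.mult riemannZeta s := by
      unfold H370.NN
      exact finsum_mem_eq_finite_toFinset_sum _ hfin
    have h2 : ∑ i ∈ S, H370.mult riemannZeta i.1 ≤ H370.NN riemannZeta (y + 1 / 2 - 1) (y + 1 / 2 + 1) := by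
      rw [himg, hNN]
      refine Finset.sum_le_sum_of_subset ?_
      intro s hs
      rw [Finset.mem_image] at hs
      obtain ⟨i, hi, rfl⟩ := hs
      rw [Set.Finite.mem_toFinset]
      obtain ⟨a, b⟩ := hS i hi
      exact ⟨i.2.1, i.2.2.1, by linarith, by linarith, i.2.2.2.2⟩
    have h3 := hz (y + 1 / 2) (by linarith)
    have h4 : Real.log (y + 1 / 2) ≤ (y + 1 / 2) ^ ε / ε := Real.log_le_rpow_div (by linarith) hε
    have h5 : (y + 1 / 2) ^ ε ≤ (2 * (1 + y)) ^ ε := Real.rpow_le_rpow (by linarith) (by linarith) hε.le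
    rw [Real.mul_rpow (by norm_num) (by linarith)] at h5
    calc ((∑ i ∈ S, H370.mult riemannZeta i.1 : ℕ) : ℝ) ≤
        (H370.NN riemannZeta (y + 1 / 2 - 1) (y + 1 / 2 + 1) : ℝ) := by exact_mod_cast h2
      _ ≤ C1 * Real.log (y + 1 / 2) := h3
      _ ≤ C1 * ((2 ^ ε * (1 + y) ^ ε) / ε) := by
          gcongr
          exact h4.trans (by gcongr)
      _ = C1 * (2 ^ ε / ε) * (1 + y) ^ ε := by ring
      _ ≤ _ := by
          gcongr
          linarith

theorem zer_pos (i : Zer) : 1 ≤ H370.mult riemannZeta i.1 :=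
  H370.Loc.mult_pos' H370.good_zeta i.2.2.2.1 i.2.2.2.2

theorem sq_zer : Sq fun i : Zer => i.1.im := by
  refine ⟨fun i => i.2.2.2.1, fun ε hε => ?_⟩
  obtain ⟨C, hC, h⟩ := zer_mass hε
  refine ⟨C, hC, fun y hy S hS => le_trans ?_ (h y hy S hS)⟩
  have : S.card ≤ ∑ i ∈ S, H370.mult riemannZeta i.1 := by
    rw [Finset.card_eq_sum_ones]
    exact Finset.sum_le_sum fun i _ => zer_pos i
  exact_mod_cast this

theorem gr_zer : Gr (fun i : Zer => i.1.im) fun i => ((H370.mult riemannZeta i.1 : ℕ) : ℂ) := by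
  refine gr_of_local (fun i => i.2.2.2.1) fun ε hε => ?_
  obtain ⟨C, hC, h⟩ := zer_mass (half_pos hε)
  refine ⟨C ^ 2, by positivity, fun y hy S hS => ?_⟩
  have h1 := h y hy S hS
  have h2 : sq (fun i : Zer => ((H370.mult riemannZeta i.1 : ℕ) : ℂ)) S ≤
      ((∑ i ∈ S, H370.mult riemannZeta i.1 : ℕ) : ℝ) ^ 2 := by
    unfold sq
    push_cast
    simp only [Complex.norm_natCast]
    exact Finset.sum_sq_le_sq_sum_of_nonneg fun i _ => Nat.cast_nonneg _
  refine h2.trans ?_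
  have h3 : (C * (1 + y) ^ (ε / 2)) ^ 2 = C ^ 2 * (1 + y) ^ ε := by
    rw [mul_pow, ← Real.rpow_natCast ((1 + y) ^ (ε / 2)), ← Real.rpow_mul (by linarith)]
    congr 2
    push_cast
    ring
  rw [← h3]
  exact pow_le_pow_left₀ (Nat.cast_nonneg _) h1 2

end Pool.Agent.Helper30K1.DS
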