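import Pool.Agent.Helper30K1.DS.MVT
import Pool.Agent.Helper30K1.DS.PLD
import Pool.Agent.Helper30K1.DS.OFF
import Pool.Agent.Helper30K1.DS.DZ
import Pool.Agent.Helper30K1.DS.LAR
import Pool.Agent.Helper30K1.DS.DIL1
import Pool.Agent.Helper30K1.DS.DILK
import Pool.Agent.Helper30K1.DS.MB
import Pool.Agent.Helper30K1.DS.LIP
import Pool.Agent.Helper30K1.DS.DET
import Pool.Agent.Helper30K1.DS.FIN
import Pool.Agent.Helper30K1.DS.ZER
import Pool.Agent.Helper30K1.GD.ALL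

set_option autoImplicit false

/-! Project DS: all pieces. -/

namespace Pool.Agent.Helper30K1.DS

theorem a_LEW : Pool.Agent.N879.GD.S_LEW := by
  have hsum : Pool.Agent.N879.GD.S_SUM :=
    GD.t_SUM (GD.t_BA GD.t_GK) (GD.t_BB GD.t_GF GD.t_GAM GD.t_LL)
  exact GD.t_LEW (GD.t_LEM (GD.t_OFI GD.t_GF hsum) GD.t_DIA GD.aAFE)

theorem a_FIN : S_FIN :=
  t_FIN (t_DIL1 t_MVT t_PLD a_LEW (t_LAR (t_DZ t_OFF))) t_DILK GD.t_COV t_MB t_LIP t_DET

end Pool.Agent.Helper30K1.DS
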