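import Pool.Agent.Helper30K1.DS.Stm
import Pool.Agent.H370R2.Local
import Pool.Agent.H370R2.DirGood

set_option autoImplicit false

/-! Project DS: the classes of sequences; zeros of zeta. -/

namespace Pool.Agent.Helper30K1.DS

open Complex Filter Topology MeasureTheory Set

/-- summing over unit intervals -/
theorem gr_of_local {ι : Type} {x : ι → ℝ} {F : ι → ℂ} (h0 : ∀ i, 0 < x i)
    (h : ∀ ε : ℝ, 0 < ε → ∃ C : ℝ, 0 < C ∧ ∀ y : ℝ, 0 ≤ y → ∀ S : Finset ι,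
      (∀ i ∈ S, y ≤ x i ∧ x i ≤ y + 1) → sq F S ≤ C * (1 + y) ^ ε) : Gr x F := by
  classical
  intro ε hε
  obtain ⟨C, hC, hb⟩ := h ε hε
  refine ⟨C * 2 ^ ε * 2, by positivity, fun T hT S hS => ?_⟩
  have hT0 : 0 < T := by linarith
  have h1 : sq F S = ∑ n ∈ Finset.range (⌊T⌋₊ + 1), sq F (S.filter fun i => ⌊x i⌋₊ = n) := by
    unfold sq
    rw [Finset.sum_fiberwise_of_maps_to]
    intro i hi
    rw [Finset.mem_range, Nat.lt_succ_iff]
    exact Nat.floor_mono (hS i hi)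
  rw [h1]
  have h2 : ∀ n ∈ Finset.range (⌊T⌋₊ + 1), sq F (S.filter fun i => ⌊x i⌋₊ = n) ≤ C * (2 * T) ^ ε := by
    intro n hn
    rw [Finset.mem_range, Nat.lt_succ_iff] at hn
    have hn' : (n : ℝ) ≤ T := (Nat.cast_le.2 hn).trans (Nat.floor_le hT0.le)
    refine (hb n (Nat.cast_nonneg n) _ fun i hi => ?_).trans ?_
    · rw [Finset.mem_filter] at hi
      rw [← hi.2]
      exact ⟨Nat.floor_le (h0 i).le, (Nat.lt_floor_add_one _).le⟩
    · have hn0 : (0 : ℝ) ≤ n := Nat.cast_nonneg n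
      have : (1 + (n : ℝ)) ^ ε ≤ (2 * T) ^ ε := Real.rpow_le_rpow (by positivity) (by linarith) hε.le
      gcongr
  refine (Finset.sum_le_card_nsmul _ _ _ h2).trans ?_
  rw [Finset.card_range, nsmul_eq_mul, Real.mul_rpow (by norm_num) hT0.le]
  push_cast
  have h3 : (⌊T⌋₊ : ℝ) + 1 ≤ 2 * T := by
    have := Nat.floor_le hT0.le
    linarith
  have h4 : T ^ (1 + ε) = T * T ^ ε := by rw [Real.rpow_add hT0, Real.rpow_one]
  rw [h4]
  calc ((⌊T⌋₊ : ℝ) + 1) * (C * (2 ^ ε * T ^ ε)) ≤ (2 * T) * (C * (2 ^ ε * T ^ ε)) := by gcongr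
    _ = _ := by ring

theorem gr_one {ι : Type} {x : ι → ℝ} (h : Sq x) : Gr x fun _ => 1 := by
  refine gr_of_local h.1 fun ε hε => ?_
  obtain ⟨C, hC, hb⟩ := h.2 ε hε
  refine ⟨C, hC, fun y hy S hS => ?_⟩
  unfold sq
  simpa using hb y hy S hS

/-- the integers -/
theorem sq_nat : Sq fun n : ℕ => ((n : ℝ) + 1) := by
  refine ⟨fun n => by positivity, fun ε hε => ⟨2, two_pos, fun y hy S hS => ?_⟩⟩
  have h1 : S ⊆ Finset.Icc (⌈y⌉₊ - 1) (⌈y⌉₊) := by
    intro n hn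
    obtain ⟨h2, h3⟩ := hS n hn
    rw [Finset.mem_Icc]
    constructor
    · have : ⌈y⌉₊ ≤ n + 1 := Nat.ceil_le.2 (by push_cast; exact h2)
      omega
    · have h4 : (n : ℝ) ≤ y := by linarith
      have h5 : (n : ℝ) ≤ ⌈y⌉₊ := h4.trans (Nat.le_ceil y)
      exact_mod_cast h5
  have h2 : S.card ≤ 2 := by
    refine (Finset.card_le_card h1).trans ?_
    rw [Nat.card_Icc]
    omega
  have h3 : (1 : ℝ) ≤ (1 + y) ^ ε := Real.one_le_rpow (by linarith) hε.le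
  have h4 : (S.card : ℝ) ≤ 2 := by exact_mod_cast h2
  linarith

end Pool.Agent.Helper30K1.DS
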