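import Pool.Agent.Helper30K1.DS.Stm

set_option autoImplicit false

/-!
# Project DS, part MVT: the mean value theorem for Dirichlet polynomials with the frequencies `log x_i`

Proof with the Gaussian weight (helper61).
-/

namespace Pool.Agent.Helper30K1.DS

open Complex Filter Topology MeasureTheory Set

namespace MV

/-- the count in an interval of integral length -/
theorem cnt {ι : Type} {x : ι → ℝ} {S : Finset ι} {K : ℝ} (h : Few x S K) (y : ℝ) (n : ℕ) :
    ((S.filter (fun j => y ≤ x j ∧ x j ≤ y + n)).card : ℝ) ≤ (n + 1) * K := by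
  classical
  have hK : 0 ≤ K := by simpa using h 0 ∅ (by simp) (by simp)
  induction n with
  | zero =>
    have := h y (S.filter (fun j => y ≤ x j ∧ x j ≤ y + (0 : ℕ))) (Finset.filter_subset _ _) (by
      intro i hi
      rw [Finset.mem_filter] at hi
      obtain ⟨-, h1, h2⟩ := hi
      simp only [Nat.cast_zero, add_zero] at h2
      exact ⟨h1, by linarith⟩)
    simpa using this
  | succ n ih =>
    have hsub : S.filter (fun j => y ≤ x j ∧ x j ≤ y + ((n + 1 : ℕ) : ℝ)) ⊆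
        S.filter (fun j => y ≤ x j ∧ x j ≤ y + n) ∪ S.filter (fun j => y + n ≤ x j ∧ x j ≤ y + n + 1) := by
      intro j hj
      rw [Finset.mem_filter] at hj
      rw [Finset.mem_union, Finset.mem_filter, Finset.mem_filter]
      obtain ⟨h0, h1, h2⟩ := hj
      push_cast at h2
      rcases le_total (x j) (y + n) with h3 | h3
      · exact Or.inl ⟨h0, h1, h3⟩
      · exact Or.inr ⟨h0, h3, by linarith⟩
    have h1 := h (y + n) (S.filter (fun j => y + n ≤ x j ∧ x j ≤ y + n + 1)) (Finset.filter_subset _ _)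
      (fun i hi => (Finset.mem_filter.1 hi).2)
    have h2 : ((S.filter (fun j => y ≤ x j ∧ x j ≤ y + ((n + 1 : ℕ) : ℝ))).card : ℝ) ≤
        ((S.filter (fun j => y ≤ x j ∧ x j ≤ y + n)).card : ℝ) +
          ((S.filter (fun j => y + n ≤ x j ∧ x j ≤ y + n + 1)).card : ℝ) := by
      exact_mod_cast (Finset.card_le_card hsub).trans (Finset.card_union_le _ _)
    have h3 : (((n + 1 : ℕ) : ℝ) + 1) * K = ((n : ℝ) + 1) * K + K := by
      push_cast
      ring
    rw [h3]
    linarith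

theorem exp_le (q : ℕ) : Real.exp (-((q : ℝ) ^ 2 / 2)) ≤ 2 * (1 / 2 : ℝ) ^ q := by
  have h2 : Real.log 2 < 1 := by
    have := Real.log_two_lt_d9
    linarith
  have h20 : 0 < Real.log 2 := Real.log_pos (by norm_num)
  have h1 : (2 : ℝ) * (1 / 2 : ℝ) ^ q = Real.exp (Real.log 2 - q * Real.log 2) := by
    rw [Real.exp_sub, Real.exp_log (by norm_num), mul_comm (q : ℝ) (Real.log 2), Real.exp_mul,
      Real.exp_log (by norm_num), Real.rpow_natCast]
    rw [one_div, inv_pow]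
    rfl
  rw [h1]
  apply Real.exp_le_exp.2
  rcases Nat.eq_zero_or_pos q with h | h
  · subst h
    simp
    exact h20.le
  · have hq : (1 : ℝ) ≤ q := by exact_mod_cast h
    nlinarith [sq_nonneg ((q : ℝ) - 1)]

theorem log_dist {a b T : ℝ} (ha : 0 < a) (hb : 0 < b) (haT : a ≤ 2 * T) (hbT : b ≤ 2 * T) :
    |a - b| / (2 * T) ≤ |Real.log a - Real.log b| := by
  have hT : 0 < 2 * T := lt_of_lt_of_le ha haT
  have key : ∀ c d : ℝ, 0 < d → d ≤ c → c ≤ 2 * T → (c - d) / (2 * T) ≤ Real.log c - Real.log d := by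
    intro c d hd hdc hc
    have hc0 : 0 < c := lt_of_lt_of_le hd hdc
    have h1 := Real.log_le_sub_one_of_pos (div_pos hd hc0)
    rw [Real.log_div hd.ne' hc0.ne'] at h1
    have h2 : (c - d) / (2 * T) ≤ (c - d) / c := by
      apply div_le_div_of_nonneg_left (by linarith) hc0 hc
    have h3 : (c - d) / c = 1 - d / c := by field_simp
    linarith
  rcases le_total b a with h | h
  · have h1 := key a b hb h haT
    rw [abs_of_nonneg (by linarith)]
    exact h1.trans (le_abs_self _)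
  · have h1 := key b a ha h hbT
    rw [abs_sub_comm a b, abs_of_nonneg (by linarith), abs_sub_comm]
    exact h1.trans (le_abs_self _)

/-- the sum of the Gaussian over the distances -/
theorem gsum {ι : Type} {x : ι → ℝ} {S : Finset ι} {K T Y : ℝ} (hT : 1 ≤ T) (hY : 1 ≤ Y)
    (hx : ∀ i ∈ S, T ≤ x i ∧ x i ≤ 2 * T) (h : Few x S K) {i : ι} (hi : i ∈ S) :
    ∑ j ∈ S, Real.exp (-((Y * (Real.log (x i) - Real.log (x j))) ^ 2 / 2)) ≤
      16 * K * (2 * T / Y + 1) := by
  classical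
  have hK : 0 ≤ K := by simpa using h 0 ∅ (by simp) (by simp)
  have hT0 : 0 < T := by linarith
  have hY0 : 0 < Y := by linarith
  set L : ℕ := ⌈2 * T / Y⌉₊ with hL
  have hL1 : 2 * T / Y ≤ L := Nat.le_ceil _
  have hL2 : (L : ℝ) < 2 * T / Y + 1 := Nat.ceil_lt_add_one (by positivity)
  have hL0 : 0 < L := Nat.ceil_pos.2 (by positivity)
  have hL0' : (0 : ℝ) < L := by exact_mod_cast hL0
  have hL1' : (1 : ℝ) ≤ L := by exact_mod_cast hL0
  set q : ι → ℕ := fun j => ⌊|x i - x j| / L⌋₊ with hq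
  have h1 : ∀ j ∈ S, Real.exp (-((Y * (Real.log (x i) - Real.log (x j))) ^ 2 / 2)) ≤
      2 * (1 / 2 : ℝ) ^ (q j) := by
    intro j hj
    refine le_trans ?_ (exp_le (q j))
    apply Real.exp_le_exp.2
    have hd := log_dist (a := x i) (b := x j) (by linarith [(hx i hi).1]) (by linarith [(hx j hj).1])
      (hx i hi).2 (hx j hj).2
    have h2 : (q j : ℝ) ≤ |x i - x j| / L := Nat.floor_le (by positivity)
    have h3 : |x i - x j| / L ≤ Y * (|x i - x j| / (2 * T)) := by
      rw [div_le_iff₀ hL0']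
      have h4 : 1 ≤ Y / (2 * T) * L := by
        have h5 : Y / (2 * T) * (2 * T / Y) = 1 := by field_simp
        calc (1 : ℝ) = Y / (2 * T) * (2 * T / Y) := h5.symm
          _ ≤ Y / (2 * T) * L := by gcongr
      calc |x i - x j| = |x i - x j| * 1 := (mul_one _).symm
        _ ≤ |x i - x j| * (Y / (2 * T) * L) := by gcongr
        _ = Y * (|x i - x j| / (2 * T)) * L := by ring
    have h4 : (q j : ℝ) ≤ |Y * (Real.log (x i) - Real.log (x j))| := by
      rw [abs_mul, abs_of_pos hY0]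
      exact (h2.trans h3).trans (by gcongr)
    have h5 : (q j : ℝ) ^ 2 ≤ (Y * (Real.log (x i) - Real.log (x j))) ^ 2 := by
      rw [← sq_abs (Y * (Real.log (x i) - Real.log (x j)))]
      exact pow_le_pow_left₀ (Nat.cast_nonneg _) h4 2
    linarith
  have hcard : ∀ b : ℕ, ((S.filter (fun j => q j = b)).card : ℝ) ≤ 4 * L * K := by
    intro b
    have hsub : S.filter (fun j => q j = b) ⊆
        S.filter (fun j => (x i + b * L) ≤ x j ∧ x j ≤ (x i + b * L) + L) ∪
        S.filter (fun j => (x i - (b + 1) * L) ≤ x j ∧ x j ≤ (x i - (b + 1) * L) + L) := by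
      intro j hj
      rw [Finset.mem_filter] at hj
      obtain ⟨hjS, hjq⟩ := hj
      have h2 : (b : ℝ) ≤ |x i - x j| / L := by
        rw [← hjq]
        exact Nat.floor_le (by positivity)
      have h3 : |x i - x j| / L < b + 1 := by
        rw [← hjq]
        exact Nat.lt_floor_add_one _
      rw [le_div_iff₀ hL0'] at h2
      rw [div_lt_iff₀ hL0'] at h3
      rw [Finset.mem_union, Finset.mem_filter, Finset.mem_filter]
      rcases le_total (x j) (x i) with h4 | h4
      · right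
        rw [abs_of_nonneg (by linarith)] at h2 h3
        refine ⟨hjS, by linarith, ?_⟩
        have : (x i - (b + 1) * L) + L = x i - b * L := by ring
        linarith
      · left
        rw [abs_of_nonpos (by linarith)] at h2 h3
        refine ⟨hjS, by linarith, ?_⟩
        have : (x i + b * L) + L = x i + (b + 1) * L := by ring
        linarith
    have h2 := cnt h (x i + b * L) L
    have h3 := cnt h (x i - (b + 1) * L) L
    have h4 : ((S.filter (fun j => q j = b)).card : ℝ) ≤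
        ((S.filter (fun j => (x i + b * L) ≤ x j ∧ x j ≤ (x i + b * L) + L)).card : ℝ) +
        ((S.filter (fun j => (x i - (b + 1) * L) ≤ x j ∧ x j ≤ (x i - (b + 1) * L) + L)).card : ℝ) := by
      exact_mod_cast (Finset.card_le_card hsub).trans (Finset.card_union_le _ _)
    have h5 : ((L : ℝ) + 1) * K ≤ 2 * L * K := by
      apply mul_le_mul_of_nonneg_right _ hK
      linarith
    linarith
  calc ∑ j ∈ S, Real.exp (-((Y * (Real.log (x i) - Real.log (x j))) ^ 2 / 2))
      ≤ ∑ j ∈ S, 2 * (1 / 2 : ℝ) ^ (q j) := Finset.sum_le_sum h1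
    _ = ∑ b ∈ S.image q, ((S.filter (fun j => q j = b)).card : ℝ) * (2 * (1 / 2 : ℝ) ^ b) := by
        rw [Finset.sum_comp (fun b : ℕ => 2 * (1 / 2 : ℝ) ^ b) q]
        simp only [nsmul_eq_mul]
    _ ≤ ∑ b ∈ S.image q, (4 * L * K) * (2 * (1 / 2 : ℝ) ^ b) := by
        apply Finset.sum_le_sum
        intro b _
        apply mul_le_mul_of_nonneg_right (hcard b) (by positivity)
    _ = (8 * L * K) * ∑ b ∈ S.image q, (1 / 2 : ℝ) ^ b := by
        rw [Finset.mul_sum]
        apply Finset.sum_congr rfl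
        intro b _
        ring
    _ ≤ (8 * L * K) * 2 := by
        apply mul_le_mul_of_nonneg_left _ (by positivity)
        have h2 : ∑ b ∈ S.image q, (1 / 2 : ℝ) ^ b ≤ ∑' b : ℕ, (1 / 2 : ℝ) ^ b :=
          summable_geometric_two.sum_le_tsum _ (fun b _ => by positivity)
        rwa [tsum_geometric_two] at h2
    _ ≤ 16 * K * (2 * T / Y + 1) := by
        have h2 : K * L ≤ K * (2 * T / Y + 1) := mul_le_mul_of_nonneg_left hL2.le hK
        linarith

/-- the Gaussian integral of one term -/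
theorem gint {Y : ℝ} (hY : 0 < Y) (δ : ℝ) :
    Integrable (fun τ : ℝ => cexp (((-(1 / (2 * Y ^ 2)) : ℝ) : ℂ) * (τ : ℂ) ^ 2 + (I * (δ : ℂ)) * τ + 0)) ∧
    ‖∫ τ : ℝ, cexp (((-(1 / (2 * Y ^ 2)) : ℝ) : ℂ) * (τ : ℂ) ^ 2 + (I * (δ : ℂ)) * τ + 0)‖ ≤
      3 * Y * Real.exp (-((Y * δ) ^ 2 / 2)) := by
  have hb : (((-(1 / (2 * Y ^ 2)) : ℝ) : ℂ)).re < 0 := by
    rw [Complex.ofReal_re]
    have : 0 < 1 / (2 * Y ^ 2) := by positivity
    linarith
  refine ⟨integrable_cexp_quadratic' hb _ _, ?_⟩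
  rw [integral_cexp_quadratic hb]
  have h1 : (Real.pi : ℂ) / -(((-(1 / (2 * Y ^ 2)) : ℝ) : ℂ)) = ((2 * Real.pi * Y ^ 2 : ℝ) : ℂ) := by
    push_cast
    have : (Y : ℂ) ≠ 0 := by exact_mod_cast hY.ne'
    field_simp
  have h2 : (0 : ℂ) - (I * (δ : ℂ)) ^ 2 / (4 * ((-(1 / (2 * Y ^ 2)) : ℝ) : ℂ)) =
      ((-((Y * δ) ^ 2 / 2) : ℝ) : ℂ) := by
    push_cast
    have : (Y : ℂ) ≠ 0 := by exact_mod_cast hY.ne'
    rw [mul_pow, I_sq]
    field_simp
    ring
  rw [h1, h2, norm_mul, ← Complex.ofReal_exp, Complex.norm_real, Real.norm_eq_abs,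
    abs_of_pos (Real.exp_pos _), Complex.norm_cpow_eq_rpow_re_of_pos (by positivity)]
  apply mul_le_mul_of_nonneg_right _ (Real.exp_pos _).le
  have h3 : ((1 : ℂ) / 2).re = 1 / 2 := by norm_num
  rw [h3, ← Real.sqrt_eq_rpow]
  rw [Real.sqrt_le_left (by positivity)]
  have hpi : Real.pi < 3.15 := Real.pi_lt_d2
  nlinarith [sq_nonneg Y, pow_pos hY 2]

/-- the square of the absolute value of the Dirichlet polynomial times the Gaussian -/
theorem expand {ι : Type} (x : ι → ℝ) (F : ι → ℂ) (S : Finset ι) (b τ : ℝ) :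
    ((Real.exp (b * τ ^ 2) * ‖DP x F S τ‖ ^ 2 : ℝ) : ℂ) =
      ∑ i ∈ S, ∑ j ∈ S, (F i * (starRingEnd ℂ) (F j)) *
        cexp ((b : ℂ) * (τ : ℂ) ^ 2 + (I * ((Real.log (x i) - Real.log (x j) : ℝ) : ℂ)) * τ + 0) := by
  have h1 : ((‖DP x F S τ‖ ^ 2 : ℝ) : ℂ) = DP x F S τ * (starRingEnd ℂ) (DP x F S τ) := by
    rw [Complex.mul_conj, Complex.normSq_eq_norm_sq]
  rw [Complex.ofReal_mul, h1]
  unfold DP
  rw [map_sum, Finset.sum_mul_sum, Finset.mul_sum]
  apply Finset.sum_congr rfl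
  intro i _
  rw [Finset.mul_sum]
  apply Finset.sum_congr rfl
  intro j _
  rw [map_mul, ← Complex.exp_conj, map_mul, Complex.conj_I, Complex.conj_ofReal]
  have h2 : cexp ((b : ℂ) * (τ : ℂ) ^ 2 + (I * ((Real.log (x i) - Real.log (x j) : ℝ) : ℂ)) * τ + 0) =
      ((Real.exp (b * τ ^ 2) : ℝ) : ℂ) * (cexp (I * ((τ * Real.log (x i) : ℝ) : ℂ)) *
        cexp (-I * ((τ * Real.log (x j) : ℝ) : ℂ))) := by
    rw [Complex.ofReal_exp, ← Complex.exp_add, ← Complex.exp_add]
    congr 1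
    push_cast
    ring
  rw [h2]
  ring

end MV

open MV in
/-- the mean value theorem -/
theorem t_MVT : S_MVT := by
  refine ⟨192, by norm_num, ?_⟩
  intro ι x F S T Y K hT hY hx h
  classical
  have hK : 0 ≤ K := by simpa using h 0 ∅ (by simp) (by simp)
  have hT0 : 0 < T := by linarith
  have hY0 : 0 < Y := by linarith
  have hsq : 0 ≤ sq F S := Finset.sum_nonneg fun i _ => by positivity
  set b : ℝ := -(1 / (2 * Y ^ 2)) with hb
  set G : ℝ → ℝ := fun τ => Real.exp (b * τ ^ 2) * ‖DP x F S τ‖ ^ 2 with hG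
  have hGexp : ∀ τ : ℝ, ((G τ : ℝ) : ℂ) = ∑ i ∈ S, ∑ j ∈ S, (F i * (starRingEnd ℂ) (F j)) *
        cexp ((b : ℂ) * (τ : ℂ) ^ 2 + (I * ((Real.log (x i) - Real.log (x j) : ℝ) : ℂ)) * τ + 0) :=
    fun τ => expand x F S b τ
  have hterm : ∀ i j : ι, Integrable (fun τ : ℝ => (F i * (starRingEnd ℂ) (F j)) *
        cexp ((b : ℂ) * (τ : ℂ) ^ 2 + (I * ((Real.log (x i) - Real.log (x j) : ℝ) : ℂ)) * τ + 0)) :=
    fun i j => (gint hY0 _).1.const_mul _
  have hGint' : Integrable (fun τ => ((G τ : ℝ) : ℂ)) := by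
    have : (fun τ => ((G τ : ℝ) : ℂ)) = fun τ : ℝ => ∑ i ∈ S, ∑ j ∈ S, (F i * (starRingEnd ℂ) (F j)) *
        cexp ((b : ℂ) * (τ : ℂ) ^ 2 + (I * ((Real.log (x i) - Real.log (x j) : ℝ) : ℂ)) * τ + 0) :=
      funext hGexp
    rw [this]
    exact integrable_finsetSum _ fun i _ => integrable_finsetSum _ fun j _ => hterm i j
  have hGint : Integrable G := by
    have := hGint'.re
    simpa using this
  have hG0 : ∀ τ, 0 ≤ G τ := fun τ => by
    simp only [hG]
    positivity
  have hGI : ∫ τ, G τ ≤ ∑ i ∈ S, ∑ j ∈ S, (‖F i‖ * ‖F j‖) *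
      (3 * Y * Real.exp (-((Y * (Real.log (x i) - Real.log (x j))) ^ 2 / 2))) := by
    have h1 : ((∫ τ, G τ : ℝ) : ℂ) = ∑ i ∈ S, ∑ j ∈ S, (F i * (starRingEnd ℂ) (F j)) *
        ∫ τ : ℝ, cexp ((b : ℂ) * (τ : ℂ) ^ 2 +
          (I * ((Real.log (x i) - Real.log (x j) : ℝ) : ℂ)) * τ + 0) := by
      rw [← integral_complex_ofReal]
      simp only [hGexp]
      rw [integral_finsetSum _ fun i _ => integrable_finsetSum _ fun j _ => hterm i j]
      apply Finset.sum_congr rfl
      intro i _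
      rw [integral_finsetSum _ fun j _ => hterm i j]
      apply Finset.sum_congr rfl
      intro j _
      rw [integral_const_mul]
    have h2 : ∫ τ, G τ ≤ ‖((∫ τ, G τ : ℝ) : ℂ)‖ := by
      rw [Complex.norm_real, Real.norm_eq_abs]
      exact le_abs_self _
    refine h2.trans ?_
    rw [h1]
    refine (norm_sum_le _ _).trans (Finset.sum_le_sum fun i _ => ?_)
    refine (norm_sum_le _ _).trans (Finset.sum_le_sum fun j _ => ?_)
    rw [norm_mul, norm_mul, RCLike.norm_conj]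
    exact mul_le_mul_of_nonneg_left (gint hY0 _).2 (by positivity)
  have hbound : ∑ i ∈ S, ∑ j ∈ S, (‖F i‖ * ‖F j‖) *
      (3 * Y * Real.exp (-((Y * (Real.log (x i) - Real.log (x j))) ^ 2 / 2))) ≤
      3 * Y * (16 * K * (2 * T / Y + 1)) * sq F S := by
    set g : ι → ι → ℝ := fun i j => Real.exp (-((Y * (Real.log (x i) - Real.log (x j))) ^ 2 / 2)) with hg
    have hgs : ∀ i j, g i j = g j i := by
      intro i j
      simp only [hg]
      congr 3
      ring
    have hg0 : ∀ i j, 0 ≤ g i j := fun i j => (Real.exp_pos _).le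
    have h1 : ∑ i ∈ S, ∑ j ∈ S, (‖F i‖ * ‖F j‖) * (3 * Y * g i j) ≤
        ∑ i ∈ S, ∑ j ∈ S, (3 * Y * (‖F i‖ ^ 2 * g i j) / 2 + 3 * Y * (‖F j‖ ^ 2 * g i j) / 2) := by
      apply Finset.sum_le_sum
      intro i _
      apply Finset.sum_le_sum
      intro j _
      have h2 : ‖F i‖ * ‖F j‖ ≤ (‖F i‖ ^ 2 + ‖F j‖ ^ 2) / 2 := by
        nlinarith [sq_nonneg (‖F i‖ - ‖F j‖)]
      have h3 : 0 ≤ 3 * Y * g i j := by
        have := hg0 i j
        positivity
      calc (‖F i‖ * ‖F j‖) * (3 * Y * g i j) ≤ ((‖F i‖ ^ 2 + ‖F j‖ ^ 2) / 2) * (3 * Y * g i j) :=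
            mul_le_mul_of_nonneg_right h2 h3
        _ = _ := by ring
    have h2 : ∑ i ∈ S, ∑ j ∈ S, (3 * Y * (‖F i‖ ^ 2 * g i j) / 2 + 3 * Y * (‖F j‖ ^ 2 * g i j) / 2) =
        ∑ i ∈ S, ‖F i‖ ^ 2 * (3 * Y) * ∑ j ∈ S, g i j := by
      simp only [Finset.sum_add_distrib]
      have h3 : ∑ i ∈ S, ∑ j ∈ S, 3 * Y * (‖F j‖ ^ 2 * g i j) / 2 =
          ∑ i ∈ S, ∑ j ∈ S, 3 * Y * (‖F i‖ ^ 2 * g i j) / 2 := by
        rw [Finset.sum_comm]
        apply Finset.sum_congr rfl
        intro i _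
        apply Finset.sum_congr rfl
        intro j _
        rw [hgs j i]
      rw [h3, ← Finset.sum_add_distrib]
      apply Finset.sum_congr rfl
      intro i _
      rw [← Finset.sum_add_distrib, Finset.mul_sum]
      apply Finset.sum_congr rfl
      intro j _
      ring
    refine h1.trans (h2.le.trans ?_)
    unfold sq
    rw [Finset.mul_sum]
    apply Finset.sum_le_sum
    intro i hi
    have h4 := gsum hT hY hx h hi
    calc ‖F i‖ ^ 2 * (3 * Y) * ∑ j ∈ S, g i j ≤ ‖F i‖ ^ 2 * (3 * Y) * (16 * K * (2 * T / Y + 1)) := by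
          apply mul_le_mul_of_nonneg_left h4 (by positivity)
      _ = _ := by ring
  have hmain : ∫ τ in (-Y)..Y, ‖DP x F S τ‖ ^ 2 ≤ 2 * ∫ τ, G τ := by
    have hcont : Continuous (fun τ : ℝ => ‖DP x F S τ‖ ^ 2) := by
      unfold DP
      fun_prop
    have hcG : Continuous G := by
      simp only [hG]
      exact (by fun_prop : Continuous (fun τ : ℝ => Real.exp (b * τ ^ 2))).mul hcont
    rw [intervalIntegral.integral_of_le (by linarith)]
    have h1 : ∫ τ in Ioc (-Y) Y, ‖DP x F S τ‖ ^ 2 ≤ ∫ τ in Ioc (-Y) Y, 2 * G τ := by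
      apply setIntegral_mono_on
      · exact (hcont.integrableOn_Icc).mono_set Ioc_subset_Icc_self
      · exact ((hGint.const_mul 2).integrableOn)
      · exact measurableSet_Ioc
      · intro τ hτ
        have h2 : (1 : ℝ) ≤ 2 * Real.exp (b * τ ^ 2) := by
          have h3 : -(1 / 2 : ℝ) ≤ b * τ ^ 2 := by
            have h4 : τ ^ 2 ≤ Y ^ 2 := by
              rw [sq_le_sq, abs_of_pos hY0]
              exact abs_le.2 ⟨hτ.1.le, hτ.2⟩
            rw [hb, neg_mul]
            apply neg_le_neg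
            calc 1 / (2 * Y ^ 2) * τ ^ 2 ≤ 1 / (2 * Y ^ 2) * Y ^ 2 := by gcongr
              _ = 1 / 2 := by field_simp
          have h5 : (1 / 2 : ℝ) ≤ Real.exp (-(1 / 2)) := by
            have := Real.add_one_le_exp (-(1 / 2) : ℝ)
            linarith
          have h6 := Real.exp_le_exp.2 h3
          linarith
        calc ‖DP x F S τ‖ ^ 2 = 1 * ‖DP x F S τ‖ ^ 2 := (one_mul _).symm
          _ ≤ (2 * Real.exp (b * τ ^ 2)) * ‖DP x F S τ‖ ^ 2 := by gcongr
          _ = 2 * G τ := by simp only [hG]; ring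
    refine h1.trans ?_
    rw [← integral_const_mul]
    apply setIntegral_le_integral (hGint.const_mul 2)
    filter_upwards with τ
    have := hG0 τ
    simp only [Pi.zero_apply]
    positivity
  calc ∫ τ in (-Y)..Y, ‖DP x F S τ‖ ^ 2 ≤ 2 * ∫ τ, G τ := hmain
    _ ≤ 2 * (3 * Y * (16 * K * (2 * T / Y + 1)) * sq F S) := by
        have := hGI.trans hbound
        linarith
    _ = (96 * K * sq F S) * (2 * T + Y) := by
        field_simp
        ring
    _ ≤ (96 * K * sq F S) * (2 * (Y + T)) := by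
        apply mul_le_mul_of_nonneg_left _ (by positivity)
        linarith
    _ = 192 * K * (Y + T) * sq F S := by ring

end Pool.Agent.Helper30K1.DS
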