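import Pool.Agent.N879.GD.Stm

set_option autoImplicit false

/-!
# Project DS: `∑ F_i ∏ |ζ(1/2+iλ_j x_i)|²` for generic dilations `λ` and arbitrary sequences `x`
(integers, primes, ordinates of zeros). Definitions and statements

Discrete version of the project GD (`Pool.Agent.N879.GD`, completed in `Pool.Agent.Helper30K1.GD`).
-/

namespace Pool.Agent.Helper30K1.DS

open Complex Filter Topology MeasureTheory Set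
open Pool.Agent.Y969.GP (ff)
open Pool.Agent.N879.GD (D0 dif NN gp)

noncomputable section

/-- positive points, at most `y^o(1)` of them between `y` and `y + 1` -/
def Sq {ι : Type} (x : ι → ℝ) : Prop := (∀ i, 0 < x i) ∧ ∀ ε : ℝ, 0 < ε → ∃ C : ℝ, 0 < C ∧ ∀ y : ℝ, 0 ≤ y →
  ∀ S : Finset ι, (∀ i ∈ S, y ≤ x i ∧ x i ≤ y + 1) → (S.card : ℝ) ≤ C * (1 + y) ^ ε

/-- the sum of the squares -/
def sq {ι : Type} (F : ι → ℂ) (S : Finset ι) : ℝ := ∑ i ∈ S, ‖F i‖ ^ 2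

/-- the class of weights -/
def Gr {ι : Type} (x : ι → ℝ) (F : ι → ℂ) : Prop := ∀ ε : ℝ, 0 < ε → ∃ C : ℝ, 0 < C ∧ ∀ T : ℝ, 1 ≤ T →
  ∀ S : Finset ι, (∀ i ∈ S, x i ≤ T) → sq F S ≤ C * T ^ (1 + ε)

open Classical in
/-- the indices with `a < x i ≤ b` (`∅` if there are infinitely many) -/
def fs {ι : Type} (x : ι → ℝ) (a b : ℝ) : Finset ι :=
  if h : {i | a < x i ∧ x i ≤ b}.Finite then h.toFinset else ∅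

/-- the Dirichlet polynomial -/
def DP {ι : Type} (x : ι → ℝ) (F : ι → ℂ) (S : Finset ι) (τ : ℝ) : ℂ :=
  ∑ i ∈ S, F i * cexp (I * ((τ * Real.log (x i) : ℝ) : ℂ))

/-- the Mellin transform on the imaginary axis -/
def mel (g : ℝ → ℝ) (τ : ℝ) : ℂ :=
  ∫ u in Ioi (0 : ℝ), ((g u / u : ℝ) : ℂ) * cexp (-(I * ((τ * Real.log u : ℝ) : ℂ)))

/-- at most `K` points in each unit interval -/
def Few {ι : Type} (x : ι → ℝ) (S : Finset ι) (K : ℝ) : Prop := ∀ y : ℝ, ∀ S' : Finset ι, S' ⊆ S →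
  (∀ i ∈ S', y ≤ x i ∧ x i ≤ y + 1) → (S'.card : ℝ) ≤ K

/-- MVT: the mean value theorem for Dirichlet polynomials with the frequencies `log (x i)` -/
def S_MVT : Prop := ∃ C : ℝ, 0 < C ∧ ∀ (ι : Type) (x : ι → ℝ) (F : ι → ℂ) (S : Finset ι) (T Y K : ℝ),
  1 ≤ T → 1 ≤ Y → (∀ i ∈ S, T ≤ x i ∧ x i ≤ 2 * T) → Few x S K →
  ∫ τ in (-Y)..Y, ‖DP x F S τ‖ ^ 2 ≤ C * K * (Y + T) * sq F S

/-- PLD: Plancherel's theorem in the dilation -/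
def S_PLD : Prop := ∀ (ι : Type) (x : ι → ℝ) (F : ι → ℂ) (S : Finset ι) (g : ℝ → ℝ) (a b : ℝ), 0 < a →
  Continuous g → (∀ u, u ∉ Icc a b → g u = 0) → (∀ i ∈ S, 0 < x i) →
  ∫⁻ θ in Ioi (0 : ℝ), ‖∑ i ∈ S, F i * ((g (θ * x i) : ℝ) : ℂ)‖ₑ ^ 2 * ENNReal.ofReal θ⁻¹ ≤
    ∫⁻ τ : ℝ, ‖DP x F S τ‖ₑ ^ 2 * ‖mel g τ‖ₑ ^ 2

/-- OFF: the mean square of zeta on lines close to the critical line -/
def S_OFF : Prop := ∀ ε : ℝ, 0 < ε → ∃ r C : ℝ, 0 < r ∧ r < 1 / 8 ∧ 0 < C ∧ ∀ σ : ℝ, |σ - 1 / 2| ≤ r →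
  ∀ T : ℝ, 1 ≤ T → ∫ v in (-T)..T, ‖riemannZeta ((σ : ℂ) + v * I)‖ ^ 2 ≤ C * T ^ (1 + ε)

/-- DZ: the mean square of the derivative of zeta on the critical line -/
def S_DZ : Prop := ∀ ε : ℝ, 0 < ε → ∃ C : ℝ, 0 < C ∧ ∀ T : ℝ, 1 ≤ T →
  ∫ u in (0 : ℝ)..T, ‖deriv riemannZeta (1 / 2 + I * u)‖ ^ 2 ≤ C * T ^ (1 + ε)

/-- LAR: the Mellin transform for large frequencies (one integration by parts) -/
def S_LAR : Prop := ∀ w : ℝ → ℝ, ContDiff ℝ (⊤ : ℕ∞) w → HasCompactSupport w → tsupport w ⊆ Ioi 0 →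
  ∀ ε : ℝ, 0 < ε → ∃ C T₀ : ℝ, 0 < C ∧ 1 ≤ T₀ ∧ ∀ T τ : ℝ, T₀ ≤ T → 1 ≤ |τ| →
  ‖mel (fun u => w (u / T) * (ff u - D0 u)) τ‖ ≤ C * T ^ (1 + ε) / |τ|

/-- the mean square over one dilation -/
def P_DIL1 (δ : ℝ) : Prop := ∀ A : ℝ, 1 ≤ A → ∃ C T₀ : ℝ, 0 < C ∧ 1 ≤ T₀ ∧
  ∀ (ι : Type) (x : ι → ℝ) (F : ι → ℂ) (S : Finset ι) (T K : ℝ), T₀ ≤ T →
  (∀ i ∈ S, T ≤ x i ∧ x i ≤ 2 * T) → Few x S K →
  ∫⁻ l in Icc A⁻¹ A, ‖∑ i ∈ S, F i * ((ff (l * x i) - D0 (l * x i) : ℝ) : ℂ)‖ₑ ^ 2 ≤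
    ENNReal.ofReal (C * K * T ^ (1 - 2 * δ) * sq F S)

/-- DIL1 -/
def S_DIL1 : Prop := ∃ δ : ℝ, 0 < δ ∧ δ ≤ 1 ∧ P_DIL1 δ

/-- the mean square over several dilations -/
def P_DILK (δ : ℝ) : Prop := ∀ (k : ℕ) (A : ℝ), 1 ≤ A → ∃ C T₀ : ℝ, 0 < C ∧ 1 ≤ T₀ ∧
  ∀ (ι : Type) (x : ι → ℝ) (F : ι → ℂ) (S : Finset ι) (T K : ℝ), T₀ ≤ T →
  (∀ i ∈ S, T ≤ x i ∧ x i ≤ 2 * T) → Few x S K →
  ∫⁻ l in Icc (fun _ : Fin k => A⁻¹) (fun _ => A), ‖∑ i ∈ S, F i * ((dif l (x i) : ℝ) : ℂ)‖ₑ ^ 2 ≤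
    ENNReal.ofReal (C * K * T ^ (1 - 2 * δ) * sq F S)

/-- DILK -/
def S_DILK : Prop := ∀ δ δ' : ℝ, 0 < δ' → δ' < δ → δ ≤ 1 → P_DIL1 δ → P_DILK δ'

/-- the weighted sum over `(a, b]` -/
def JJ {k : ℕ} {ι : Type} (x : ι → ℝ) (F : ι → ℂ) (l : Fin k → ℝ) (a b : ℝ) : ℝ :=
  ‖∑ i ∈ fs x a b, F i * ((dif l (x i) : ℝ) : ℂ)‖

/-- the bad parameters at scale `2^n` -/
def Bad (k : ℕ) {ι : Type} (x : ι → ℝ) (F : ι → ℂ) (A c θ ρ : ℝ) (n : ℕ) : Set (Fin k → ℝ) :=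
  {l | (∀ j, A⁻¹ ≤ l j ∧ l j ≤ A) ∧ ∃ i < NN θ n,
    c * ((2 : ℝ) ^ n) ^ (1 - ρ) < JJ x F l (2 ^ n) (gp θ n i) ∨
    c * ((2 : ℝ) ^ n) ^ (1 - ρ) < JJ x (fun i => ((‖F i‖ : ℝ) : ℂ)) l (gp θ n i) (gp θ n (i + 1))}

/-- MB: measure of the bad set -/
def S_MB : Prop := ∀ (δ θ ρ κ : ℝ), 0 < δ → 0 < θ → θ ≤ 1 → 0 < ρ → ρ ≤ 1 → P_DILK δ →
  θ + 2 * ρ + κ < 2 * δ → ∀ (k : ℕ) (ι : Type) (x : ι → ℝ) (F : ι → ℂ), Sq x → Gr x F →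
  ∀ A c : ℝ, 1 ≤ A → 0 < c → ∃ C : ℝ, 0 < C ∧ ∀ᶠ n : ℕ in atTop,
    volume (Bad k x F A c θ ρ n) ≤ ENNReal.ofReal (C * ((2 : ℝ) ^ n) ^ (-κ))

/-- LIP: balls around bad points -/
def S_LIP : Prop := ∀ k : ℕ, ∃ K : ℝ, 1 ≤ K ∧ ∀ (ι : Type) (x : ι → ℝ) (F : ι → ℂ) (A θ ρ : ℝ), Sq x →
  Gr x F → 1 ≤ A → 0 < θ → θ ≤ 1 → 0 < ρ → ρ ≤ 1 → ∀ᶠ n : ℕ in atTop, ∀ y ∈ Bad k x F A 1 θ ρ n,
  Metric.closedBall y (((2 : ℝ) ^ n) ^ (-K)) ⊆ Bad k x F (2 * A) (1 / 2) θ ρ n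

/-- DET: the sum for parameters which are bad only finitely often -/
def S_DET : Prop := ∀ (k : ℕ) (ι : Type) (x : ι → ℝ) (F : ι → ℂ) (A θ ρ δ : ℝ), Sq x → Gr x F → 1 ≤ A →
  0 < θ → θ ≤ 1 → 0 < ρ → ρ ≤ 1 → 0 < δ → δ < ρ → 2 * δ < θ → ∀ l : Fin k → ℝ,
  (∀ j, A⁻¹ ≤ l j ∧ l j ≤ A) → (∀ᶠ n : ℕ in atTop, l ∉ Bad k x F A 1 θ ρ n) →
  ∃ C : ℝ, ∀ T : ℝ, 1 ≤ T → ‖∑ i ∈ fs x 0 T, F i * ((dif l (x i) : ℝ) : ℂ)‖ ≤ C * T ^ (1 - δ)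

/-- FIN -/
def S_FIN : Prop := ∃ δ : ℝ, 0 < δ ∧ δ < 1 ∧ ∀ k : ℕ, 0 < k → ∃ s : ℝ, 0 < s ∧ s < k ∧
  ∀ (ι : Type) (x : ι → ℝ) (F : ι → ℂ), Sq x → Gr x F →
  ∃ E : Set (Fin k → ℝ), dimH E ≤ ENNReal.ofReal s ∧
  ∀ l : Fin k → ℝ, l ∉ E → (∀ j, 0 < l j) → ∃ C : ℝ, ∀ T : ℝ, 1 ≤ T →
    ‖∑ i ∈ fs x 0 T, F i * ((dif l (x i) : ℝ) : ℂ)‖ ≤ C * T ^ (1 - δ)

/-! ### Elementary facts -/

theorem Sq.pos {ι : Type} {x : ι → ℝ} (h : Sq x) (i : ι) : 0 < x i := h.1 i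

/-- finitely many points below `T` -/
theorem Sq.fin {ι : Type} {x : ι → ℝ} (h : Sq x) (T : ℝ) : {i | x i ≤ T}.Finite := by
  obtain ⟨C, hC, hb⟩ := h.2 1 one_pos
  have h1 : ∀ n : ℕ, {i | (n : ℝ) ≤ x i ∧ x i ≤ n + 1}.Finite := by
    intro n
    by_contra hinf
    obtain ⟨m, hm⟩ := exists_nat_gt (C * (1 + (n : ℝ)) ^ (1 : ℝ))
    obtain ⟨S, hS, hc⟩ := (Set.not_finite.1 hinf).exists_subset_card_eq m
    have := hb n (Nat.cast_nonneg n) S (fun i hi => hS hi)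
    rw [hc] at this
    linarith
  have h2 : {i | x i ≤ T} ⊆ ⋃ n ∈ Finset.range (⌈T⌉₊ + 1), {i | (n : ℝ) ≤ x i ∧ x i ≤ n + 1} := by
    intro i hi
    have h0 := h.1 i
    simp only [Set.mem_iUnion]
    refine ⟨⌊x i⌋₊, ?_, Nat.floor_le h0.le, (Nat.lt_floor_add_one _).le⟩
    rw [Finset.mem_range, Nat.lt_succ_iff]
    exact (Nat.floor_mono (show x i ≤ T from hi)).trans (Nat.floor_le_ceil T)
  exact (Set.Finite.biUnion (Finset.finite_toSet _) (fun n _ => h1 n)).subset h2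

theorem Sq.mem {ι : Type} {x : ι → ℝ} (h : Sq x) {a b : ℝ} {i : ι} :
    i ∈ fs x a b ↔ a < x i ∧ x i ≤ b := by
  have hf : {i | a < x i ∧ x i ≤ b}.Finite := (h.fin b).subset fun i hi => hi.2
  unfold fs
  rw [dif_pos hf, Set.Finite.mem_toFinset]
  rfl

/-- splitting an interval -/
theorem Sq.split {ι : Type} {x : ι → ℝ} (h : Sq x) {a b c : ℝ} (hab : a ≤ b) (hbc : b ≤ c)
    (f : ι → ℂ) : ∑ i ∈ fs x a c, f i = ∑ i ∈ fs x a b, f i + ∑ i ∈ fs x b c, f i := by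
  classical
  have hd : Disjoint (fs x a b) (fs x b c) := by
    rw [Finset.disjoint_left]
    intro i h1 h2
    rw [h.mem] at h1 h2
    linarith [h1.2, h2.1]
  rw [← Finset.sum_union hd]
  congr 1
  ext i
  rw [Finset.mem_union, h.mem, h.mem, h.mem]
  constructor
  · rintro ⟨h1, h2⟩
    by_cases h3 : x i ≤ b
    · exact Or.inl ⟨h1, h3⟩
    · exact Or.inr ⟨not_le.1 h3, h2⟩
  · rintro (⟨h1, h2⟩ | ⟨h1, h2⟩)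
    · exact ⟨h1, h2.trans hbc⟩
    · exact ⟨lt_of_le_of_lt hab h1, h2⟩

/-- the count in dyadic intervals -/
theorem Sq.few {ι : Type} {x : ι → ℝ} (h : Sq x) {ε : ℝ} (hε : 0 < ε) : ∃ C : ℝ, 0 < C ∧
    ∀ T : ℝ, 1 ≤ T → ∀ S : Finset ι, (∀ i ∈ S, x i ≤ 2 * T) → Few x S (C * T ^ ε) := by
  obtain ⟨C, hC, hb⟩ := h.2 ε hε
  refine ⟨C * 3 ^ ε + 1 + C, by positivity, fun T hT S hS y S' hS' h1 => ?_⟩
  have hT1 : 1 ≤ T ^ ε := Real.one_le_rpow hT hε.le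
  have h3 : (0 : ℝ) < 3 ^ ε := by positivity
  rcases lt_or_ge y 0 with hy | hy
  · have := hb 0 le_rfl S' (fun i hi => ⟨(h.1 i).le, by linarith [(h1 i hi).2]⟩)
    rw [add_zero, Real.one_rpow, mul_one] at this
    have h5 : C * 1 ≤ (C * 3 ^ ε + 1 + C) * T ^ ε := by
      refine mul_le_mul ?_ hT1 zero_le_one (by positivity)
      nlinarith
    linarith
  · rcases lt_or_ge (2 * T) y with hy2 | hy2
    · have : S' = ∅ := by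
        rw [Finset.eq_empty_iff_forall_notMem]
        intro i hi
        have h5 := (h1 i hi).1
        have h6 := hS i (hS' hi)
        linarith
      rw [this]
      simp only [Finset.card_empty, Nat.cast_zero]
      positivity
    · have h5 := hb y hy S' h1
      have h6 : (1 + y) ^ ε ≤ (3 * T) ^ ε := Real.rpow_le_rpow (by linarith) (by linarith) hε.le
      rw [Real.mul_rpow (by norm_num) (by linarith)] at h6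
      calc (S'.card : ℝ) ≤ C * (1 + y) ^ ε := h5
        _ ≤ C * (3 ^ ε * T ^ ε) := by gcongr
        _ = C * 3 ^ ε * T ^ ε := by ring
        _ ≤ (C * 3 ^ ε + 1 + C) * T ^ ε := by
          gcongr
          linarith

end

end Pool.Agent.Helper30K1.DS
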